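import Mathlib

/-!
Chord diagrams of graphs on `ℕ`: interleaving, validity, connected sets.
-/

set_option linter.unusedVariables false

namespace Pool.Agent.Lib.MP_f9c574_lc

open Relation

/-- The pairs of numbers `a, b` and `c, d` interleave. -/
def Il (a b c d : ℕ) : Prop :=
  (a < c ∧ c < b ∧ (d < a ∨ b < d)) ∨ (b < c ∧ c < a ∧ (d < b ∨ a < d)) ∨
  (a < d ∧ d < b ∧ (c < a ∨ b < c)) ∨ (b < d ∧ d < a ∧ (c < b ∨ a < c))

/-- The chords `a b` and `c d` interleave for the positions `p`. -/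
def Cr (p : ℕ → ℕ) (a b c d : ℕ) : Prop := Il (p a) (p b) (p c) (p d)

theorem Cr.swap_left {p a b c d} (h : Cr p a b c d) : Cr p b a c d := by
  unfold Cr Il at *; omega
theorem Cr.swap_right {p a b c d} (h : Cr p a b c d) : Cr p a b d c := by
  unfold Cr Il at *; omega
theorem Cr.symm {p a b c d} (h : Cr p a b c d) : Cr p c d a b := by
  unfold Cr Il at *; omega
theorem Cr.ne_ac {p a b c d} (h : Cr p a b c d) : a ≠ c := by
  rintro rfl; unfold Cr Il at *; omega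
theorem Cr.ne_ad {p a b c d} (h : Cr p a b c d) : a ≠ d := by
  rintro rfl; unfold Cr Il at *; omega
theorem Cr.ne_bc {p a b c d} (h : Cr p a b c d) : b ≠ c := by
  rintro rfl; unfold Cr Il at *; omega
theorem Cr.ne_bd {p a b c d} (h : Cr p a b c d) : b ≠ d := by
  rintro rfl; unfold Cr Il at *; omega

variable (G : SimpleGraph ℕ)

/-- No edge is crossed by two independent edges. -/
def NoInd (U : Finset ℕ) (p : ℕ → ℕ) : Prop :=
  ∀ a ∈ U, ∀ b ∈ U, ∀ c ∈ U, ∀ d ∈ U, ∀ c' ∈ U, ∀ d' ∈ U, G.Adj a b → G.Adj c d → G.Adj c' d' →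
    Cr p a b c d → Cr p a b c' d' → c = c' ∨ c = d' ∨ d = c' ∨ d = d'

/-- Edges at `u` are crossed only by edges at `v`. -/
def Con1 (U : Finset ℕ) (p : ℕ → ℕ) (u v : ℕ) : Prop :=
  ∀ a ∈ U, ∀ b ∈ U, ∀ c ∈ U, ∀ d ∈ U, G.Adj a b → G.Adj c d → Cr p a b c d → a = u →
    c = v ∨ d = v

/-- The combinatorial form of an outer fan-planar drawing of the subgraph induced on `U`. -/
def Drawable (U : Finset ℕ) : Prop :=
  ∃ p : ℕ → ℕ, Set.InjOn p U ∧ NoInd G U p

/-- Same crossings. -/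
def CrEq (U : Finset ℕ) (p q : ℕ → ℕ) : Prop :=
  ∀ a ∈ U, ∀ b ∈ U, ∀ c ∈ U, ∀ d ∈ U, (Cr p a b c d ↔ Cr q a b c d)

variable {G}

theorem NoInd.mono {U U' p} (h : NoInd G U p) (hU : U' ⊆ U) : NoInd G U' p :=
  fun a ha b hb c hc d hd c' hc' d' hd' =>
    h a (hU ha) b (hU hb) c (hU hc) d (hU hd) c' (hU hc') d' (hU hd')

theorem Con1.mono {U U' p u v} (h : Con1 G U p u v) (hU : U' ⊆ U) : Con1 G U' p u v :=
  fun a ha b hb c hc d hd => h a (hU ha) b (hU hb) c (hU hc) d (hU hd)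

theorem Drawable.mono {U U'} (h : Drawable G U) (hU : U' ⊆ U) : Drawable G U' :=
  let ⟨p, h1, h2⟩ := h
  ⟨p, h1.mono hU, h2.mono hU⟩

theorem CrEq.mono {U U' p q} (h : CrEq U p q) (hU : U' ⊆ U) : CrEq U' p q :=
  fun a ha b hb c hc d hd => h a (hU ha) b (hU hb) c (hU hc) d (hU hd)

theorem CrEq.symm {U p q} (h : CrEq U p q) : CrEq U q p :=
  fun a ha b hb c hc d hd => (h a ha b hb c hc d hd).symm

theorem CrEq.trans {U p q r} (h : CrEq U p q) (h' : CrEq U q r) : CrEq U p r :=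
  fun a ha b hb c hc d hd => (h a ha b hb c hc d hd).trans (h' a ha b hb c hc d hd)

theorem NoInd.congr {U p q} (h : NoInd G U p) (e : CrEq U p q) : NoInd G U q :=
  fun a ha b hb c hc d hd c' hc' d' hd' h1 h2 h3 h4 h5 =>
    h a ha b hb c hc d hd c' hc' d' hd' h1 h2 h3 ((e a ha b hb c hc d hd).2 h4)
      ((e a ha b hb c' hc' d' hd').2 h5)

theorem Con1.congr {U p q u v} (h : Con1 G U p u v) (e : CrEq U p q) : Con1 G U q u v :=
  fun a ha b hb c hc d hd h1 h2 h3 =>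
    h a ha b hb c hc d hd h1 h2 ((e a ha b hb c hc d hd).2 h3)

theorem crEq_of_lt_iff {U : Finset ℕ} {p q : ℕ → ℕ}
    (h : ∀ a ∈ U, ∀ b ∈ U, (p a < p b ↔ q a < q b)) : CrEq U p q := by
  intro a ha b hb c hc d hd
  unfold Cr Il
  simp only [h a ha c hc, h a ha d hd, h b hb c hc, h b hb d hd,
    h c hc a ha, h c hc b hb, h d hd a ha, h d hd b hb]

theorem il_rot {t N a b c d a' b' c' d' : ℕ}
    (ha : (a < t ∧ a' = a + N) ∨ (t ≤ a ∧ a < N ∧ a' = a))
    (hb : (b < t ∧ b' = b + N) ∨ (t ≤ b ∧ b < N ∧ b' = b))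
    (hc : (c < t ∧ c' = c + N) ∨ (t ≤ c ∧ c < N ∧ c' = c))
    (hd : (d < t ∧ d' = d + N) ∨ (t ≤ d ∧ d < N ∧ d' = d)) :
    Il a b c d ↔ Il a' b' c' d' := by
  unfold Il
  rcases ha with ⟨ha, rfl⟩ | ⟨ha, ha', rfl⟩ <;> rcases hb with ⟨hb, rfl⟩ | ⟨hb, hb', rfl⟩ <;>
  rcases hc with ⟨hc, rfl⟩ | ⟨hc, hc', rfl⟩ <;> rcases hd with ⟨hd, rfl⟩ | ⟨hd, hd', rfl⟩ <;>
  omega

theorem il_refl {N a b c d : ℕ} (ha : a < N) (hb : b < N) (hc : c < N) (hd : d < N) :
    Il a b c d ↔ Il (N - a) (N - b) (N - c) (N - d) := by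
  unfold Il; omega

theorem exists_bound (U : Finset ℕ) (p : ℕ → ℕ) : ∃ N, ∀ x ∈ U, p x < N :=
  ⟨U.sup p + 1, fun x hx => Nat.lt_succ_of_le (Finset.le_sup (f := p) hx)⟩

/-- Rotation making `u` first. -/
theorem exists_rot {U : Finset ℕ} {p : ℕ → ℕ} (hp : Set.InjOn p U) {u : ℕ} (hu : u ∈ U) :
    ∃ q : ℕ → ℕ, Set.InjOn q U ∧ CrEq U p q ∧ ∀ x ∈ U, x ≠ u → q u < q x := by
  obtain ⟨N, hN⟩ := exists_bound U p
  have key : ∀ x ∈ U, (p x < p u ∧ (if p x < p u then p x + N else p x) = p x + N) ∨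
      (p u ≤ p x ∧ p x < N ∧ (if p x < p u then p x + N else p x) = p x) := by
    intro x hx
    have := hN x hx
    split_ifs <;> omega
  refine ⟨fun x => if p x < p u then p x + N else p x, ?_, ?_, ?_⟩
  · intro x hx y hy hxy
    have h1 := key x hx
    have h2 := key y hy
    have h3 := hN x hx
    have h4 := hN y hy
    apply hp hx hy
    simp only at hxy
    omega
  · intro a ha b hb c hc d hd
    exact il_rot (key a ha) (key b hb) (key c hc) (key d hd)
  · intro x hx hxu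
    have h1 := key x hx
    have h2 := key u hu
    have h3 : p x ≠ p u := fun h => hxu (hp hx hu h)
    simp only
    omega

/-- Reflection making `u` last. -/
theorem exists_refl {U : Finset ℕ} {p : ℕ → ℕ} (hp : Set.InjOn p U) :
    ∃ q : ℕ → ℕ, Set.InjOn q U ∧ CrEq U p q ∧ ∀ x ∈ U, ∀ y ∈ U, (q x < q y ↔ p y < p x) := by
  obtain ⟨N, hN⟩ := exists_bound U p
  refine ⟨fun x => N - p x, ?_, ?_, ?_⟩
  · intro x hx y hy hxy
    have h3 := hN x hx
    have h4 := hN y hy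
    apply hp hx hy
    simp only at hxy
    omega
  · intro a ha b hb c hc d hd
    exact il_refl (hN a ha) (hN b hb) (hN c hc) (hN d hd)
  · intro x hx y hy
    have h3 := hN x hx
    have h4 := hN y hy
    simp only
    omega

/-- Normal form: `u` first and `y` before `v`. -/
theorem exists_norm {U : Finset ℕ} {p : ℕ → ℕ} (hp : Set.InjOn p U) {u v y : ℕ} (hu : u ∈ U)
    (hv : v ∈ U) (hy : y ∈ U) (huv : u ≠ v) (hyu : y ≠ u) (hyv : y ≠ v) :
    ∃ q : ℕ → ℕ, Set.InjOn q U ∧ CrEq U p q ∧ (∀ x ∈ U, x ≠ u → q u < q x) ∧ q y < q v := by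
  obtain ⟨q, hq, e, h⟩ := exists_rot hp hu
  by_cases hyv' : q y < q v
  · exact ⟨q, hq, e, h, hyv'⟩
  · obtain ⟨N, hN⟩ := exists_bound U q
    have key : ∀ x ∈ U, (N - q x < N - q u ∧ (if x = u then N - q u else N - q x + N + 1) =
        N - q x + (N + 1)) ∨ (N - q u ≤ N - q x ∧ N - q x < N + 1 ∧
        (if x = u then N - q u else N - q x + N + 1) = N - q x) := by
      intro x hx
      have h1 := hN x hx
      have h2 := hN u hu
      split_ifs with hxu
      · subst hxu; omega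
      · have := h x hx hxu; omega
    refine ⟨fun x => if x = u then N - q u else N - q x + N + 1, ?_, e.trans ?_, ?_, ?_⟩
    · intro x hx y hy hxy
      have h1 := key x hx
      have h2 := key y hy
      have h3 := hN x hx
      have h4 := hN y hy
      apply hq hx hy
      simp only at hxy
      omega
    · intro a ha b hb c hc d hd
      exact (il_refl (hN a ha) (hN b hb) (hN c hc) (hN d hd)).trans
        (il_rot (key a ha) (key b hb) (key c hc) (key d hd))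
    · intro x hx hxu
      simp only [if_neg hxu, if_pos]
      omega
    · have h1 : q y ≠ q v := fun h => hyv (hq hy hv h)
      have h3 := hN y hy
      have h4 := hN v hv
      simp only [if_neg hyu, if_neg huv.symm]
      omega

/-! ### Connected sets -/

variable (G)

/-- Adjacency inside `W`. -/
def AdjIn (W : Finset ℕ) (a b : ℕ) : Prop := b ∈ W ∧ a ∈ W ∧ G.Adj a b

/-- `K` induces a connected subgraph. -/
def Conn (K : Finset ℕ) : Prop := ∀ x ∈ K, ∀ y ∈ K, ReflTransGen (AdjIn G K) x y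

open Classical in
/-- The component of `z` inside `W`. -/
noncomputable def comp (W : Finset ℕ) (z : ℕ) : Finset ℕ :=
  W.filter (fun y => ReflTransGen (AdjIn G W) z y)

variable {G}

theorem AdjIn.symm {W a b} (h : AdjIn G W a b) : AdjIn G W b a := ⟨h.2.1, h.1, h.2.2.symm⟩

theorem rtg_symm {W a b} (h : ReflTransGen (AdjIn G W) a b) : ReflTransGen (AdjIn G W) b a :=
  by
  induction h with
  | refl => exact .refl
  | tail _ h2 ih => exact ReflTransGen.head h2.symm ih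

theorem rtg_mono {W W' a b} (hW : W ⊆ W') (h : ReflTransGen (AdjIn G W) a b) :
    ReflTransGen (AdjIn G W') a b := by
  induction h with
  | refl => exact .refl
  | tail _ h2 ih => exact ih.tail ⟨hW h2.1, hW h2.2.1, h2.2.2⟩

theorem mem_comp {W z y} : y ∈ comp G W z ↔ y ∈ W ∧ ReflTransGen (AdjIn G W) z y := by
  unfold comp; simp only [Finset.mem_filter]

theorem comp_subset {W z} : comp G W z ⊆ W := fun _ h => (mem_comp.1 h).1

theorem self_mem_comp {W z} (hz : z ∈ W) : z ∈ comp G W z := mem_comp.2 ⟨hz, .refl⟩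

theorem comp_closed {W z x y} (hx : x ∈ comp G W z) (hy : y ∈ W) (h : G.Adj x y) :
    y ∈ comp G W z :=
  mem_comp.2 ⟨hy, (mem_comp.1 hx).2.tail ⟨hy, (mem_comp.1 hx).1, h⟩⟩

theorem comp_eq_of_mem {W z y} (hy : y ∈ comp G W z) : comp G W y = comp G W z := by
  ext x
  simp only [mem_comp]
  have := (mem_comp.1 hy).2
  exact ⟨fun h => ⟨h.1, this.trans h.2⟩, fun h => ⟨h.1, (rtg_symm this).trans h.2⟩⟩

theorem rtg_in_closed {W S : Finset ℕ} (hS : ∀ x ∈ S, ∀ y ∈ W, G.Adj x y → y ∈ S) {z y : ℕ}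
    (hz : z ∈ S) (h : ReflTransGen (AdjIn G W) z y) : y ∈ S ∧ ReflTransGen (AdjIn G S) z y := by
  induction h with
  | refl => exact ⟨hz, .refl⟩
  | tail _ h2 ih => exact ⟨hS _ ih.1 _ h2.1 h2.2.2, ih.2.tail ⟨hS _ ih.1 _ h2.1 h2.2.2, ih.1, h2.2.2⟩⟩

theorem conn_comp {W z} : Conn G (comp G W z) := by
  intro x hx y hy
  have h1 : ReflTransGen (AdjIn G W) x y :=
    (rtg_symm (mem_comp.1 hx).2).trans (mem_comp.1 hy).2
  exact (rtg_in_closed (fun a ha b hb h => comp_closed ha hb h) hx h1).2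

theorem comp_subset_of_closed {W S : Finset ℕ} (hS : ∀ x ∈ S, ∀ y ∈ W, G.Adj x y → y ∈ S) {z : ℕ}
    (hz : z ∈ S) : comp G W z ⊆ S :=
  fun _ hy => (rtg_in_closed hS hz (mem_comp.1 hy).2).1

/-- A connected set closed under adjacency inside `W` is a component. -/
theorem comp_eq_of_conn {W K : Finset ℕ} (hK : Conn G K) (hKW : K ⊆ W)
    (hS : ∀ x ∈ K, ∀ y ∈ W, G.Adj x y → y ∈ K) {z : ℕ} (hz : z ∈ K) : comp G W z = K := by
  refine Finset.Subset.antisymm (comp_subset_of_closed hS hz) (fun y hy => ?_)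
  exact mem_comp.2 ⟨hKW hy, rtg_mono hKW (hK z hz y hy)⟩

theorem rtg_switch {r : ℕ → ℕ → Prop} (s : ℕ → Prop) {x y : ℕ} (h : ReflTransGen r x y)
    (hx : s x) (hy : ¬ s y) : ∃ c d, r c d ∧ s c ∧ ¬ s d := by
  induction h with
  | refl => exact absurd hx hy
  | @tail b c _ h2 ih =>
    by_cases hb : s b
    · exact ⟨b, c, h2, hb, hy⟩
    · exact ih hb

/-- A chord separating two vertices of a connected set is crossed by an edge of the set. -/
theorem cross_in {U K : Finset ℕ} {p : ℕ → ℕ} (hp : Set.InjOn p U) (hK : Conn G K) (hKU : K ⊆ U)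
    {a b x y : ℕ} (ha : a ∈ U) (hb : b ∈ U) (haK : a ∉ K) (hbK : b ∉ K) (hx : x ∈ K) (hy : y ∈ K)
    (h : Cr p a b x y) : ∃ c ∈ K, ∃ d ∈ K, G.Adj c d ∧ Cr p a b c d := by
  have key : ∀ x ∈ K, ∀ y ∈ K, (min (p a) (p b) < p x ∧ p x < max (p a) (p b)) →
      ¬ (min (p a) (p b) < p y ∧ p y < max (p a) (p b)) →
      ∃ c ∈ K, ∃ d ∈ K, G.Adj c d ∧ Cr p a b c d := by
    intro x hx y hy h1 h2
    obtain ⟨c, d, hcd, hc, hd⟩ := rtg_switch
      (fun x => min (p a) (p b) < p x ∧ p x < max (p a) (p b)) (hK x hx y hy) h1 h2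
    refine ⟨c, hcd.2.1, d, hcd.1, hcd.2.2, ?_⟩
    have h3 : p d ≠ p a := fun e => haK (hp (hKU hcd.1) ha e ▸ hcd.1)
    have h4 : p d ≠ p b := fun e => hbK (hp (hKU hcd.1) hb e ▸ hcd.1)
    unfold Cr Il
    omega
  by_cases h1 : min (p a) (p b) < p x ∧ p x < max (p a) (p b)
  · exact key x hx y hy h1 (by unfold Cr Il at h; omega)
  · exact key y hy x hx (by unfold Cr Il at h; omega) h1

/-- The same with an outside neighbour `w` of the set. -/
theorem cross_ext {U K : Finset ℕ} {p : ℕ → ℕ} (hp : Set.InjOn p U) (hK : Conn G K) (hKU : K ⊆ U)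
    {a b x y w : ℕ} (ha : a ∈ U) (hb : b ∈ U) (haK : a ∉ K) (hbK : b ∉ K) (hx : x ∈ K)
    (hy : y ∈ K) (hw : G.Adj w y) (h : Cr p a b x w) :
    ∃ c ∈ K, ∃ d, (d ∈ K ∨ d = w) ∧ G.Adj c d ∧ Cr p a b c d := by
  by_cases h1 : Cr p a b y w
  · exact ⟨y, hy, w, Or.inr rfl, hw.symm, h1⟩
  · have h3 : p y ≠ p a := fun e => haK (hp (hKU hy) ha e ▸ hy)
    have h4 : p y ≠ p b := fun e => hbK (hp (hKU hy) hb e ▸ hy)
    obtain ⟨c, hc, d, hd, h5⟩ := cross_in hp hK hKU ha hb haK hbK hx hy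
      (by unfold Cr Il at *; omega)
    exact ⟨c, hc, d, Or.inl hd, h5⟩

end Pool.Agent.Lib.MP_f9c574_lc
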