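import Pool.Agent.Lib.MP_f9c574_lc.Basic

/-!
Every interval with a small cut cover splits into at most five such intervals.
-/

set_option linter.unusedVariables false

namespace Pool.Agent.Lib.MP_f9c574_lc

open Classical

variable (G : SimpleGraph ℕ)

/-- The edges from positions `[a, b)` to positions outside `[l, r)` are covered by `k` vertices. -/
def Cv (H : Finset ℕ) (p : ℕ → ℕ) (k a b l r : ℕ) : Prop :=
  ∃ X : Finset ℕ, X.card ≤ k ∧ X ⊆ H ∧ ∀ x ∈ H, ∀ y ∈ H, G.Adj x y → a ≤ p x → p x < b →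
    (p y < l ∨ r ≤ p y) → x ∈ X ∨ y ∈ X

variable {G} {H : Finset ℕ} {p : ℕ → ℕ}

theorem fan (hv : NoInd G H p) {a b : ℕ} (ha : a ∈ H) (hb : b ∈ H) (hab : G.Adj a b) :
    ∃ Y : Finset ℕ, Y.card ≤ 2 ∧ Y ⊆ H ∧
      ∀ c ∈ H, ∀ d ∈ H, G.Adj c d → Cr p a b c d → c ∈ Y ∨ d ∈ Y := by
  by_cases h : ∃ c ∈ H, ∃ d ∈ H, G.Adj c d ∧ Cr p a b c d
  · obtain ⟨c, hc, d, hd, hcd, hx⟩ := h
    refine ⟨{c, d}, Finset.card_le_two, ?_, fun c' hc' d' hd' hcd' hx' => ?_⟩
    · intro x hx
      simp only [Finset.mem_insert, Finset.mem_singleton] at hx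
      rcases hx with rfl | rfl <;> assumption
    · have := hv a ha b hb c hc d hd c' hc' d' hd' hab hcd hcd' hx hx'
      simp only [Finset.mem_insert, Finset.mem_singleton]
      omega
  · exact ⟨∅, by simp, by simp, fun c hc d hd hcd hx => absurd ⟨c, hc, d, hd, hcd, hx⟩ h⟩

theorem Cv.mono {k k' a b l r} (h : Cv G H p k a b l r) (hk : k ≤ k') : Cv G H p k' a b l r :=
  let ⟨X, h1, h2⟩ := h
  ⟨X, h1.trans hk, h2⟩

theorem cv_empty {a b l r} (h : b ≤ a) : Cv G H p 0 a b l r :=
  ⟨∅, by simp, by simp, fun x _ y _ _ h1 h2 => by omega⟩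

theorem cv_union {k1 k2 l m r} (h1 : Cv G H p k1 l m l m) (h2 : Cv G H p k2 m r m r)
    (hlm : l ≤ m) (hmr : m ≤ r) : Cv G H p (k1 + k2) l r l r := by
  obtain ⟨X, a1, a2, a3⟩ := h1
  obtain ⟨Y, b1, b2, b3⟩ := h2
  refine ⟨X ∪ Y, (Finset.card_union_le _ _).trans (add_le_add a1 b1), Finset.union_subset a2 b2,
    fun x hx y hy hxy c1 c2 c3 => ?_⟩
  simp only [Finset.mem_union]
  by_cases h : p x < m
  · have := a3 x hx y hy hxy c1 h (by omega); tauto
  · have := b3 x hx y hy hxy (by omega) c2 (by omega); tauto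

theorem card_at_le (hp : Set.InjOn p H) (b : ℕ) : (H.filter fun x => p x = b).card ≤ 1 := by
  rw [Finset.card_le_one]
  intro x hx y hy
  rw [Finset.mem_filter] at hx hy
  exact hp hx.1 hy.1 (hx.2.trans hy.2.symm)

theorem cv_succ (hp : Set.InjOn p H) {k a b l r} (h : Cv G H p k a b l r) :
    Cv G H p (k + 1) a (b + 1) l r := by
  obtain ⟨X, a1, a2, a3⟩ := h
  refine ⟨X ∪ H.filter fun x => p x = b,
    (Finset.card_union_le _ _).trans (add_le_add a1 (card_at_le hp b)),
    Finset.union_subset a2 (Finset.filter_subset _ _), fun x hx y hy hxy c1 c2 c3 => ?_⟩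
  simp only [Finset.mem_union, Finset.mem_filter]
  by_cases h : p x = b
  · tauto
  · have := a3 x hx y hy hxy c1 (by omega) c3; tauto

theorem num_hub {l t r N o o' x y : ℕ} (hx : l ≤ x) (hx' : x < t) (hy : t ≤ y) (hy' : y < r)
    (ho : o < l ∨ r ≤ o) (ho' : o' < l ∨ r ≤ o') (hN : o < N) (hN' : o' < N) (hne : o ≠ o')
    (h : (if o < l then o + N else o) ≤ (if o' < l then o' + N else o')) : Il o x o' y := by
  unfold Il
  split_ifs at h <;> omega

theorem cv_split (hp : Set.InjOn p H) (hv : NoInd G H p) {c l t r} (h : Cv G H p c l r l r)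
    (hlt : l ≤ t) (htr : t ≤ r) :
    ∃ α β, α + β ≤ c + 6 ∧ Cv G H p α l t l r ∧ Cv G H p β t r l r := by
  obtain ⟨X, a1, a2, a3⟩ := h
  obtain ⟨N, hN⟩ := exists_bound H p
  let out : ℕ → Prop := fun o => p o < l ∨ r ≤ p o
  let nP : ℕ → Prop := fun o => ∃ x ∈ H, G.Adj x o ∧ l ≤ p x ∧ p x < t
  let nQ : ℕ → Prop := fun o => ∃ x ∈ H, G.Adj x o ∧ t ≤ p x ∧ p x < r
  let D := X.filter fun o => out o ∧ nP o ∧ nQ o
  let XP := X.filter fun o => (l ≤ p o ∧ p o < t) ∨ (out o ∧ nP o ∧ ¬ nQ o)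
  let XQ := X.filter fun o => (t ≤ p o ∧ p o < r) ∨ (out o ∧ ¬ nP o ∧ nQ o)
  have hcard : XP.card + XQ.card ≤ X.card := by
    rw [← Finset.card_union_of_disjoint]
    · exact Finset.card_le_card (Finset.union_subset (Finset.filter_subset _ _)
        (Finset.filter_subset _ _))
    · rw [Finset.disjoint_left]
      intro o h1 h2
      have h1 := (Finset.mem_filter.1 h1).2
      have h2 := (Finset.mem_filter.1 h2).2
      simp only [out] at h1 h2
      rcases h1 with h1 | h1 <;> rcases h2 with h2 | h2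
      · omega
      · have := h2.1; omega
      · have := h1.1; omega
      · exact h2.2.1 h1.2.1
  have hD : ∃ YP YQ : Finset ℕ, YP.card ≤ 3 ∧ YQ.card ≤ 3 ∧ YP ⊆ H ∧ YQ ⊆ H ∧
      (∀ o ∈ D, ∀ x ∈ H, G.Adj x o → l ≤ p x → p x < t → x ∈ YP ∨ o ∈ YP) ∧
      (∀ o ∈ D, ∀ x ∈ H, G.Adj x o → t ≤ p x → p x < r → x ∈ YQ ∨ o ∈ YQ) := by
    rcases D.eq_empty_or_nonempty with he | hne
    · exact ⟨∅, ∅, by simp, by simp, by simp, by simp, by simp [he], by simp [he]⟩
    · obtain ⟨o1, m1, k1⟩ := Finset.exists_min_image D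
        (fun o => if p o < l then p o + N else p o) hne
      obtain ⟨o2, m2, k2⟩ := Finset.exists_max_image D
        (fun o => if p o < l then p o + N else p o) hne
      obtain ⟨x1, out1, ⟨y1, hy1, b1, b2, b3⟩, -⟩ := Finset.mem_filter.1 m1
      obtain ⟨x2, out2, -, ⟨y2, hy2, c1, c2, c3⟩⟩ := Finset.mem_filter.1 m2
      obtain ⟨Y1, d1, d2, d3⟩ := fan hv (a2 x1) hy1 b1.symm
      obtain ⟨Y2, e1, e2, e3⟩ := fan hv (a2 x2) hy2 c1.symm
      refine ⟨insert o2 Y2, insert o1 Y1, (Finset.card_insert_le _ _).trans (by omega),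
        (Finset.card_insert_le _ _).trans (by omega), Finset.insert_subset (a2 x2) e2,
        Finset.insert_subset (a2 x1) d2, fun o ho x hx hxo f1 f2 => ?_,
        fun o ho x hx hxo f1 f2 => ?_⟩
      · obtain ⟨xo, outo, -⟩ := Finset.mem_filter.1 ho
        by_cases h : o = o2
        · exact Or.inr (h ▸ Finset.mem_insert_self _ _)
        · have hc : Cr p o x o2 y2 := num_hub f1 f2 c2 c3 outo out2 (hN _ (a2 xo)) (hN _ (a2 x2))
            (fun e => h (hp (a2 xo) (a2 x2) e)) (k2 o ho)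
          exact (e3 x hx o (a2 xo) hxo hc.symm.swap_right).imp Finset.mem_insert_of_mem
            Finset.mem_insert_of_mem
      · obtain ⟨xo, outo, -⟩ := Finset.mem_filter.1 ho
        by_cases h : o = o1
        · exact Or.inr (h ▸ Finset.mem_insert_self _ _)
        · have hc : Cr p o1 y1 o x := num_hub b2 b3 f1 f2 out1 outo (hN _ (a2 x1)) (hN _ (a2 xo))
            (fun e => h (hp (a2 xo) (a2 x1) e.symm)) (k1 o ho)
          exact (d3 x hx o (a2 xo) hxo hc.swap_right).imp Finset.mem_insert_of_mem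
            Finset.mem_insert_of_mem
  obtain ⟨YP, YQ, g1, g2, g3, g4, g5, g6⟩ := hD
  refine ⟨XP.card + 3, XQ.card + 3, by omega,
    ⟨XP ∪ YP, (Finset.card_union_le _ _).trans (by omega),
      Finset.union_subset ((Finset.filter_subset _ _).trans a2) g3, fun x hx y hy hxy f1 f2 f3 => ?_⟩,
    ⟨XQ ∪ YQ, (Finset.card_union_le _ _).trans (by omega),
      Finset.union_subset ((Finset.filter_subset _ _).trans a2) g4, fun x hx y hy hxy f1 f2 f3 => ?_⟩⟩
  · rcases a3 x hx y hy hxy f1 (by omega) f3 with h | h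
    · exact Or.inl (Finset.mem_union_left _ (Finset.mem_filter.2 ⟨h, Or.inl ⟨f1, f2⟩⟩))
    · have h1 : nP y := ⟨x, hx, hxy, f1, f2⟩
      by_cases h2 : nQ y
      · exact (g5 y (Finset.mem_filter.2 ⟨h, f3, h1, h2⟩) x hx hxy f1 f2).imp
          (Finset.mem_union_right _) (Finset.mem_union_right _)
      · exact Or.inr (Finset.mem_union_left _ (Finset.mem_filter.2 ⟨h, Or.inr ⟨f3, h1, h2⟩⟩))
  · rcases a3 x hx y hy hxy (by omega) f2 f3 with h | h
    · exact Or.inl (Finset.mem_union_left _ (Finset.mem_filter.2 ⟨h, Or.inl ⟨f1, f2⟩⟩))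
    · have h1 : nQ y := ⟨x, hx, hxy, f1, f2⟩
      by_cases h2 : nP y
      · exact (g6 y (Finset.mem_filter.2 ⟨h, f3, h2, h1⟩) x hx hxy f1 f2).imp
          (Finset.mem_union_right _) (Finset.mem_union_right _)
      · exact Or.inr (Finset.mem_union_left _ (Finset.mem_filter.2 ⟨h, Or.inr ⟨f3, h2, h1⟩⟩))

theorem exists_gap (hp : Set.InjOn p H) (hv : NoInd G H p) {l r} (h : Cv G H p 14 l r l r)
    (hlr : l + 2 ≤ r) : ∃ t, l < t ∧ t < r ∧ Cv G H p 9 l t l r ∧ Cv G H p 11 t r l r := by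
  by_cases h1 : Cv G H p 8 l (r - 1) l r
  · refine ⟨r - 1, by omega, by omega, h1.mono (by omega), ?_⟩
    have := cv_succ hp (cv_empty (G := G) (H := H) (p := p) (l := l) (r := r) (le_refl (r - 1)))
    rw [show r - 1 + 1 = r by omega] at this
    exact this.mono (by omega)
  · have hex : ∃ t, ¬ Cv G H p 8 l t l r := ⟨_, h1⟩
    have h2 := Nat.find_spec hex
    have h3 : Nat.find hex ≤ r - 1 := Nat.find_min' hex h1
    have h4 : l < Nat.find hex := by
      by_contra hc
      exact h2 ((cv_empty (by omega)).mono (by omega))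
    have h5 : Cv G H p 8 l (Nat.find hex - 1) l r := by
      by_contra hc
      have := Nat.find_min' hex hc
      omega
    have h6 := cv_succ hp h5
    rw [show Nat.find hex - 1 + 1 = Nat.find hex by omega] at h6
    obtain ⟨α, β, k1, k2, k3⟩ := cv_split hp hv h h4.le (show Nat.find hex ≤ r by omega)
    have : 9 ≤ α := by
      by_contra hc
      exact h2 (k2.mono (by omega))
    exact ⟨_, h4, by omega, h6, k3.mono (by omega)⟩

theorem exists_pieces (hp : Set.InjOn p H) (hv : NoInd G H p) {l r} (h : Cv G H p 14 l r l r)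
    (hlr : l + 2 ≤ r) :
    (∃ t, l < t ∧ t < r ∧ Cv G H p 14 l t l t ∧ Cv G H p 14 t r t r) ∨
    (∃ s t, l ≤ s ∧ s < t ∧ t < r ∧ Cv G H p 14 l s l s ∧ Cv G H p 14 (s + 1) t (s + 1) t ∧
      Cv G H p 14 (t + 1) r (t + 1) r) := by
  obtain ⟨t, t1, t2, ⟨X, a1, a2, a3⟩, ⟨X', b1, b2, b3⟩⟩ := exists_gap hp hv h hlr
  let P := H.filter fun x => l ≤ p x ∧ p x < t ∧ ∃ y ∈ H, G.Adj x y ∧ t ≤ p y ∧ p y < r
  rcases P.eq_empty_or_nonempty with he | hne
  · have hn : ∀ x ∈ H, ∀ y ∈ H, G.Adj x y → l ≤ p x → p x < t → t ≤ p y → r ≤ p y := by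
      intro x hx y hy hxy c1 c2 c3
      by_contra hc
      have : x ∈ P := Finset.mem_filter.2 ⟨hx, c1, c2, y, hy, hxy, c3, by omega⟩
      simp [he] at this
    refine Or.inl ⟨t, t1, t2, ⟨X, by omega, a2, fun x hx y hy hxy c1 c2 c3 => ?_⟩,
      ⟨X', by omega, b2, fun x hx y hy hxy c1 c2 c3 => ?_⟩⟩
    · have := hn x hx y hy hxy c1 c2
      exact a3 x hx y hy hxy c1 c2 (by omega)
    · have := hn y hy x hx hxy.symm
      exact b3 x hx y hy hxy c1 c2 (by omega)
  · obtain ⟨x0, m0, k0⟩ := Finset.exists_min_image P p hne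
    obtain ⟨hx0, c1, c2, y1, hy1, c3⟩ := Finset.mem_filter.1 m0
    obtain ⟨y0, m1, k1⟩ := Finset.exists_max_image
      (H.filter fun y => G.Adj x0 y ∧ t ≤ p y ∧ p y < r) p ⟨y1, Finset.mem_filter.2 ⟨hy1, c3⟩⟩
    obtain ⟨hy0, d1, d2, d3⟩ := Finset.mem_filter.1 m1
    obtain ⟨Y, e1, e2, e3⟩ := fan hv hx0 hy0 d1
    have hmin : ∀ x ∈ H, ∀ y ∈ H, G.Adj x y → l ≤ p x → p x < p x0 → t ≤ p y → r ≤ p y := by
      intro x hx y hy hxy f1 f2 f3
      by_contra hc
      have := k0 x (Finset.mem_filter.2 ⟨hx, f1, by omega, y, hy, hxy, f3, by omega⟩)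
      omega
    have i0 : ∀ y ∈ H, p y = p x0 → y = x0 := fun y hy e => hp hy hx0 e
    have i1 : ∀ y ∈ H, p y = p y0 → y = y0 := fun y hy e => hp hy hy0 e
    refine Or.inr ⟨p x0, p y0, c1, by omega, d3,
      ⟨insert x0 (X ∪ Y), (Finset.card_insert_le _ _).trans
        (by have := Finset.card_union_le X Y; omega),
        Finset.insert_subset hx0 (Finset.union_subset a2 e2), fun x hx y hy hxy f1 f2 f3 => ?_⟩,
      ⟨insert x0 (insert y0 Y), (Finset.card_insert_le _ _).trans
        (by have := Finset.card_insert_le y0 Y; omega),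
        Finset.insert_subset hx0 (Finset.insert_subset hy0 e2), fun x hx y hy hxy f1 f2 f3 => ?_⟩,
      ⟨insert y0 (X' ∪ Y), (Finset.card_insert_le _ _).trans
        (by have := Finset.card_union_le X' Y; omega),
        Finset.insert_subset hy0 (Finset.union_subset b2 e2), fun x hx y hy hxy f1 f2 f3 => ?_⟩⟩
    · simp only [Finset.mem_insert, Finset.mem_union]
      by_cases g1 : p y < l ∨ r ≤ p y
      · have := a3 x hx y hy hxy f1 (by omega) g1; tauto
      · by_cases g2 : p y = p x0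
        · have := i0 y hy g2; tauto
        · have := hmin x hx y hy hxy f1 f2
          have := e3 x hx y hy hxy (by unfold Cr Il; omega)
          tauto
    · simp only [Finset.mem_insert]
      by_cases g2 : p y = p x0
      · have := i0 y hy g2; tauto
      · by_cases g3 : p y = p y0
        · have := i1 y hy g3; tauto
        · have := e3 x hx y hy hxy (by unfold Cr Il; omega)
          tauto
    · simp only [Finset.mem_insert, Finset.mem_union]
      by_cases g1 : p y < l ∨ r ≤ p y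
      · have := b3 x hx y hy hxy (by omega) f2 g1; tauto
      · by_cases g3 : p y = p y0
        · have := i1 y hy g3; tauto
        · have := hmin y hy x hx hxy.symm
          have g2 : p y ≠ p x0 := fun g2 => by
            have e := i0 y hy g2
            subst e
            have := k1 x (Finset.mem_filter.2 ⟨hx, hxy.symm, by omega, f2⟩)
            omega
          have := e3 x hx y hy hxy (by unfold Cr Il; omega)
          tauto

/-- Induction along the decomposition. -/
theorem decomp (hp : Set.InjOn p H) (hv : NoInd G H p) (l0 r0 : ℕ) (Q : ℕ → ℕ → Prop)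
    (h0 : ∀ t, Q t t) (h1 : ∀ t, l0 ≤ t → t < r0 → Q t (t + 1))
    (hm : ∀ l m r, l0 ≤ l → l ≤ m → m ≤ r → r ≤ r0 → Q l m → Q m r → Cv G H p 50 l r l r → Q l r) :
    ∀ n l r, r - l = n → l0 ≤ l → l ≤ r → r ≤ r0 → Cv G H p 14 l r l r → Q l r := by
  intro n
  induction n using Nat.strong_induction_on with
  | _ n ih =>
    intro l r hn a1 a2 a3 hc
    by_cases hlr : l + 2 ≤ r
    · have one : ∀ t, Cv G H p 1 t (t + 1) t (t + 1) := fun t => cv_succ hp (cv_empty le_rfl)
      rcases exists_pieces hp hv hc hlr with ⟨t, b1, b2, c1, c2⟩ | ⟨s, t, b1, b2, b3, c1, c2, c3⟩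
      · exact hm l t r a1 b1.le b2.le a3 (ih _ (by omega) l t rfl a1 b1.le (by omega) c1)
          (ih _ (by omega) t r rfl (by omega) b2.le a3 c2) (hc.mono (by omega))
      · have q1 := ih _ (by omega) l s rfl a1 b1 (by omega) c1
        have q2 := ih _ (by omega) (s + 1) t rfl (by omega) b2 (by omega) c2
        have q3 := ih _ (by omega) (t + 1) r rfl (by omega) b3 a3 c3
        have d1 := cv_union c1 (one s) b1 (by omega)
        have d2 := cv_union d1 c2 (by omega) b2
        have d3 := cv_union d2 (one t) (by omega) (by omega)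
        have r1 := hm l s (s + 1) a1 b1 (by omega) (by omega) q1 (h1 s (by omega) (by omega))
          (d1.mono (by omega))
        have r2 := hm l (s + 1) t a1 (by omega) b2 (by omega) r1 q2 (d2.mono (by omega))
        have r3 := hm l t (t + 1) a1 (by omega) (by omega) (by omega) r2
          (h1 t (by omega) (by omega)) (d3.mono (by omega))
        exact hm l (t + 1) r a1 (by omega) b3 a3 r3 q3 (hc.mono (by omega))
    · rcases (show r = l ∨ r = l + 1 by omega) with rfl | rfl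
      · exact h0 _
      · exact h1 l a1 (by omega)

end Pool.Agent.Lib.MP_f9c574_lc
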