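import Pool.Agent.Lib.MP_f9c574_lc.Lists
import Pool.Agent.Lib.MP_f9c574_lc.Decomp

/-!
The dynamic program over intervals with small cut cover.
-/

set_option linter.unusedVariables false

namespace Pool.Agent.Lib.MP_f9c574_lc

open Classical

variable (G : SimpleGraph ℕ)

/-- A cover vertex or a component after deleting the cover. -/
noncomputable def piece (K : Finset ℕ) (X : List ℕ) (z : ℕ) : Finset ℕ :=
  if z ∈ X then {z} else comp G (K \ X.toFinset) z

/-- Candidate table entries. -/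
noncomputable def cand (c b r : ℕ) (K : Finset ℕ) (HL : List ℕ) : List (Finset ℕ × List ℕ) :=
  (listsLe c HL).flatMap fun X => (listsLe b HL).flatMap fun Z => (listsLe r HL).map fun R =>
    (Z.toFinset.biUnion (piece G K X), R)

/-- The entry is justified by the table `T`. -/
def Ok (s t : ℕ) (K : Finset ℕ) (HL : List ℕ) (T : List (Finset ℕ × List ℕ))
    (e : Finset ℕ × List ℕ) : Prop :=
  (∀ x ∈ e.2, x ∈ e.1) ∧ e.1 ⊆ K ∧ ((∃ z ∈ e.1, e.1 = {z} ∧ e.2 = [z]) ∨
    ∃ e1 ∈ T, ∃ e2 ∈ T, e.1 = e1.1 ∪ e2.1 ∧ Disjoint e1.1 e2.1 ∧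
      ∀ B ∈ listsLe 6 HL, (∀ y ∈ B, ¬ y ∈ e.1) → VL G s t (e.2 ++ B) →
        VL G s t (e1.2 ++ e2.2 ++ B))

/-- One round of the dynamic program. -/
noncomputable def dpStep (c b r s t : ℕ) (K : Finset ℕ) (HL : List ℕ)
    (T : List (Finset ℕ × List ℕ)) : List (Finset ℕ × List ℕ) :=
  (cand G c b r K HL).filter fun e => decide (Ok G s t K HL T e)

/-- The table after `n` rounds. -/
noncomputable def table (c b r s t : ℕ) (K : Finset ℕ) (HL : List ℕ) (n : ℕ) :
    List (Finset ℕ × List ℕ) := (dpStep G c b r s t K HL)^[n] []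

/-- The dynamic program accepts. -/
def DP (c b r s t : ℕ) (K : Finset ℕ) (tl : List ℕ) : Prop :=
  ∃ e ∈ table G c b r s t K (K.sort (· ≤ ·) ++ tl) K.card, e.1 = K ∧ VL G s t (e.2 ++ tl)

/-- Meaning of a table entry. -/
def Ext (s t : ℕ) (K : Finset ℕ) (HL : List ℕ) (e : Finset ℕ × List ℕ) : Prop :=
  (∀ x ∈ e.2, x ∈ e.1) ∧ e.1 ⊆ K ∧ ∃ A : List ℕ, A.toFinset = e.1 ∧
    ∀ B : List ℕ, (∀ y ∈ B, y ∈ HL ∧ y ∉ e.1) → VL G s t (e.2 ++ B) → VL G s t (A ++ B)

variable {G}

theorem mem_table_succ {c b r s t K HL n e} : e ∈ table G c b r s t K HL (n + 1) ↔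
    e ∈ cand G c b r K HL ∧ Ok G s t K HL (table G c b r s t K HL n) e := by
  unfold table
  rw [Function.iterate_succ_apply', dpStep, List.mem_filter, decide_eq_true_eq]

theorem ext_of_ok {s t K HL T e} (hK : ∀ x ∈ K, x ∈ HL) (hT : ∀ e ∈ T, Ext G s t K HL e)
    (h : Ok G s t K HL T e) : Ext G s t K HL e := by
  obtain ⟨h1, h2, ⟨z, hz, h3, h4⟩ | ⟨e1, m1, e2, m2, h3, h4, h5⟩⟩ := h
  · exact ⟨h1, h2, [z], by simp [h3], fun B _ hv => h4 ▸ hv⟩
  · obtain ⟨a1, a2, A1, a3, a4⟩ := hT e1 m1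
    obtain ⟨b1, b2, A2, b3, b4⟩ := hT e2 m2
    refine ⟨h1, h2, A1 ++ A2, by rw [List.toFinset_append, a3, b3, h3], fun B hB hv => ?_⟩
    have hB1 : ∀ y ∈ B, y ∉ e1.1 := fun y hy h => (hB y hy).2 (h3 ▸ Finset.mem_union_left _ h)
    have hB2 : ∀ y ∈ B, y ∉ e2.1 := fun y hy h => (hB y hy).2 (h3 ▸ Finset.mem_union_right _ h)
    have hs : ∀ B', B'.Sublist B → B'.length ≤ 6 → VL G s t (e1.2 ++ e2.2 ++ B') :=
      fun B' hB' hl => h5 B' (mem_listsLe.2 ⟨hl, fun y hy => (hB y (hB'.subset hy)).1⟩)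
        (fun y hy => (hB y (hB'.subset hy)).2) (hv.sublist (hB'.append_left _))
    have hn : (e1.2 ++ e2.2 ++ B).Nodup := by
      refine List.nodup_append.2 ⟨by simpa using (hs [] (List.nil_sublist _) (by simp)).1,
        (List.nodup_append.1 hv.1).2.1, fun x hx y hy hxy => ?_⟩
      subst hxy
      rcases List.mem_append.1 hx with hx | hx
      · exact hB1 x hy (a1 x hx)
      · exact hB2 x hy (b1 x hx)
    have v1 := vl_of_small hn hs
    rw [List.append_assoc] at v1
    have v2 := a4 (e2.2 ++ B) (fun y hy => by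
      rcases List.mem_append.1 hy with hy | hy
      · exact ⟨hK y (b2 (b1 y hy)), fun h => Finset.disjoint_left.1 h4 h (b1 y hy)⟩
      · exact ⟨(hB y hy).1, hB1 y hy⟩) v1
    have v3 := v2.rot
    rw [List.append_assoc] at v3
    have v4 := b4 (B ++ A1) (fun y hy => by
      rcases List.mem_append.1 hy with hy | hy
      · exact ⟨(hB y hy).1, hB2 y hy⟩
      · have : y ∈ e1.1 := a3 ▸ List.mem_toFinset.2 hy
        exact ⟨hK y (a2 this), Finset.disjoint_left.1 h4 this⟩) v3
    rw [← List.append_assoc] at v4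
    have v5 := v4.rot
    rwa [← List.append_assoc] at v5

theorem ext_of_mem_table {c b r s t K HL} (hK : ∀ x ∈ K, x ∈ HL) (n : ℕ) :
    ∀ e ∈ table G c b r s t K HL n, Ext G s t K HL e := by
  induction n with
  | zero => simp [table]
  | succ n ih => exact fun e he => ext_of_ok hK ih (mem_table_succ.1 he).2

theorem dp_sound {c b r s t K tl} (htl : ∀ x ∈ tl, x ∉ K) (h : DP G c b r s t K tl) :
    ∃ A : List ℕ, A.toFinset = K ∧ VL G s t (A ++ tl) := by
  obtain ⟨e, he, h1, h2⟩ := h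
  obtain ⟨-, -, A, h3, h4⟩ := ext_of_mem_table (fun x hx => by simp [hx]) _ e he
  exact ⟨A, h3.trans h1, h4 tl (fun y hy => ⟨by simp [hy], h1 ▸ htl y hy⟩) h2⟩

theorem table_succ_mono {c b r s t K HL} (n : ℕ) :
    ∀ e ∈ table G c b r s t K HL n, e ∈ table G c b r s t K HL (n + 1) := by
  induction n with
  | zero => simp [table]
  | succ n ih =>
    intro e he
    rw [mem_table_succ] at he ⊢
    obtain ⟨h0, h1, h2, h3⟩ := he
    exact ⟨h0, h1, h2, h3.imp_right fun ⟨e1, m1, e2, m2, h⟩ => ⟨e1, ih e1 m1, e2, ih e2 m2, h⟩⟩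

theorem table_mono {c b r s t K HL} {m n : ℕ} (h : m ≤ n) :
    ∀ e ∈ table G c b r s t K HL m, e ∈ table G c b r s t K HL n := by
  induction h with
  | refl => exact fun e he => he
  | step _ ih => exact fun e he => table_succ_mono _ e (ih e he)

theorem mem_cand {c b r K HL} {X Z R : List ℕ} (hX : X ∈ listsLe c HL) (hZ : Z ∈ listsLe b HL)
    (hR : R ∈ listsLe r HL) : (Z.toFinset.biUnion (piece G K X), R) ∈ cand G c b r K HL := by
  simp only [cand, List.mem_flatMap, List.mem_map]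
  exact ⟨X, hX, Z, hZ, R, hR, rfl⟩

theorem exists_seeds {K S X : Finset ℕ} {b0 : ℕ} (hS : S ⊆ K)
    (hc : ∀ x ∈ S, ∀ y ∈ K, y ∉ S → G.Adj x y → x ∈ X ∨ y ∈ X)
    (hb : ((K \ X).image (comp G (K \ X))).card ≤ b0) :
    ∃ Z : Finset ℕ, Z ⊆ S ∧ Z.card ≤ X.card + b0 ∧ Z.biUnion (piece G K X.toList) = S := by
  let f := comp G (K \ X)
  have hinv : ∀ z ∈ S \ X, Function.invFunOn f (S \ X : Finset ℕ) (f z) ∈ S \ X ∧
      f (Function.invFunOn f (S \ X : Finset ℕ) (f z)) = f z := fun z hz =>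
    ⟨Function.invFunOn_apply_mem (s := ((S \ X : Finset ℕ) : Set ℕ)) hz,
      Function.invFunOn_apply_eq (s := ((S \ X : Finset ℕ) : Set ℕ)) hz⟩
  have hsub : S ∩ X ∪ ((S \ X).image f).image (Function.invFunOn f (S \ X : Finset ℕ)) ⊆ S := by
    intro z hz
    simp only [Finset.mem_union, Finset.mem_image] at hz
    rcases hz with hz | ⟨_, ⟨w, hw, rfl⟩, rfl⟩
    · exact (Finset.mem_inter.1 hz).1
    · exact (Finset.mem_sdiff.1 (hinv w hw).1).1
  refine ⟨_, hsub, (Finset.card_union_le _ _).trans (add_le_add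
    (Finset.card_le_card Finset.inter_subset_right) (Finset.card_image_le.trans
      ((Finset.card_le_card (Finset.image_subset_image
        (Finset.sdiff_subset_sdiff hS le_rfl))).trans hb))), ?_⟩
  ext y
  simp only [Finset.mem_biUnion, piece, Finset.mem_toList, Finset.toList_toFinset]
  constructor
  · rintro ⟨z, hz, hy⟩
    have hzS := hsub hz
    split_ifs at hy with h
    · exact Finset.mem_singleton.1 hy ▸ hzS
    · refine (Finset.mem_sdiff.1 (comp_subset_of_closed (S := S \ X) (fun a ha b hb hab => ?_)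
        (Finset.mem_sdiff.2 ⟨hzS, h⟩) hy)).1
      rw [Finset.mem_sdiff] at ha hb ⊢
      refine ⟨by_contra fun hn => ?_, hb.2⟩
      exact (hc a ha.1 b hb.1 hn hab).elim ha.2 hb.2
  · intro hy
    by_cases h : y ∈ X
    · exact ⟨y, Finset.mem_union_left _ (Finset.mem_inter.2 ⟨hy, h⟩), by simp [h]⟩
    · have hy' := Finset.mem_sdiff.2 ⟨hy, h⟩
      refine ⟨_, Finset.mem_union_right _ (Finset.mem_image_of_mem _
        (Finset.mem_image_of_mem f hy')), ?_⟩
      rw [if_neg (Finset.mem_sdiff.1 (hinv y hy').1).2]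
      have := (hinv y hy').2
      simp only [f] at this ⊢
      rw [this]
      exact self_mem_comp (Finset.mem_sdiff.2 ⟨hS hy, h⟩)

theorem mem_slice {L : List ℕ} (hn : L.Nodup) {l r x : ℕ} :
    x ∈ (L.take r).drop l ↔ x ∈ L ∧ l ≤ L.idxOf x ∧ L.idxOf x < r := by
  constructor
  · intro h
    obtain ⟨i, hi, rfl⟩ := List.getElem_of_mem h
    simp only [List.length_drop, List.length_take] at hi
    rw [List.getElem_drop, List.getElem_take]
    refine ⟨List.getElem_mem _, ?_⟩
    rw [hn.idxOf_getElem]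
    omega
  · rintro ⟨h1, h2, h3⟩
    have h4 := List.idxOf_lt_length_of_mem h1
    refine List.mem_iff_getElem.2 ⟨L.idxOf x - l, by simp; omega, ?_⟩
    rw [List.getElem_drop, List.getElem_take]
    simp only [show l + (L.idxOf x - l) = L.idxOf x by omega]
    exact List.getElem_idxOf h4

theorem slice_append (L : List ℕ) {l m r : ℕ} (h1 : l ≤ m) (h2 : m ≤ r) (h3 : r ≤ L.length) :
    (L.take m).drop l ++ (L.take r).drop m = (L.take r).drop l := by
  have e : L.take m = (L.take r).take m := by rw [List.take_take, min_eq_left h2]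
  conv_rhs => rw [← List.take_append_drop m (L.take r), ← e]
  rw [List.drop_append_of_le_length (by simp; omega)]

theorem dp_complete : ∃ r, ∀ (G : SimpleGraph ℕ) (b0 s t : ℕ) (A tl : List ℕ), A ≠ [] →
    tl.length ≤ 14 → s ∉ A → t ∉ A → VL G s t (A ++ tl) →
    (∀ X : Finset ℕ, X.card ≤ 50 →
      ((A.toFinset \ X).image (comp G (A.toFinset \ X))).card ≤ b0) →
    DP G 50 (50 + b0) r s t A.toFinset tl := by
  obtain ⟨r, hr1, hr⟩ := exists_rep 50
  refine ⟨r, fun G b0 s t A tl hA htl hs ht hv hb => ?_⟩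
  set L := A ++ tl with hL
  set K := A.toFinset with hK
  set HL := K.sort (· ≤ ·) ++ tl with hHL
  have hHL' : ∀ x, x ∈ HL ↔ x ∈ L := fun x => by simp [hHL, hL, hK]
  have hn := hv.1
  have hAL : A.length ≤ L.length := by simp [hL]
  have hAn : A.Nodup := (List.nodup_append.1 hn).1
  have hp : Set.InjOn (fun x => L.idxOf x) L.toFinset := fun x hx y hy h =>
    idx_injOn L (List.mem_toFinset.1 hx) (List.mem_toFinset.1 hy) h
  have hA' : (L.take A.length).drop 0 = A := by simp [hL]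
  have inA : ∀ l r', r' ≤ A.length → ∀ x ∈ (L.take r').drop l, x ∈ A := fun l r' h x hx => by
    rw [← hA', mem_slice hn]
    rw [mem_slice hn] at hx
    exact ⟨hx.1, by omega⟩
  have sl : ∀ l r', ((L.take r').drop l).Sublist L := fun l r' =>
    (List.drop_sublist _ _).trans (List.take_sublist _ _)
  have key := decomp hp (vl_iff.1 hv).2.1 0 A.length
    (fun l r' => l = r' ∨ ∃ R : List ℕ, R.Sublist ((L.take r').drop l) ∧
      (((L.take r').drop l).toFinset, R) ∈ table G 50 (50 + b0) r s t K HL (r' - l))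
    (fun t => Or.inl rfl) ?_ ?_ _ 0 A.length rfl le_rfl (Nat.zero_le _) le_rfl ?_
  · rcases key with h | ⟨R, h1, h2⟩
    · exact absurd (List.length_eq_zero_iff.1 h.symm) hA
    · rw [hA'] at h1 h2
      refine ⟨(K, R), ?_, rfl, hv.sublist (h1.append_right _)⟩
      rw [hK, List.toFinset_card_of_nodup hAn]
      exact h2
  · intro i _ hi
    have e : (L.take (i + 1)).drop i = [L[i]] := by
      rw [List.take_add_one, List.drop_append_of_le_length (by simp; omega),
        List.drop_eq_nil_of_le (by simp), List.getElem?_eq_getElem (by omega)]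
      rfl
    have hz : L[i] ∈ A := inA i (i + 1) hi _ (by rw [e]; simp)
    have hz' : L[i] ∈ HL := (hHL' _).2 (List.getElem_mem _)
    refine Or.inr ⟨[L[i]], by rw [e], ?_⟩
    rw [e, show i + 1 - i = 0 + 1 by omega, mem_table_succ]
    have := mem_cand (G := G) (K := K) (c := 50) (b := 50 + b0) (r := r) (HL := HL) (X := [L[i]])
      (Z := [L[i]]) (R := [L[i]]) (mem_listsLe.2 ⟨by simp, by simpa using hz'⟩)
      (mem_listsLe.2 ⟨by simp; omega, by simpa using hz'⟩)
      (mem_listsLe.2 ⟨by simpa using hr1, by simpa using hz'⟩)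
    refine ⟨by simpa [piece] using this, by simp, by simpa [hK] using hz,
      Or.inl ⟨L[i], by simp, by simp, rfl⟩⟩
  · rintro l m r' - h1 h2 h3 (rfl | ⟨R1, a1, a2⟩) hq2 hc
    · exact hq2
    rcases hq2 with rfl | ⟨R2, b1, b2⟩
    · exact Or.inr ⟨R1, a1, a2⟩
    by_cases hlm : l = m
    · subst hlm; exact Or.inr ⟨R2, b1, b2⟩
    by_cases hmr : m = r'
    · subst hmr; exact Or.inr ⟨R1, a1, a2⟩
    obtain ⟨X, c1, c2, c3⟩ := hc
    have hcov : ∀ x ∈ (L.take r').drop l, ∀ y ∈ L.toFinset, y ∉ (L.take r').drop l → G.Adj x y →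
        x ∈ X ∨ y ∈ X := by
      intro x hx y hy hy' hxy
      rw [mem_slice hn] at hx hy'
      refine c3 x (List.mem_toFinset.2 hx.1) y hy hxy hx.2.1 hx.2.2 ?_
      have := List.mem_toFinset.1 hy
      simp only [this, true_and] at hy'
      simp only
      omega
    obtain ⟨R, d1, d2, d3⟩ := hr G s t L.toFinset X ((L.take r').drop l) c1 (hn.sublist (sl _ _))
      (fun h => hs (inA _ _ h3 _ h)) (fun h => ht (inA _ _ h3 _ h)) hcov
    have hSK : ((L.take r').drop l).toFinset ⊆ K := fun x hx =>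
      List.mem_toFinset.2 (inA _ _ h3 _ (List.mem_toFinset.1 hx))
    have hKL : ∀ x ∈ K, x ∈ L := fun x hx => List.mem_append_left _ (List.mem_toFinset.1 hx)
    obtain ⟨Z, e1, e2, e3⟩ := exists_seeds hSK (fun x hx y hy hy' hxy =>
      hcov x (List.mem_toFinset.1 hx) y (List.mem_toFinset.2 (hKL y hy))
        (fun h => hy' (List.mem_toFinset.2 h)) hxy) (hb X c1)
    have sa := slice_append L h1 h2 (h3.trans hAL)
    refine Or.inr ⟨R, d1, ?_⟩
    rw [show r' - l = (r' - l - 1) + 1 by omega, mem_table_succ]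
    have := mem_cand (G := G) (K := K) (c := 50) (b := 50 + b0) (r := r) (HL := HL)
      (X := X.toList) (Z := Z.toList) (R := R)
      (mem_listsLe.2 ⟨by simpa using c1, fun x hx =>
        (hHL' x).2 (List.mem_toFinset.1 (c2 (Finset.mem_toList.1 hx)))⟩)
      (mem_listsLe.2 ⟨by rw [Finset.length_toList]; omega, fun x hx =>
        (hHL' x).2 (hKL x (hSK (e1 (Finset.mem_toList.1 hx))))⟩)
      (mem_listsLe.2 ⟨d2, fun x hx => (hHL' x).2 ((sl _ _).subset (d1.subset hx))⟩)
    rw [Finset.toList_toFinset, e3] at this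
    refine ⟨this, fun x hx => List.mem_toFinset.2 (d1.subset hx), hSK, Or.inr
      ⟨_, table_mono (by omega) _ a2, _, table_mono (by omega) _ b2, ?_, ?_, ?_⟩⟩
    · simp only
      rw [← sa, List.toFinset_append]
    · simp only [Finset.disjoint_left, List.mem_toFinset, mem_slice hn]
      omega
    · intro B hB hB' hvB
      have := d3 B (fun y hy => ⟨List.mem_toFinset.2 ((hHL' y).1 ((mem_listsLe.1 hB).2 y hy)),
        fun h => hB' y hy (List.mem_toFinset.2 h)⟩) hvB
      rw [← sa] at this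
      exact this.sublist ((a1.append b1).append_right _)
  · refine ⟨tl.toFinset, (List.toFinset_card_le _).trans htl, fun x hx => ?_,
      fun x hx y hy hxy _ _ h => Or.inr ?_⟩
    · exact List.mem_toFinset.2 (List.mem_append_right _ (List.mem_toFinset.1 hx))
    · have hy' := List.mem_toFinset.1 hy
      refine List.mem_toFinset.2 ((List.mem_append.1 hy').resolve_left fun hyA => ?_)
      rw [← hA', mem_slice hn] at hyA
      simp only at h
      omega

end Pool.Agent.Lib.MP_f9c574_lc
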