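import Mathlib

/-!
Definitions used in the statement.
-/

namespace Pool.Agent.Lib.MP_f9c574_lc

open Filter Topology unitInterval

/-- The graph given by adjacency lists: vertices `0, …, n - 1`, where `n` is the number of lists,
and distinct `i, j` are adjacent when `j` occurs in list `i` or `i` occurs in list `j`. -/
def graphOf (A : List (List ℕ)) : SimpleGraph (Fin A.length) :=
  SimpleGraph.fromRel fun i j => (j : ℕ) ∈ A.get i

/-- The chart `φ` is defined around all inner points of the arc `γ` and straightens it: in the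
chart, `γ` is the horizontal axis. The two sides of `γ` are the signs of the second coordinate. -/
def Straightens (φ : OpenPartialHomeomorph (ℝ × ℝ) (ℝ × ℝ)) (γ : C(I, ℝ × ℝ)) : Prop :=
  (∀ t, t ≠ 0 → t ≠ 1 → γ t ∈ φ.source) ∧ ∀ p ∈ φ.source, (p ∈ Set.range γ ↔ (φ p).2 = 0)

/-- `h` changes sign at `t` from positive to negative. -/
def PosToNeg (h : I → ℝ) (t : I) : Prop :=
  (∀ᶠ s in 𝓝[<] t, 0 < h s) ∧ ∀ᶠ s in 𝓝[>] t, h s < 0

/-- A drawing: distinct points for the vertices and a simple arc for each edge (one
parametrisation for each orientation). No edge passes through a vertex; two different edges meet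
only at a vertex (so a common endpoint) or at a proper crossing, where one passes from one side of
the other to the other side; no three edges cross at one point. -/
structure Drawing {V : Type} (G : SimpleGraph V) where
  pos : V → ℝ × ℝ
  arc : G.Dart → C(I, ℝ × ℝ)
  pos_inj : Function.Injective pos
  arc_inj : ∀ e, Function.Injective (arc e)
  arc_zero : ∀ e, arc e 0 = pos e.fst
  arc_one : ∀ e, arc e 1 = pos e.snd
  arc_symm : ∀ e t, arc e.symm t = arc e (σ t)
  avoid : ∀ e t v, arc e t = pos v → t = 0 ∨ t = 1
  proper : ∀ e f s t, e.edge ≠ f.edge → arc e s = arc f t → arc e s ∈ Set.range pos ∨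
    ∃ φ, Straightens φ (arc e) ∧
      (PosToNeg (fun r => (φ (arc f r)).2) t ∨ PosToNeg (fun r => -(φ (arc f r)).2) t)
  triple : ∀ e f g r s t, e.edge ≠ f.edge → e.edge ≠ g.edge → f.edge ≠ g.edge →
    arc e r = arc f s → arc e r = arc g t → arc e r ∈ Set.range pos

namespace Drawing

variable {V : Type} {G : SimpleGraph V} (D : Drawing G)

/-- The edge `e` is crossed by the edge `f` at time `t` of `f`. -/
def CrossAt (e f : G.Dart) (t : I) : Prop :=
  e.edge ≠ f.edge ∧ D.arc f t ∈ Set.range (D.arc e) ∧ D.arc f t ∉ Set.range D.pos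

/-- Configuration (I): an edge crossed by two edges without common endpoint. -/
def ConfI : Prop :=
  ∃ e f g s t, D.CrossAt e f s ∧ D.CrossAt e g t ∧
    f.fst ≠ g.fst ∧ f.fst ≠ g.snd ∧ f.snd ≠ g.fst ∧ f.snd ≠ g.snd

/-- Configuration (II): an edge crossed from opposite sides by two edges leaving a common vertex. -/
def ConfII : Prop :=
  ∃ e f g s t φ, D.CrossAt e f s ∧ D.CrossAt e g t ∧ f.fst = g.fst ∧ f.snd ≠ g.snd ∧
    Straightens φ (D.arc e) ∧ PosToNeg (fun r => (φ (D.arc f r)).2) s ∧
      PosToNeg (fun r => -(φ (D.arc g r)).2) t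

/-- The set of points covered by the drawing. -/
def trace : Set (ℝ × ℝ) := Set.range D.pos ∪ ⋃ e, Set.range (D.arc e)

/-- Every vertex lies in the closure of the unbounded face. -/
def Outer : Prop :=
  ∃ q, ¬ Bornology.IsBounded (connectedComponentIn D.traceᶜ q) ∧
    ∀ v, D.pos v ∈ closure (connectedComponentIn D.traceᶜ q)

end Drawing

/-- The graph has a fan-planar drawing with all vertices on the unbounded face. -/
def OuterFanPlanar {V : Type} (G : SimpleGraph V) : Prop :=
  ∃ D : Drawing G, ¬ D.ConfI ∧ ¬ D.ConfII ∧ D.Outer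

end Pool.Agent.Lib.MP_f9c574_lc
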