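import Pool.Agent.Shared.Kuhn.Sperner

/-!
Interleaved boundary points of a region cut out of the half plane along grid cells.
-/

set_option linter.unusedVariables false

namespace Pool.Agent.Lib.MP_f9c574_lc

open Set Relation

/-- Two paths in the upper half plane with interleaved ends on the axis meet. -/
theorem half_plane {p1 p2 p3 p4 : ℝ × ℝ} (f : Path p1 p3) (g : Path p2 p4)
    (hf : ∀ t, 0 ≤ (f t).2) (hg : ∀ t, 0 ≤ (g t).2) (h1 : p1.2 = 0) (h2 : p2.2 = 0)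
    (h3 : p3.2 = 0) (h4 : p4.2 = 0) (h12 : p1.1 < p2.1) (h23 : p2.1 < p3.1) (h34 : p3.1 < p4.1) :
    ∃ s t, f s = g t := by
  let Y : ℝ × ℝ → ℝ := fun p => p.2 + (p.1 - p2.1) ^ 2
  let U : ℝ × ℝ → ℝ := fun p => 2 * (p4.1 - p2.1) * (p.1 - p2.1) - Y p
  have hY : Continuous Y := by fun_prop
  have hU : Continuous U := by fun_prop
  obtain ⟨M, hM⟩ : ∃ M : ℝ, ∀ p ∈ range f ∪ range g, |U p| ≤ M ∧ |Y p| ≤ M := by
    have hc : IsCompact (range f ∪ range g) :=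
      (isCompact_range f.continuous).union (isCompact_range g.continuous)
    obtain ⟨M1, k1⟩ := hc.exists_bound_of_continuousOn hU.continuousOn
    obtain ⟨M2, k2⟩ := hc.exists_bound_of_continuousOn hY.continuousOn
    exact ⟨max M1 M2, fun p hp => ⟨(k1 p hp).trans (le_max_left _ _),
      (k2 p hp).trans (le_max_right _ _)⟩⟩
  have hfm : ∀ s, f.extend s ∈ range f := fun s => f.extend_range ▸ mem_range_self s
  have hgm : ∀ s, g.extend s ∈ range g := fun s => g.extend_range ▸ mem_range_self s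
  have bf := fun s => hM _ (Or.inl (hfm s))
  have bg := fun s => hM _ (Or.inr (hgm s))
  have hM0 : 0 ≤ M := (abs_nonneg _).trans (bf 0).1
  let e : ℝ → ℝ := fun s => (2 * M + 1) * (min s 0 + max (s - 1) 0)
  have he : Continuous e := by fun_prop
  obtain ⟨x, -, hx⟩ := Pool.Agent.Shared.Kuhn.poincare_miranda (I := Fin 2)
    (a := fun _ => -1) (b := fun _ => 2) (fun _ => by norm_num)
    (fun x => ![U (f.extend (x 0)) + e (x 0) - U (g.extend (x 1)),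
      Y (g.extend (x 1)) + e (x 1) - Y (f.extend (x 0))])
    (Continuous.continuousOn (continuous_pi fun i => by
      fin_cases i
      · simp only [Fin.zero_eta, Matrix.cons_val_zero]; fun_prop
      · simp only [Fin.mk_one, Matrix.cons_val_one, Matrix.cons_val_zero]; fun_prop))
    (fun x _ i hi => by
      have k1 := abs_le.1 (bf (x 0)).1
      have k2 := abs_le.1 (bf (x 0)).2
      have k3 := abs_le.1 (bg (x 1)).1
      have k4 := abs_le.1 (bg (x 1)).2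
      have : e (x i) = -(2 * M + 1) := by rw [hi]; norm_num [e]
      fin_cases i
      · simp only [Fin.zero_eta, Matrix.cons_val_zero] at this ⊢; linarith
      · simp only [Fin.mk_one, Matrix.cons_val_one, Matrix.cons_val_zero] at this ⊢; linarith)
    (fun x _ i hi => by
      have k1 := abs_le.1 (bf (x 0)).1
      have k2 := abs_le.1 (bf (x 0)).2
      have k3 := abs_le.1 (bg (x 1)).1
      have k4 := abs_le.1 (bg (x 1)).2
      have : e (x i) = 2 * M + 1 := by rw [hi]; norm_num [e]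
      fin_cases i
      · simp only [Fin.zero_eta, Matrix.cons_val_zero] at this ⊢; linarith
      · simp only [Fin.mk_one, Matrix.cons_val_one, Matrix.cons_val_zero] at this ⊢; linarith)
  have e1 : U (f.extend (x 0)) + e (x 0) - U (g.extend (x 1)) = 0 := congrFun hx 0
  have e2 : Y (g.extend (x 1)) + e (x 1) - Y (f.extend (x 0)) = 0 := congrFun hx 1
  have cases : ∀ {a b : ℝ × ℝ} (f : Path a b) (s : ℝ), (e s < 0 ∧ f.extend s = a) ∨ e s = 0 ∨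
      (0 < e s ∧ f.extend s = b) := by
    intro a b f s
    rcases lt_or_ge s 0 with h | h
    · refine Or.inl ⟨?_, f.extend_of_le_zero h.le⟩
      simp only [e, min_eq_left h.le, max_eq_right (show s - 1 ≤ 0 by linarith)]
      nlinarith
    · rcases le_or_gt s 1 with h' | h'
      · refine Or.inr (Or.inl ?_)
        simp [e, min_eq_right h, max_eq_right (show s - 1 ≤ 0 by linarith)]
      · refine Or.inr (Or.inr ⟨?_, f.extend_of_one_le h'.le⟩)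
        simp only [e, min_eq_right h, max_eq_left (show 0 ≤ s - 1 by linarith)]
        nlinarith
  obtain ⟨s, hs⟩ := hfm (x 0)
  obtain ⟨t, ht⟩ := hgm (x 1)
  refine ⟨s, t, ?_⟩
  have a1 := hf s
  have a2 := hg t
  have c1 := cases f (x 0)
  have c2 := cases g (x 1)
  rw [← hs] at e1 e2 c1
  rw [← ht] at e1 e2 c2
  generalize f s = p at *
  generalize g t = q at *
  generalize e (x 0) = σ at *
  generalize e (x 1) = τ at *
  simp only [U, Y] at e1 e2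
  rcases c2 with ⟨c2, rfl⟩ | rfl | ⟨c2, rfl⟩
  · exfalso; nlinarith [sq_nonneg (p.1 - q.1)]
  · rcases c1 with ⟨c1, rfl⟩ | rfl | ⟨c1, rfl⟩
    · exfalso
      have : q.1 < p.1 := by nlinarith
      nlinarith
    · have : p.1 = q.1 := by nlinarith
      exact Prod.ext this (by rw [this] at e2; linarith)
    · exfalso
      have : p.1 < q.1 := by nlinarith
      nlinarith
  · exfalso
    rcases c1 with ⟨c1, rfl⟩ | rfl | ⟨c1, rfl⟩
    · nlinarith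
    · have h5 : (p.1 - q.1) ^ 2 ≤ 0 := by nlinarith
      have h6 : p.1 = q.1 := by nlinarith
      rw [h6] at e1 e2
      nlinarith
    · nlinarith

/-- The ports `B` of the region `R` are ordered by `κ` so that interleaved ports cannot be joined
by disjoint paths in `R`. -/
def Inv (R B : Set (ℝ × ℝ)) (κ : ℝ × ℝ → ℝ) : Prop :=
  InjOn κ B ∧ ∀ S T : Set (ℝ × ℝ), S ⊆ R → T ⊆ R → IsPathConnected S → IsPathConnected T →
    ∀ p1 p2 p3 p4, p1 ∈ B → p2 ∈ B → p3 ∈ B → p4 ∈ B → p1 ∈ S → p3 ∈ S → p2 ∈ T → p4 ∈ T →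
      κ p1 < κ p2 → κ p2 < κ p3 → κ p3 < κ p4 → (S ∩ T).Nonempty

theorem inv_base {R B : Set (ℝ × ℝ)} (hR : ∀ p ∈ R, 0 ≤ p.2) (hB : ∀ p ∈ B, p.2 = 0) :
    Inv R B Prod.fst := by
  refine ⟨fun p hp q hq h => Prod.ext h ((hB p hp).trans (hB q hq).symm),
    fun S T hS hT cS cT p1 p2 p3 p4 b1 b2 b3 b4 s1 s3 t2 t4 h12 h23 h34 => ?_⟩
  obtain ⟨f, hf⟩ := cS.joinedIn p1 s1 p3 s3
  obtain ⟨g, hg⟩ := cT.joinedIn p2 t2 p4 t4
  obtain ⟨s, t, h⟩ := half_plane f g (fun t => hR _ (hS (hf t))) (fun t => hR _ (hT (hg t)))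
    (hB _ b1) (hB _ b2) (hB _ b3) (hB _ b4) h12 h23 h34
  exact ⟨f s, hf s, h ▸ hg t⟩

theorem Inv.step {R B R' B' : Set (ℝ × ℝ)} {κ} (h : Inv R B κ) (hR : R' ⊆ R)
    (f : ℝ × ℝ → ℝ × ℝ) (seg : ℝ × ℝ → Set (ℝ × ℝ))
    (h1 : ∀ p ∈ B', f p ∈ B ∧ seg p ⊆ R ∧ IsPathConnected (seg p) ∧ p ∈ seg p ∧ f p ∈ seg p ∧
      ∀ q ∈ seg p, q ∈ R' → q = p)
    (h2 : ∀ p ∈ B', ∀ q ∈ B', (seg p ∩ seg q).Nonempty → p = q) : Inv R' B' (κ ∘ f) := by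
  refine ⟨fun p hp q hq e => h2 p hp q hq ⟨f p, (h1 p hp).2.2.2.2.1, ?_⟩,
    fun S T hS hT cS cT p1 p2 p3 p4 b1 b2 b3 b4 s1 s3 t2 t4 h12 h23 h34 => ?_⟩
  · rw [h.1 (h1 p hp).1 (h1 q hq).1 e]; exact (h1 q hq).2.2.2.2.1
  · obtain ⟨a1, a2, a3, a4, a5, a6⟩ := h1 p1 b1
    obtain ⟨c1, c2, c3, c4, c5, c6⟩ := h1 p2 b2
    obtain ⟨d1, d2, d3, d4, d5, d6⟩ := h1 p3 b3
    obtain ⟨e1, e2, e3, e4, e5, e6⟩ := h1 p4 b4
    obtain ⟨z, z1, z2⟩ := h.2 (S ∪ seg p1 ∪ seg p3) (T ∪ seg p2 ∪ seg p4)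
      (union_subset (union_subset (hS.trans hR) a2) d2)
      (union_subset (union_subset (hT.trans hR) c2) e2)
      ((cS.union a3 ⟨p1, s1, a4⟩).union d3 ⟨p3, Or.inl s3, d4⟩)
      ((cT.union c3 ⟨p2, t2, c4⟩).union e3 ⟨p4, Or.inl t4, e4⟩)
      _ _ _ _ a1 c1 d1 e1 (Or.inl (Or.inr a5)) (Or.inr d5) (Or.inl (Or.inr c5)) (Or.inr e5)
      h12 h23 h34
    have ne : ∀ {p q}, p ∈ B' → q ∈ B' → (κ ∘ f) p ≠ (κ ∘ f) q → z ∈ seg p → z ∉ seg q :=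
      fun hp hq hne k1 k2 => hne (h2 _ hp _ hq ⟨z, k1, k2⟩ ▸ rfl)
    rcases z1 with (z1 | z1) | z1 <;> rcases z2 with (z2 | z2) | z2
    · exact ⟨z, z1, z2⟩
    · exact ⟨z, z1, c6 z z2 (hS z1) ▸ t2⟩
    · exact ⟨z, z1, e6 z z2 (hS z1) ▸ t4⟩
    · exact ⟨z, a6 z z1 (hT z2) ▸ s1, z2⟩
    · exact absurd z2 (ne b1 b2 h12.ne z1)
    · exact absurd z2 (ne b1 b4 ((h12.trans h23).trans h34).ne z1)
    · exact ⟨z, d6 z z1 (hT z2) ▸ s3, z2⟩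
    · exact absurd z2 (ne b3 b2 h23.ne' z1)
    · exact absurd z2 (ne b3 b4 h34.ne z1)

/-- The closed unit grid cell. -/
def cell (c : ℤ × ℤ) : Set (ℝ × ℝ) :=
  {p | ((c.1 : ℝ) ≤ p.1 ∧ p.1 ≤ c.1 + 1) ∧ (c.2 : ℝ) ≤ p.2 ∧ p.2 ≤ c.2 + 1}

/-- Cells with a common side. -/
def Adj4 (c d : ℤ × ℤ) : Prop :=
  (c.1 = d.1 ∧ (c.2 = d.2 + 1 ∨ c.2 + 1 = d.2)) ∨ (c.2 = d.2 ∧ (c.1 = d.1 + 1 ∨ c.1 + 1 = d.1))

theorem Adj4.symm {c d} (h : Adj4 c d) : Adj4 d c := by unfold Adj4 at *; omega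

/-- The union of the cells not in `O`. -/
def Reg (O : Set (ℤ × ℤ)) : Set (ℝ × ℝ) := {p | ∃ c, c ∉ O ∧ p ∈ cell c}

/-- Points lying in exactly two cells, one in `O` and one not in `O`. -/
def Port (O : Set (ℤ × ℤ)) : Set (ℝ × ℝ) :=
  {p | ∃ c ∈ O, ∃ c', c' ∉ O ∧ p ∈ cell c ∧ p ∈ cell c' ∧ ∀ d, p ∈ cell d → d = c ∨ d = c'}

theorem convex_cell (c : ℤ × ℤ) : Convex ℝ (cell c) :=
  (convex_Icc (c.1 : ℝ) (c.1 + 1)).prod (convex_Icc (c.2 : ℝ) (c.2 + 1))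

theorem int_mid {k m : ℤ} {y : ℝ} (h1 : (k : ℝ) ≤ y) (h2 : y ≤ k + 1) (h3 : (m : ℝ) < y)
    (h4 : y < m + 1) : k = m := by
  have a : (k : ℝ) < m + 1 := by linarith
  have b : (m : ℝ) < k + 1 := by linarith
  have a' : k < m + 1 := by exact_mod_cast a
  have b' : m < k + 1 := by exact_mod_cast b
  omega

theorem perp {m : ℤ} {a μ : ℝ} (h1 : (m : ℝ) ≤ a) (h2 : a ≤ m + 1) (h3 : 0 < μ) (h4 : μ ≤ 1) :
    ((m : ℝ) ≤ m + 1 / 2 + μ * (a - (m + 1 / 2)) ∧ m + 1 / 2 + μ * (a - (m + 1 / 2)) ≤ m + 1) ∧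
    (μ < 1 → ∀ k : ℤ, (k : ℝ) ≤ m + 1 / 2 + μ * (a - (m + 1 / 2)) →
      m + 1 / 2 + μ * (a - (m + 1 / 2)) ≤ k + 1 → k = m) :=
  ⟨⟨by nlinarith, by nlinarith⟩, fun h k k1 k2 => int_mid k1 k2 (by nlinarith) (by nlinarith)⟩

theorem normal {m n : ℤ} {b : ℝ} (hn : n = m + 1 ∨ n + 1 = m) (h1 : (n : ℝ) ≤ b) (h2 : b ≤ n + 1)
    (h3 : ¬ ((m : ℝ) ≤ b ∧ b ≤ m + 1)) : ∃ l : ℝ, 0 < l ∧ l < 1 ∧
    ((m : ℝ) ≤ m + 1 / 2 + l * (b - (m + 1 / 2)) ∧ m + 1 / 2 + l * (b - (m + 1 / 2)) ≤ m + 1) ∧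
    ∀ μ, l ≤ μ → μ ≤ 1 →
      ((n : ℝ) ≤ m + 1 / 2 + μ * (b - (m + 1 / 2)) ∧ m + 1 / 2 + μ * (b - (m + 1 / 2)) ≤ n + 1) ∧
      (μ < 1 → ∀ k : ℤ, (k : ℝ) ≤ m + 1 / 2 + μ * (b - (m + 1 / 2)) →
        m + 1 / 2 + μ * (b - (m + 1 / 2)) ≤ k + 1 → k = n ∨ k = m) := by
  rcases hn with rfl | rfl
  · push_cast at *
    have h4 : (m : ℝ) + 1 < b := by
      by_contra h
      exact h3 ⟨by linarith, by linarith⟩
    have h5 : 0 < b - (m + 1 / 2) := by linarith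
    have h6 : 1 / 2 / (b - (m + 1 / 2)) * (b - (m + 1 / 2)) = 1 / 2 := div_mul_cancel₀ _ h5.ne'
    refine ⟨1 / 2 / (b - (m + 1 / 2)), by positivity, (div_lt_one h5).2 (by linarith),
      ⟨by linarith, by linarith⟩, fun μ k1 k2 => ?_⟩
    have h7 := mul_le_mul_of_nonneg_right k1 h5.le
    refine ⟨⟨by linarith, by nlinarith⟩, fun k3 k k4 k5 => ?_⟩
    have a : (k : ℝ) < m + 2 := by nlinarith
    have b : (m : ℝ) ≤ k := by linarith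
    have a' : k < m + 2 := by exact_mod_cast a
    have b' : m ≤ k := by exact_mod_cast b
    omega
  · push_cast at *
    have h4 : b < n + 1 := by
      by_contra h
      exact h3 ⟨by linarith, by linarith⟩
    have h5 : 0 < n + 1 + 1 / 2 - b := by linarith
    have h6 : 1 / 2 / (n + 1 + 1 / 2 - b) * (n + 1 + 1 / 2 - b) = 1 / 2 := div_mul_cancel₀ _ h5.ne'
    refine ⟨1 / 2 / (n + 1 + 1 / 2 - b), by positivity, (div_lt_one h5).2 (by linarith),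
      ⟨by linarith, by linarith⟩, fun μ k1 k2 => ?_⟩
    have h7 := mul_le_mul_of_nonneg_right k1 h5.le
    refine ⟨⟨by nlinarith, by linarith⟩, fun k3 k k4 k5 => ?_⟩
    have a : (k : ℝ) ≤ n + 1 := by linarith
    have b : (n : ℝ) < k + 1 := by nlinarith
    have a' : k ≤ n + 1 := by exact_mod_cast a
    have b' : n < k + 1 := by exact_mod_cast b
    omega

/-- Homothety centred at the centre of the cell `o`. -/
noncomputable def hom (o : ℤ × ℤ) (μ : ℝ) (p : ℝ × ℝ) : ℝ × ℝ :=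
  (o.1 + 1 / 2 + μ * (p.1 - (o.1 + 1 / 2)), o.2 + 1 / 2 + μ * (p.2 - (o.2 + 1 / 2)))

theorem ray {x o : ℤ × ℤ} (h : Adj4 x o) {p : ℝ × ℝ} (hx : p ∈ cell x) (ho : p ∉ cell o) :
    ∃ l : ℝ, 0 < l ∧ l < 1 ∧ hom o l p ∈ cell o ∧ ∀ μ, l ≤ μ → μ ≤ 1 → hom o μ p ∈ cell x ∧
      (μ < 1 → ∀ d, hom o μ p ∈ cell d → d = x ∨ d = o) := by
  obtain ⟨⟨a1, a2⟩, a3, a4⟩ := hx
  rcases h with ⟨h1, h2⟩ | ⟨h1, h2⟩
  · rw [h1] at a1 a2
    obtain ⟨l, l1, l2, l3, l4⟩ := normal h2 a3 a4 fun h => ho ⟨⟨a1, a2⟩, h⟩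
    refine ⟨l, l1, l2, ⟨(perp a1 a2 l1 l2.le).1, l3⟩, fun μ k1 k2 => ?_⟩
    have k3 := perp a1 a2 (l1.trans_le k1) k2
    refine ⟨⟨h1 ▸ k3.1, (l4 μ k1 k2).1⟩, fun k4 d hd => ?_⟩
    have k5 := k3.2 k4 d.1 hd.1.1 hd.1.2
    exact ((l4 μ k1 k2).2 k4 d.2 hd.2.1 hd.2.2).imp (Prod.ext (k5.trans h1.symm)) (Prod.ext k5)
  · rw [h1] at a3 a4
    obtain ⟨l, l1, l2, l3, l4⟩ := normal h2 a1 a2 fun h => ho ⟨h, a3, a4⟩
    refine ⟨l, l1, l2, ⟨l3, (perp a3 a4 l1 l2.le).1⟩, fun μ k1 k2 => ?_⟩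
    have k3 := perp a3 a4 (l1.trans_le k1) k2
    refine ⟨⟨(l4 μ k1 k2).1, h1 ▸ k3.1⟩, fun k4 d hd => ?_⟩
    have k5 := k3.2 k4 d.2 hd.2.1 hd.2.2
    exact ((l4 μ k1 k2).2 k4 d.1 hd.1.1 hd.1.2).imp (fun h => Prod.ext h (k5.trans h1.symm))
      (fun h => Prod.ext h k5)

theorem hom_one (o p) : hom o 1 p = p := by simp [hom]

theorem hom_div {o μ ν p q} (hν : ν ≠ 0) (h : hom o μ p = hom o ν q) : hom o (μ / ν) p = q := by
  simp only [hom, Prod.mk.injEq, add_right_inj] at h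
  refine Prod.ext ?_ ?_
  · simp only [hom]; rw [div_mul_eq_mul_div, h.1]; field_simp; ring
  · simp only [hom]; rw [div_mul_eq_mul_div, h.2]; field_simp; ring

theorem inv_insert {O : Set (ℤ × ℤ)} {κ} (h : Inv (Reg O) (Port O) κ) {x o : ℤ × ℤ} (ho : o ∈ O)
    (hx : x ∉ O) (hadj : Adj4 x o) : ∃ κ', Inv (Reg (insert x O)) (Port (insert x O)) κ' := by
  classical
  have hno : ∀ p ∈ Port (insert x O), p ∈ cell x → p ∉ cell o ∧
      ∃ c', c' ∉ insert x O ∧ p ∈ cell c' := by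
    rintro p ⟨c, hc, c', hc', k1, k2, k3⟩ hp
    refine ⟨fun h => ?_, c', hc', k2⟩
    have e1 := (k3 x hp).resolve_right fun e => hc' (e ▸ mem_insert _ _)
    have e2 := (k3 o h).resolve_right fun e => hc' (e ▸ mem_insert_of_mem _ ho)
    exact hx (e1 ▸ e2 ▸ ho)
  choose! l hl using fun p (hp : p ∈ cell x) (hp' : p ∉ cell o) => ray hadj hp hp'
  have out : ∀ d, d = x ∨ d = o → d ∈ insert x O := by
    rintro d (rfl | rfl)
    · exact mem_insert _ _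
    · exact mem_insert_of_mem _ ho
  have hRR : Reg (insert x O) ⊆ Reg O :=
    fun p ⟨c, hc, hp⟩ => ⟨c, fun h => hc (mem_insert_of_mem _ h), hp⟩
  have hPR : Port (insert x O) ⊆ Reg (insert x O) :=
    fun p ⟨c, hc, c', hc', k1, k2, k3⟩ => ⟨c', hc', k2⟩
  have segR : ∀ p ∈ Port (insert x O), p ∈ cell x → ∀ μ ∈ Icc (l p) 1,
      hom o μ p ∈ Reg (insert x O) → μ = 1 := by
    rintro p hp hpx μ hμ ⟨c, hc, hc'⟩
    by_contra hne
    exact hc (out c (((hl p hpx (hno p hp hpx).1).2.2.2 μ hμ.1 hμ.2).2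
      (lt_of_le_of_ne hμ.2 hne) c hc'))
  refine ⟨_, h.step hRR (fun p => if p ∈ cell x then hom o (l p) p else p)
    (fun p => if p ∈ cell x then (fun μ => hom o μ p) '' Icc (l p) 1 else {p}) ?_ ?_⟩
  · intro p hp
    by_cases hpx : p ∈ cell x
    · simp only [if_pos hpx]
      obtain ⟨k1, k2, k3, k4⟩ := hl p hpx (hno p hp hpx).1
      refine ⟨⟨o, ho, x, hx, k3, (k4 _ le_rfl k2.le).1, fun d hd =>
        ((k4 _ le_rfl k2.le).2 k2 d hd).symm⟩, ?_, ?_, ⟨1, ⟨k2.le, le_rfl⟩, hom_one _ _⟩,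
        ⟨_, ⟨le_rfl, k2.le⟩, rfl⟩, ?_⟩
      · rintro _ ⟨μ, hμ, rfl⟩
        exact ⟨x, hx, (k4 μ hμ.1 hμ.2).1⟩
      · exact ((convex_Icc _ _).isPathConnected (nonempty_Icc.2 k2.le)).image
          (by unfold hom; fun_prop)
      · rintro _ ⟨μ, hμ, rfl⟩ hq
        simp only [segR p hp hpx μ hμ hq, hom_one]
    · simp only [if_neg hpx]
      refine ⟨?_, by simpa using hRR (hPR hp), isPathConnected_singleton p, rfl, rfl,
        fun q hq _ => hq⟩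
      obtain ⟨c, hc, c', hc', k1, k2, k3⟩ := hp
      exact ⟨c, hc.resolve_left fun e => hpx (e ▸ k1), c', fun h => hc' (mem_insert_of_mem _ h),
        k1, k2, k3⟩
  · have key : ∀ p ∈ Port (insert x O), ∀ q ∈ Port (insert x O), p ∈ cell x → q ∈ cell x →
        ∀ μ ∈ Icc (l p) 1, ∀ ν ∈ Icc (l q) 1, μ ≤ ν → hom o μ p = hom o ν q → p = q := by
      intro p hp q hq hpx hqx μ hμ ν hν hle e
      have l1 := (hl p hpx (hno p hp hpx).1).1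
      have hν0 : 0 < ν := (l1.trans_le hμ.1).trans_le hle
      have e' := hom_div hν0.ne' e
      have := segR p hp hpx (μ / ν) ⟨hμ.1.trans ((le_div_iff₀ hν0).2 (by nlinarith [hμ.1, hν.2])),
        (div_le_one hν0).2 hle⟩ (e' ▸ hPR hq)
      rw [this, hom_one] at e'
      exact e'
    rintro p hp q hq ⟨z, z1, z2⟩
    by_cases hpx : p ∈ cell x <;> by_cases hqx : q ∈ cell x
    · simp only [if_pos hpx, if_pos hqx] at z1 z2
      obtain ⟨μ, hμ, rfl⟩ := z1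
      obtain ⟨ν, hν, e⟩ := z2
      rcases le_total μ ν with h | h
      · exact key p hp q hq hpx hqx μ hμ ν hν h e.symm
      · exact (key q hq p hp hqx hpx ν hν μ hμ h e).symm
    · simp only [if_pos hpx, if_neg hqx] at z1 z2
      obtain ⟨μ, hμ, rfl⟩ := z1
      exact absurd (z2 ▸ ((hl p hpx (hno p hp hpx).1).2.2.2 μ hμ.1 hμ.2).1) hqx
    · simp only [if_neg hpx, if_pos hqx] at z1 z2
      obtain ⟨μ, hμ, rfl⟩ := z2
      exact absurd (z1 ▸ ((hl q hqx (hno q hq hqx).1).2.2.2 μ hμ.1 hμ.2).1) hpx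
    · simp only [if_neg hpx, if_neg hqx] at z1 z2
      exact z1.symm.trans z2

/-- Moves between neighbouring cells inside `W`. -/
def Mv (W : Set (ℝ × ℝ)) (c d : ℤ × ℤ) : Prop := Adj4 c d ∧ cell c ⊆ W ∧ cell d ⊆ W

/-- The cell of a point. -/
noncomputable def fl (p : ℝ × ℝ) : ℤ × ℤ := (⌊p.1⌋, ⌊p.2⌋)

theorem mem_cell_fl (p : ℝ × ℝ) : p ∈ cell (fl p) :=
  ⟨⟨Int.floor_le _, (Int.lt_floor_add_one _).le⟩, Int.floor_le _, (Int.lt_floor_add_one _).le⟩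

theorem cell_subset_ball {p : ℝ × ℝ} {c : ℤ × ℤ} (h1 : c.1 ≤ ⌊p.1⌋ + 1) (h2 : ⌊p.1⌋ ≤ c.1 + 1)
    (h3 : c.2 ≤ ⌊p.2⌋ + 1) (h4 : ⌊p.2⌋ ≤ c.2 + 1) : cell c ⊆ Metric.closedBall p 2 := by
  rintro q ⟨⟨a1, a2⟩, a3, a4⟩
  have b1 : (c.1 : ℝ) ≤ ⌊p.1⌋ + 1 := by exact_mod_cast h1
  have b2 : (⌊p.1⌋ : ℝ) ≤ c.1 + 1 := by exact_mod_cast h2
  have b3 : (c.2 : ℝ) ≤ ⌊p.2⌋ + 1 := by exact_mod_cast h3
  have b4 : (⌊p.2⌋ : ℝ) ≤ c.2 + 1 := by exact_mod_cast h4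
  have := Int.floor_le p.1
  have := Int.lt_floor_add_one p.1
  have := Int.floor_le p.2
  have := Int.lt_floor_add_one p.2
  rw [Metric.mem_closedBall, Prod.dist_eq, max_le_iff, Real.dist_eq, Real.dist_eq, abs_le, abs_le]
  refine ⟨⟨?_, ?_⟩, ?_, ?_⟩ <;> linarith

theorem floor_near {a b : ℝ} (h : |a - b| < 1) : ⌊a⌋ ≤ ⌊b⌋ + 1 ∧ ⌊b⌋ ≤ ⌊a⌋ + 1 := by
  rw [abs_lt] at h
  exact ⟨by rw [← Int.floor_add_one]; exact Int.floor_le_floor (by linarith),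
    by rw [← Int.floor_add_one]; exact Int.floor_le_floor (by linarith)⟩

theorem mv_symm {W c d} (h : ReflTransGen (Mv W) c d) : ReflTransGen (Mv W) d c := by
  induction h with
  | refl => exact .refl
  | tail _ h2 ih => exact ReflTransGen.head ⟨h2.1.symm, h2.2.2, h2.2.1⟩ ih

theorem reach {s W : Set (ℝ × ℝ)} (hs : IsPreconnected s)
    (hW : ∀ p ∈ s, Metric.closedBall p 2 ⊆ W) {p q} (hp : p ∈ s) (hq : q ∈ s) :
    ReflTransGen (Mv W) (fl p) (fl q) := by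
  refine hs.induction₂' (fun p q => ReflTransGen (Mv W) (fl p) (fl q)) (fun p hp => ?_)
    (fun _ _ _ _ _ _ h1 h2 => h1.trans h2) hp hq
  filter_upwards [nhdsWithin_le_nhds (Metric.ball_mem_nhds p one_pos)] with q hq
  rw [Metric.mem_ball, Prod.dist_eq, max_lt_iff, Real.dist_eq, Real.dist_eq] at hq
  have a := floor_near hq.1
  have b := floor_near hq.2
  have w : ∀ c : ℤ × ℤ, c.1 ≤ ⌊p.1⌋ + 1 → ⌊p.1⌋ ≤ c.1 + 1 → c.2 ≤ ⌊p.2⌋ + 1 → ⌊p.2⌋ ≤ c.2 + 1 →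
      cell c ⊆ W := fun c h1 h2 h3 h4 => (cell_subset_ball h1 h2 h3 h4).trans (hW p hp)
  have w1 := w (fl p) (by simp [fl]) (by simp [fl]) (by simp [fl]) (by simp [fl])
  have w2 := w (⌊q.1⌋, ⌊p.2⌋) a.1 a.2 (by simp) (by simp)
  have w3 := w (fl q) a.1 a.2 b.1 b.2
  have m1 : ReflTransGen (Mv W) (fl p) (⌊q.1⌋, ⌊p.2⌋) := by
    by_cases e : ⌊p.1⌋ = ⌊q.1⌋
    · rw [← e]; exact .refl
    · exact .single ⟨Or.inr ⟨rfl, by simp only [fl]; omega⟩, w1, w2⟩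
  have m2 : ReflTransGen (Mv W) (⌊q.1⌋, ⌊p.2⌋) (fl q) := by
    by_cases e : ⌊p.2⌋ = ⌊q.2⌋
    · rw [e]; exact .refl
    · exact .single ⟨Or.inl ⟨rfl, by simp only [fl]; omega⟩, w2, w3⟩
  exact ⟨m1.trans m2, mv_symm (m1.trans m2)⟩

theorem grow {W : Set (ℝ × ℝ)} {O : Set (ℤ × ℤ)} (hO : ∀ c ∈ O, cell c ⊆ W)
    (h : ∃ κ, Inv (Reg O) (Port O) κ) {c d} (hc : c ∈ O) (hcd : ReflTransGen (Mv W) c d) :
    ∃ O', O ⊆ O' ∧ d ∈ O' ∧ (∀ c ∈ O', cell c ⊆ W) ∧ ∃ κ, Inv (Reg O') (Port O') κ := by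
  induction hcd with
  | refl => exact ⟨O, le_rfl, hc, hO, h⟩
  | @tail a b _ h2 ih =>
    obtain ⟨O', k1, k2, k3, κ, k4⟩ := ih
    by_cases hb : b ∈ O'
    · exact ⟨O', k1, hb, k3, κ, k4⟩
    · refine ⟨insert b O', k1.trans (subset_insert _ _), mem_insert _ _, ?_,
        inv_insert k4 k2 hb h2.1.symm⟩
      rintro c (rfl | hc)
      · exact h2.2.2
      · exact k3 c hc

theorem grow_all {W : Set (ℝ × ℝ)} (hW : ∀ p : ℝ × ℝ, p.2 ≤ 0 → p ∈ W) (Z : Finset (ℤ × ℤ))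
    (hZ : ∀ d ∈ Z, ∃ c : ℤ × ℤ, c.2 < 0 ∧ ReflTransGen (Mv W) c d) :
    ∃ O, {c : ℤ × ℤ | c.2 < 0} ⊆ O ∧ (∀ d ∈ Z, d ∈ O) ∧ (∀ c ∈ O, cell c ⊆ W) ∧
      ∃ κ, Inv (Reg O) (Port O) κ := by
  classical
  induction Z using Finset.induction_on with
  | empty =>
    refine ⟨_, le_rfl, by simp, fun c hc p hp => hW p ?_, _, inv_base ?_ ?_⟩
    · have : (c.2 : ℝ) + 1 ≤ 0 := by exact_mod_cast (show c.2 + 1 ≤ 0 from hc)
      linarith [hp.2.2]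
    · rintro p ⟨c, hc, hp⟩
      have : (0 : ℝ) ≤ c.2 := by exact_mod_cast not_lt.1 hc
      linarith [hp.2.1]
    · rintro p ⟨c, hc, c', hc', k1, k2, -⟩
      have : (c.2 : ℝ) + 1 ≤ 0 := by exact_mod_cast (show c.2 + 1 ≤ 0 from hc)
      have : (0 : ℝ) ≤ c'.2 := by exact_mod_cast not_lt.1 hc'
      linarith [k1.2.2, k2.2.1]
  | insert d Z _ ih =>
    obtain ⟨O, k1, k2, k3, k4⟩ := ih fun d hd => hZ d (Finset.mem_insert_of_mem hd)
    obtain ⟨c, hc, hcd⟩ := hZ d (Finset.mem_insert_self _ _)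
    obtain ⟨O', a1, a2, a3, a4⟩ := grow k3 k4 (k1 hc) hcd
    refine ⟨O', k1.trans a1, fun e he => ?_, a3, a4⟩
    rcases Finset.mem_insert.1 he with rfl | he
    · exact a2
    · exact a1 (k2 e he)

theorem exists_side {c d : ℤ × ℤ} (h : Adj4 c d) :
    ∃ y, y ∈ cell c ∧ y ∈ cell d ∧ ∀ e, y ∈ cell e → e = d ∨ e = c := by
  have hc : ((c.1 : ℝ) + 1 / 2, (c.2 : ℝ) + 1 / 2) ∈ cell c := by
    refine ⟨⟨?_, ?_⟩, ?_, ?_⟩ <;> simp only <;> linarith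
  have hd : ((c.1 : ℝ) + 1 / 2, (c.2 : ℝ) + 1 / 2) ∉ cell d := by
    rintro ⟨⟨a1, a2⟩, a3, a4⟩
    have := int_mid (m := c.1) a1 a2 (by simp) (by simp only; linarith)
    have := int_mid (m := c.2) a3 a4 (by simp) (by simp only; linarith)
    unfold Adj4 at h
    omega
  obtain ⟨l, l1, l2, l3, l4⟩ := ray h hc hd
  exact ⟨_, (l4 l le_rfl l2.le).1, l3, fun e he => ((l4 l le_rfl l2.le).2 l2 e he).symm⟩

theorem exit {D : Set (ℝ × ℝ)} {O : Set (ℤ × ℤ)} {c d} (hcd : ReflTransGen (Mv D) c d)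
    (hd : d ∈ O) (hc : c ∉ O) :
    ∃ S, IsPathConnected S ∧ cell c ⊆ S ∧ S ⊆ D ∧ S ⊆ Reg O ∧ ∃ y ∈ S, y ∈ Port O := by
  induction hcd using ReflTransGen.head_induction_on with
  | refl => exact absurd hd hc
  | @head a b h1 _ ih =>
    obtain ⟨y, y1, y2, y3⟩ := exists_side h1.1
    have pc : IsPathConnected (cell a) := (convex_cell a).isPathConnected ⟨y, y1⟩
    have hR : cell a ⊆ Reg O := fun p hp => ⟨a, hc, hp⟩
    by_cases hb : b ∈ O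
    · exact ⟨cell a, pc, le_rfl, h1.2.1, hR, y, y1, b, hb, a, hc, y2, y1, y3⟩
    · obtain ⟨S, k1, k2, k3, k4, z, k5, k6⟩ := ih hb
      exact ⟨cell a ∪ S, pc.union k1 ⟨y, y1, k2 y2⟩, subset_union_left, union_subset h1.2.1 k3,
        union_subset hR k4, z, Or.inr k5, k6⟩

/-- The order of accessible points, at unit scale. -/
theorem order_unit {V : Type} [Fintype V] {K : Set (ℝ × ℝ)} (hK : ∀ p ∈ K, 0 < p.2)
    (pos x z : V → ℝ × ℝ) (D s t : V → Set (ℝ × ℝ)) (hpos : ∀ v, pos v ∈ K)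
    (hs : ∀ v, IsPreconnected (s v) ∧ pos v ∈ s v ∧ x v ∈ s v ∧
      ∀ p ∈ s v, Metric.closedBall p 2 ⊆ D v)
    (ht : ∀ v, IsPreconnected (t v) ∧ z v ∈ t v ∧ x v ∈ t v ∧ (z v).2 < 0 ∧
      ∀ p ∈ t v, Metric.closedBall p 2 ⊆ Kᶜ)
    (hD : ∀ v w, (D v ∩ D w).Nonempty → v = w) :
    ∃ κ : V → ℝ, Function.Injective κ ∧ ∀ a b c d, ∀ P Q : Set (ℝ × ℝ), P ⊆ K → Q ⊆ K →
      IsPathConnected P → IsPathConnected Q → pos a ∈ P → pos b ∈ P → pos c ∈ Q → pos d ∈ Q →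
      κ a < κ c → κ c < κ b → κ b < κ d → ((P ∪ D a ∪ D b) ∩ (Q ∪ D c ∪ D d)).Nonempty := by
  classical
  obtain ⟨O, -, k2, k3, κ, k4⟩ := grow_all (W := Kᶜ) (fun p hp h => by linarith [hK p h])
    (Finset.univ.image fun v => fl (x v)) (fun d hd => by
      obtain ⟨v, -, rfl⟩ := Finset.mem_image.1 hd
      obtain ⟨a1, a2, a3, a4, a5⟩ := ht v
      exact ⟨fl (z v), Int.floor_lt.2 (by simpa using a4), reach a1 a5 a2 a3⟩)
  have hKR : ∀ p ∈ K, fl p ∉ O := fun p hp h => k3 _ h (mem_cell_fl p) hp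
  choose S h1 h2 h3 h4 y h5 h6 using fun v => exit (reach (hs v).1 (hs v).2.2.2 (hs v).2.1
    (hs v).2.2.1) (k2 _ (Finset.mem_image_of_mem _ (Finset.mem_univ v))) (hKR _ (hpos v))
  have hKR' : K ⊆ Reg O := fun p hp => ⟨_, hKR p hp, mem_cell_fl p⟩
  refine ⟨fun v => κ (y v), fun v w e => hD v w ⟨y v, h3 v (h5 v), ?_⟩,
    fun a b c d P Q hP hQ cP cQ pa pb pc pd l1 l2 l3 => ?_⟩
  · rw [k4.1 (h6 v) (h6 w) e]; exact h3 w (h5 w)
  · have m : ∀ v, pos v ∈ S v := fun v => h2 v (mem_cell_fl _)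
    refine (k4.2 (P ∪ S a ∪ S b) (Q ∪ S c ∪ S d)
      (union_subset (union_subset (hP.trans hKR') (h4 a)) (h4 b))
      (union_subset (union_subset (hQ.trans hKR') (h4 c)) (h4 d))
      ((cP.union (h1 a) ⟨_, pa, m a⟩).union (h1 b) ⟨_, Or.inl pb, m b⟩)
      ((cQ.union (h1 c) ⟨_, pc, m c⟩).union (h1 d) ⟨_, Or.inl pd, m d⟩)
      _ _ _ _ (h6 a) (h6 c) (h6 b) (h6 d) (Or.inl (Or.inr (h5 a))) (Or.inr (h5 b))
      (Or.inl (Or.inr (h5 c))) (Or.inr (h5 d)) l1 l2 l3).mono ?_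
    exact inter_subset_inter (union_subset_union (union_subset_union_right _ (h3 a)) (h3 b))
      (union_subset_union (union_subset_union_right _ (h3 c)) (h3 d))

end Pool.Agent.Lib.MP_f9c574_lc
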