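import Pool.Agent.Lib.MP_f9c574_lc.Struct

/-!
Inserting blocks into a valid order.
-/

set_option linter.unusedVariables false

namespace Pool.Agent.Lib.MP_f9c574_lc

open Classical

variable {G : SimpleGraph ℕ}

theorem exists_merge {U C : Finset ℕ} {p r : ℕ → ℕ} (hp : Set.InjOn p U) (hr : Set.InjOn r C)
    (hd : ∀ x ∈ C, x ∉ U) (g : ℕ) :
    ∃ q : ℕ → ℕ, Set.InjOn q (U ∪ C : Finset ℕ) ∧ (∀ a ∈ U, ∀ b ∈ U, (q a < q b ↔ p a < p b)) ∧
      (∀ a ∈ C, ∀ b ∈ C, (q a < q b ↔ r a < r b)) ∧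
      (∀ a ∈ U, ∀ x ∈ C, (q a < q x ↔ p a < g) ∧ (q x < q a ↔ g ≤ p a)) := by
  obtain ⟨N, hN⟩ := exists_bound C r
  let q : ℕ → ℕ := fun x => if x ∈ C then g + r x else if p x < g then p x else p x + N
  have h1 : ∀ x ∈ C, q x = g + r x ∧ r x < N := fun x hx => ⟨if_pos hx, hN x hx⟩
  have h2 : ∀ x ∈ U, (p x < g ∧ q x = p x) ∨ (g ≤ p x ∧ q x = p x + N) := by
    intro x hx
    have : x ∉ C := fun h => hd x h hx
    simp only [q, if_neg this]
    split_ifs <;> omega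
  refine ⟨q, ?_, ?_, ?_, ?_⟩
  · intro x hx y hy hxy
    simp only [Finset.coe_union, Set.mem_union, Finset.mem_coe] at hx hy
    rcases hx with hx | hx <;> rcases hy with hy | hy
    · have := h2 x hx; have := h2 y hy; exact hp hx hy (by omega)
    · have := h2 x hx; have := h1 y hy; omega
    · have := h1 x hx; have := h2 y hy; omega
    · have := h1 x hx; have := h1 y hy; exact hr hx hy (by omega)
  · intro a ha b hb
    have := h2 a ha; have := h2 b hb; omega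
  · intro a ha b hb
    have := h1 a ha; have := h1 b hb; omega
  · intro a ha x hx
    have := h2 a ha; have := h1 x hx; omega

theorem num_in {a b c d : ℕ} (h : Il a b c d) (h1 : a < c ↔ a < d) (h2 : c < a ↔ d < a)
    (h3 : b < c ↔ b < d) (h4 : c < b ↔ d < b) : False := by
  unfold Il at h; omega

theorem share {c d c' d' u : ℕ} (h : c = u ∨ d = u) (h' : c' = u ∨ d' = u) :
    c = c' ∨ c = d' ∨ d = c' ∨ d = d' := by omega

theorem Cr.not_both {p a b c d u} (h : Cr p a b c d) (h1 : a = u ∨ b = u) (h2 : c = u ∨ d = u) :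
    False := by
  have := h.ne_ac; have := h.ne_ad; have := h.ne_bc; have := h.ne_bd; omega

/-- Attaching a piece hanging at one vertex. -/
theorem insert1 {U C : Finset ℕ} {u : ℕ} (hu : u ∈ U) (hd : ∀ x ∈ C, x ∉ U)
    (hc : ∀ x ∈ C, ∀ y ∈ U, G.Adj x y → y = u) (h1 : Drawable G U)
    (h2 : Drawable G (insert u C)) : Drawable G (U ∪ C) := by
  obtain ⟨p0, hp0, hv0⟩ := h1
  obtain ⟨r0, hr0, hw0⟩ := h2
  obtain ⟨p, hp, ep, mp⟩ := exists_rot hp0 hu
  obtain ⟨r, hr, er, mr⟩ := exists_rot hr0 (Finset.mem_insert_self u C)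
  have hv := hv0.congr ep
  have hw := hw0.congr er
  obtain ⟨q, hq, q1, q2, q3⟩ := exists_merge hp (hr.mono (by simp)) hd (p u + 1)
  have hne : ∀ x ∈ C, x ≠ u := fun x hx h => hd x hx (h ▸ hu)
  have eo : CrEq U q p := crEq_of_lt_iff q1
  have en : CrEq (insert u C) q r := by
    apply crEq_of_lt_iff
    intro a ha b hb
    rw [Finset.mem_insert] at ha hb
    rcases ha with rfl | ha <;> rcases hb with rfl | hb
    · simp
    · exact iff_of_true ((q3 _ hu b hb).1.2 (by omega))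
        (mr b (Finset.mem_insert_of_mem hb) (hne b hb))
    · have := mr a (Finset.mem_insert_of_mem ha) (hne a ha)
      have := (q3 _ hu a ha).2
      omega
    · exact q2 a ha b hb
  have ty : ∀ c ∈ U ∪ C, ∀ d ∈ U ∪ C, G.Adj c d → (c ∈ U ∧ d ∈ U) ∨
      (c ∈ C ∧ d ∈ insert u C) ∨ (d ∈ C ∧ c ∈ insert u C) := by
    intro c hc' d hd' hcd
    simp only [Finset.mem_union, Finset.mem_insert] at hc' hd' ⊢
    rcases hc' with h | h <;> rcases hd' with h' | h'
    · exact Or.inl ⟨h, h'⟩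
    · exact Or.inr (Or.inr ⟨h', Or.inl (hc d h' c h hcd.symm)⟩)
    · exact Or.inr (Or.inl ⟨h, Or.inl (hc c h d h' hcd)⟩)
    · exact Or.inr (Or.inl ⟨h, Or.inr h'⟩)
  have on1 : ∀ a ∈ U, ∀ b ∈ U, ∀ c ∈ C, ∀ d ∈ insert u C, ¬ Cr q a b c d := by
    intro a ha b hb c hc' d hd' hx
    have a1 := q3 a ha c hc'
    have b1 := q3 b hb c hc'
    rw [Finset.mem_insert] at hd'
    rcases hd' with rfl | hd'
    · have a2 := mp a ha hx.ne_ad
      have b2 := mp b hb hx.ne_bd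
      have a3 := q1 a ha d hu
      have a4 := q1 d hu a ha
      have b3 := q1 b hb d hu
      have b4 := q1 d hu b hb
      exact num_in hx (by omega) (by omega) (by omega) (by omega)
    · have a2 := q3 a ha d hd'
      have b2 := q3 b hb d hd'
      exact num_in hx (by omega) (by omega) (by omega) (by omega)
  have on : ∀ a ∈ U, ∀ b ∈ U, ∀ c d, ((c ∈ C ∧ d ∈ insert u C) ∨ (d ∈ C ∧ c ∈ insert u C)) →
      ¬ Cr q a b c d := by
    intro a ha b hb c d h hx
    rcases h with h | h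
    · exact on1 a ha b hb c h.1 d h.2 hx
    · exact on1 a ha b hb d h.1 c h.2 hx.swap_right
  have nw : ∀ c d, ((c ∈ C ∧ d ∈ insert u C) ∨ (d ∈ C ∧ c ∈ insert u C)) →
      c ∈ insert u C ∧ d ∈ insert u C := fun c d h =>
    h.elim (fun h => ⟨Finset.mem_insert_of_mem h.1, h.2⟩)
      (fun h => ⟨h.2, Finset.mem_insert_of_mem h.1⟩)
  refine ⟨q, hq, fun a ha b hb c hc' d hd' c' hc'' d' hd'' hab hcd hcd' x1 x2 => ?_⟩
  rcases ty a ha b hb hab with t1 | t1
  · rcases ty c hc' d hd' hcd with t2 | t2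
    · rcases ty c' hc'' d' hd'' hcd' with t3 | t3
      · exact (hv.congr eo.symm) a t1.1 b t1.2 c t2.1 d t2.2 c' t3.1 d' t3.2 hab hcd hcd' x1 x2
      · exact absurd x2 (on a t1.1 b t1.2 c' d' t3)
    · exact absurd x1 (on a t1.1 b t1.2 c d t2)
  · rcases ty c hc' d hd' hcd with t2 | t2
    · exact absurd x1.symm (on c t2.1 d t2.2 a b t1)
    · rcases ty c' hc'' d' hd'' hcd' with t3 | t3
      · exact absurd x2.symm (on c' t3.1 d' t3.2 a b t1)
      · exact (hw.congr en.symm) a (nw _ _ t1).1 b (nw _ _ t1).2 c (nw _ _ t2).1 d (nw _ _ t2).2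
          c' (nw _ _ t3).1 d' (nw _ _ t3).2 hab hcd hcd' x1 x2

theorem num_u {a b c u pa pb pu g : ℕ} (h : Il a b c u) (a1 : a < c ↔ pa < g) (a2 : c < a ↔ g ≤ pa)
    (b1 : b < c ↔ pb < g) (b2 : c < b ↔ g ≤ pb) (ua : u < a) (ub : u < b) :
    (pa < g ∧ g ≤ pb) ∨ (pb < g ∧ g ≤ pa) := by
  unfold Il at h; omega

theorem num_v {a b c v pa pb pv g : ℕ} (h : Il a b c v) (a1 : a < c ↔ pa < g) (a2 : c < a ↔ g ≤ pa)
    (b1 : b < c ↔ pb < g) (b2 : c < b ↔ g ≤ pb) (a3 : a < v ↔ pa < pv) (a4 : v < a ↔ pv < pa)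
    (b3 : b < v ↔ pb < pv) (b4 : v < b ↔ pv < pb) (hg : g ≤ pv) :
    (g ≤ pa ∧ pa < pv ∧ (pb < g ∨ pv < pb)) ∨ (g ≤ pb ∧ pb < pv ∧ (pa < g ∨ pv < pa)) := by
  unfold Il at h; omega

/-- Inserting a clean block into a safe gap. -/
theorem insert2 {U C : Finset ℕ} {p : ℕ → ℕ} {u v g : ℕ} (hu : u ∈ U) (hvU : v ∈ U)
    (hd : ∀ x ∈ C, x ∉ U) (hc : ∀ x ∈ C, ∀ y ∈ U, G.Adj x y → y = u ∨ y = v)
    (hp : Set.InjOn p U) (hv : NoInd G U p) (hug : p u < g) (hgv : g ≤ p v)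
    (mp : ∀ x ∈ U, x ≠ u → p u < p x)
    (sa : ∀ c ∈ U, ∀ d ∈ U, G.Adj c d → p c < g → g ≤ p d → c = u ∨ d = v)
    (sa' : ∀ c ∈ U, ∀ d ∈ U, G.Adj c d → g ≤ p c → p c < p v → ¬ p v < p d)
    (sb : ∀ x ∈ U, G.Adj v x → p x < g → x ≠ u →
      ∀ c ∈ U, ∀ d ∈ U, G.Adj c d → Cr p v x c d → c = u ∨ d = u)
    (sc : ∀ x ∈ U, G.Adj u x → g ≤ p x → p x < p v →
      ∀ c ∈ U, ∀ d ∈ U, G.Adj c d → Cr p u x c d → c = v ∨ d = v)
    (hC : Clean G C u v) :
    ∃ q : ℕ → ℕ, Set.InjOn q (U ∪ C : Finset ℕ) ∧ NoInd G (U ∪ C) q ∧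
      (Con1 G U p u v → Con1 G (U ∪ C) q u v) ∧ (Con1 G U p v u → Con1 G (U ∪ C) q v u) ∧
      (∀ a ∈ U, ∀ b ∈ U, (q a < q b ↔ p a < p b)) ∧ ∀ x ∈ C, q u < q x ∧ q x < q v := by
  obtain ⟨r, hr, hw, c1, c2, ruv, mr⟩ := hC
  obtain ⟨q, hq, q1, q2, q3⟩ := exists_merge hp
    (hr.mono (fun x hx => by simp only [Finset.coe_insert, Set.mem_insert_iff]; tauto)) hd g
  set W : Finset ℕ := insert u (insert v C) with hW
  have memW : ∀ x, x ∈ W ↔ x = u ∨ x = v ∨ x ∈ C := fun x => by simp [hW]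
  have eo : CrEq U q p := crEq_of_lt_iff q1
  have en : CrEq W q r := by
    apply crEq_of_lt_iff
    have k1 := q1 u hu v hvU
    have k2 := q1 v hvU u hu
    intro a ha b hb
    rw [memW] at ha hb
    rcases ha with rfl | rfl | ha <;> rcases hb with rfl | rfl | hb
    · simp
    · omega
    · have := mr b hb; have := q3 _ hu b hb; omega
    · omega
    · simp
    · have := mr b hb; have := q3 _ hvU b hb; omega
    · have := mr a ha; have := q3 _ hu a ha; omega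
    · have := mr a ha; have := q3 _ hvU a ha; omega
    · exact q2 a ha b hb
  have ty : ∀ c ∈ U ∪ C, ∀ d ∈ U ∪ C, G.Adj c d → (c ∈ U ∧ d ∈ U) ∨
      (c ∈ C ∧ d ∈ W) ∨ (d ∈ C ∧ c ∈ W) := by
    intro c hc' d hd' hcd
    simp only [Finset.mem_union, memW] at hc' hd' ⊢
    rcases hc' with h | h <;> rcases hd' with h' | h'
    · exact Or.inl ⟨h, h'⟩
    · have := hc d h' c h hcd.symm
      tauto
    · have := hc c h d h' hcd
      tauto
    · tauto
  have on1 : ∀ a ∈ U, ∀ b ∈ U, G.Adj a b → ∀ c ∈ C, ∀ d ∈ W, Cr q a b c d →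
      (d = u ∧ (a = v ∨ b = v) ∧ ∀ c ∈ U, ∀ d ∈ U, G.Adj c d → Cr p a b c d → c = u ∨ d = u) ∨
      (d = v ∧ (a = u ∨ b = u) ∧ ∀ c ∈ U, ∀ d ∈ U, G.Adj c d → Cr p a b c d → c = v ∨ d = v) := by
    intro a ha b hb hab c hc' d hd' hx
    have a1 := q3 a ha c hc'
    have b1 := q3 b hb c hc'
    rw [memW] at hd'
    rcases hd' with rfl | rfl | hd'
    · left
      have a2 := (q1 d hu a ha).2 (mp a ha hx.ne_ad)
      have b2 := (q1 d hu b hb).2 (mp b hb hx.ne_bd)
      rcases num_u (pu := 0) hx a1.1 a1.2 b1.1 b1.2 a2 b2 with h | h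
      · rcases sa a ha b hb hab h.1 h.2 with h' | h'
        · exact absurd h' hx.ne_ad
        · subst h'
          exact ⟨rfl, Or.inr rfl, fun c hc d hd hcd hx' =>
            sb a ha hab.symm h.1 hx.ne_ad c hc d hd hcd hx'.swap_left⟩
      · rcases sa b hb a ha hab.symm h.1 h.2 with h' | h'
        · exact absurd h' hx.ne_bd
        · subst h'
          exact ⟨rfl, Or.inl rfl, fun c hc d hd hcd hx' =>
            sb b hb hab h.1 hx.ne_bd c hc d hd hcd hx'⟩
    · right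
      rcases num_v hx a1.1 a1.2 b1.1 b1.2 (q1 a ha d hvU) (q1 d hvU a ha) (q1 b hb d hvU)
        (q1 d hvU b hb) hgv with ⟨h1, h2, h3 | h3⟩ | ⟨h1, h2, h3 | h3⟩
      · rcases sa b hb a ha hab.symm h3 h1 with h' | h'
        · subst h'
          exact ⟨rfl, Or.inr rfl, fun c hc d hd hcd hx' =>
            sc a ha hab.symm h1 h2 c hc d hd hcd hx'.swap_left⟩
        · exact absurd h' hx.ne_ad
      · exact absurd h3 (sa' a ha b hb hab h1 h2)
      · rcases sa a ha b hb hab h3 h1 with h' | h'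
        · subst h'
          exact ⟨rfl, Or.inl rfl, fun c hc d hd hcd hx' => sc b hb hab h1 h2 c hc d hd hcd hx'⟩
        · exact absurd h' hx.ne_bd
      · exact absurd h3 (sa' b hb a ha hab.symm h1 h2)
    · have a2 := q3 a ha d hd'
      have b2 := q3 b hb d hd'
      exact (num_in hx (by omega) (by omega) (by omega) (by omega)).elim
  have on : ∀ a ∈ U, ∀ b ∈ U, G.Adj a b → ∀ c d, ((c ∈ C ∧ d ∈ W) ∨ (d ∈ C ∧ c ∈ W)) →
      Cr q a b c d →
      ((c = u ∨ d = u) ∧ (a = v ∨ b = v) ∧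
        ∀ c ∈ U, ∀ d ∈ U, G.Adj c d → Cr p a b c d → c = u ∨ d = u) ∨
      ((c = v ∨ d = v) ∧ (a = u ∨ b = u) ∧
        ∀ c ∈ U, ∀ d ∈ U, G.Adj c d → Cr p a b c d → c = v ∨ d = v) := by
    intro a ha b hb hab c d h hx
    rcases h with h | h
    · exact (on1 a ha b hb hab c h.1 d h.2 hx).imp (fun h => ⟨Or.inr h.1, h.2⟩)
        (fun h => ⟨Or.inr h.1, h.2⟩)
    · exact (on1 a ha b hb hab d h.1 c h.2 hx.swap_right).imp (fun h => ⟨Or.inl h.1, h.2⟩)
        (fun h => ⟨Or.inl h.1, h.2⟩)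
  have nw : ∀ c d, ((c ∈ C ∧ d ∈ W) ∨ (d ∈ C ∧ c ∈ W)) → c ∈ W ∧ d ∈ W := fun c d h =>
    h.elim (fun h => ⟨(memW _).2 (Or.inr (Or.inr h.1)), h.2⟩)
      (fun h => ⟨h.2, (memW _).2 (Or.inr (Or.inr h.1))⟩)
  have c1' := c1.congr en.symm
  have c2' := c2.congr en.symm
  refine ⟨q, hq, fun a ha b hb c hc' d hd' c' hc'' d' hd'' hab hcd hcd' x1 x2 => ?_,
    fun h a ha b hb c hc' d hd' hab hcd x1 hau => ?_,
    fun h a ha b hb c hc' d hd' hab hcd x1 hau => ?_, q1, fun x hx => ?_⟩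
  · rcases ty a ha b hb hab with t1 | t1
    · rcases ty c hc' d hd' hcd with t2 | t2 <;> rcases ty c' hc'' d' hd'' hcd' with t3 | t3
      · exact (hv.congr eo.symm) a t1.1 b t1.2 c t2.1 d t2.2 c' t3.1 d' t3.2 hab hcd hcd' x1 x2
      · have x1' := (eo a t1.1 b t1.2 c t2.1 d t2.2).1 x1
        rcases on a t1.1 b t1.2 hab c' d' t3 x2 with h | h
        · exact share (h.2.2 c t2.1 d t2.2 hcd x1') h.1
        · exact share (h.2.2 c t2.1 d t2.2 hcd x1') h.1
      · have x2' := (eo a t1.1 b t1.2 c' t3.1 d' t3.2).1 x2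
        rcases on a t1.1 b t1.2 hab c d t2 x1 with h | h
        · exact share h.1 (h.2.2 c' t3.1 d' t3.2 hcd' x2')
        · exact share h.1 (h.2.2 c' t3.1 d' t3.2 hcd' x2')
      · rcases on a t1.1 b t1.2 hab c d t2 x1 with h | h <;>
        rcases on a t1.1 b t1.2 hab c' d' t3 x2 with h' | h'
        · exact share h.1 h'.1
        · exact (x2.not_both h.2.1 h'.1).elim
        · exact (x2.not_both h.2.1 h'.1).elim
        · exact share h.1 h'.1
    · have n1 := nw _ _ t1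
      rcases ty c hc' d hd' hcd with t2 | t2 <;> rcases ty c' hc'' d' hd'' hcd' with t3 | t3
      · rcases on c t2.1 d t2.2 hcd a b t1 x1.symm with h | h <;>
        rcases on c' t3.1 d' t3.2 hcd' a b t1 x2.symm with h' | h'
        · exact share h.2.1 h'.2.1
        · exact (x1.not_both h'.1 h.2.1).elim
        · exact (x1.not_both h'.1 h.2.1).elim
        · exact share h.2.1 h'.2.1
      · have n3 := nw _ _ t3
        rcases on c t2.1 d t2.2 hcd a b t1 x1.symm with h | h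
        · exact share h.2.1 (c1'.apply n1.1 n1.2 n3.1 n3.2 hab hcd' x2 h.1)
        · exact share h.2.1 (c2'.apply n1.1 n1.2 n3.1 n3.2 hab hcd' x2 h.1)
      · have n2 := nw _ _ t2
        rcases on c' t3.1 d' t3.2 hcd' a b t1 x2.symm with h | h
        · exact share (c1'.apply n1.1 n1.2 n2.1 n2.2 hab hcd x1 h.1) h.2.1
        · exact share (c2'.apply n1.1 n1.2 n2.1 n2.2 hab hcd x1 h.1) h.2.1
      · exact (hw.congr en.symm) a n1.1 b n1.2 c (nw _ _ t2).1 d (nw _ _ t2).2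
          c' (nw _ _ t3).1 d' (nw _ _ t3).2 hab hcd hcd' x1 x2
  · rcases ty a ha b hb hab with t1 | t1 <;> rcases ty c hc' d hd' hcd with t2 | t2
    · exact (h.congr eo.symm) a t1.1 b t1.2 c t2.1 d t2.2 hab hcd x1 hau
    · rcases on a t1.1 b t1.2 hab c d t2 x1 with h' | h'
      · exact (x1.not_both (Or.inl hau) h'.1).elim
      · exact h'.1
    · rcases on c t2.1 d t2.2 hcd a b t1 x1.symm with h' | h'
      · exact h'.2.1
      · exact (x1.not_both (Or.inl hau) h'.2.1).elim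
    · exact c1' a (nw _ _ t1).1 b (nw _ _ t1).2 c (nw _ _ t2).1 d (nw _ _ t2).2 hab hcd x1 hau
  · rcases ty a ha b hb hab with t1 | t1 <;> rcases ty c hc' d hd' hcd with t2 | t2
    · exact (h.congr eo.symm) a t1.1 b t1.2 c t2.1 d t2.2 hab hcd x1 hau
    · rcases on a t1.1 b t1.2 hab c d t2 x1 with h' | h'
      · exact h'.1
      · exact (x1.not_both (Or.inl hau) h'.1).elim
    · rcases on c t2.1 d t2.2 hcd a b t1 x1.symm with h' | h'
      · exact (x1.not_both (Or.inl hau) h'.2.1).elim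
      · exact h'.2.1
    · exact c2' a (nw _ _ t1).1 b (nw _ _ t1).2 c (nw _ _ t2).1 d (nw _ _ t2).2 hab hcd x1 hau
  · have := q3 u hu x hx
    have := q3 v hvU x hx
    omega

theorem clean_union {K C : Finset ℕ} {u v : ℕ} (huC : u ∉ C) (hvC : v ∉ C)
    (hd : ∀ x ∈ C, ∀ y ∈ K, x ≠ y ∧ ¬ G.Adj x y) (h1 : Clean G K u v) (h2 : Clean G C u v) :
    Clean G (K ∪ C) u v := by
  obtain ⟨p, hp, hv, c1, c2, puv, mp⟩ := h1
  have mem : ∀ x, x ∈ (insert u (insert v K) : Finset ℕ) ↔ x = u ∨ x = v ∨ x ∈ K := fun x => by simp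
  have lt : ∀ x ∈ (insert u (insert v K) : Finset ℕ), (x ≠ u → p u < p x) ∧ (x ≠ v → p x < p v) := by
    intro x hx
    rcases (mem x).1 hx with rfl | rfl | hx
    · exact ⟨fun h => absurd rfl h, fun _ => puv⟩
    · exact ⟨fun _ => puv, fun h => absurd rfl h⟩
    · exact ⟨fun _ => (mp x hx).1, fun _ => (mp x hx).2⟩
  have hu : u ∈ (insert u (insert v K) : Finset ℕ) := (mem u).2 (Or.inl rfl)
  have hv' : v ∈ (insert u (insert v K) : Finset ℕ) := (mem v).2 (Or.inr (Or.inl rfl))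
  obtain ⟨q, hq, k1, k2, k3, k4, k5⟩ := insert2 (g := p v) hu hv'
    (fun x hx hx' => by
      rcases (mem x).1 hx' with rfl | rfl | hx'
      · exact huC hx
      · exact hvC hx
      · exact (hd x hx x hx').1 rfl)
    (fun x hx y hy hxy => by
      rcases (mem y).1 hy with h | h | h
      · exact Or.inl h
      · exact Or.inr h
      · exact absurd hxy (hd x hx y h).2)
    hp hv puv le_rfl (fun x hx => (lt x hx).1)
    (fun c hc d hd _ _ h => Or.inr (by
      by_contra hne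
      have := (lt d hd).2 hne
      omega))
    (fun c hc d hd _ h1 h2 => by omega)
    (fun x hx hvx _ _ c hc d hd hcd hcr => c2 v hv' x hx c hc d hd hvx hcd hcr rfl)
    (fun x hx _ h1 h2 => by omega) h2
  have e : (insert u (insert v (K ∪ C)) : Finset ℕ) = insert u (insert v K) ∪ C := by
    simp [Finset.insert_union]
  refine ⟨q, e ▸ hq, e ▸ k1, e ▸ k2 c1, e ▸ k3 c2, (k4 u hu v hv').2 puv, fun x hx => ?_⟩
  rcases Finset.mem_union.1 hx with hx | hx
  · have hx' := (mem x).2 (Or.inr (Or.inr hx))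
    exact ⟨(k4 u hu x hx').2 (mp x hx).1, (k4 x hx' v hv').2 (mp x hx).2⟩
  · exact k5 x hx

/-- A clean block parallel to twelve full pieces can be put back. -/
theorem insert_clean {U C : Finset ℕ} {F : Finset (Finset ℕ)} {u v : ℕ} (hu : u ∈ U) (hvU : v ∈ U)
    (huv : u ≠ v) (hd : ∀ x ∈ C, x ∉ U) (hc : ∀ x ∈ C, ∀ y ∈ U, G.Adj x y → y = u ∨ y = v)
    (hC : Clean G C u v) (hF : Fam G U F) (hAu : Att G F u) (hAv : Att G F v)
    (hcl : ∀ K ∈ F, ∀ x ∈ K, ∀ y ∈ U, G.Adj x y → y ∈ K ∨ y = u ∨ y = v) (h12 : 12 ≤ F.card)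
    (h : Drawable G U) : Drawable G (U ∪ C) := by
  obtain ⟨p0, hp0, hv0⟩ := h
  have k := good_card hp0 hv0 hF hu hvU huv hAu hAv
  set F' := F.filter fun K => Good1 G U p0 u v K ∧ Good1 G U p0 v u K with hF'
  have hsub : F' ⊆ F := Finset.filter_subset _ _
  have hg : ∀ K ∈ F', Good1 G U p0 u v K ∧ Good1 G U p0 v u K :=
    fun K hK => (Finset.mem_filter.1 hK).2
  have nc := no_cross hp0 hv0 (hF.mono hsub) hu hvU (hAu.mono hsub) (hAv.mono hsub) hg (by omega)
  obtain ⟨K, hK⟩ := Finset.card_pos.1 (show 0 < F'.card by omega)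
  have hKF := hsub hK
  have hKU := hF.sub K hKF
  obtain ⟨huK, y, hy, huy⟩ := hAu K hKF
  obtain ⟨hvK, z, hz, hvz⟩ := hAv K hKF
  have hcK : Clean G K u v := clean_of_good hp0 hv0 hKU (hF.conn K hKF) hu hvU huv huK hvK hy
    (hg K hK).1 (hg K hK).2 nc
  have hyu : y ≠ u := fun h => huK (h ▸ hy)
  have hyv : y ≠ v := fun h => hvK (h ▸ hy)
  obtain ⟨p, hp, e, mp, hlt⟩ := exists_norm hp0 hu hvU (hKU hy) huv hyu hyv
  have hv := hv0.congr e
  have g1 := (hg K hK).1.congr e hu hKU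
  have nc' : ∀ c ∈ U, ∀ d ∈ U, G.Adj c d → ¬ Cr p u v c d :=
    fun c hc d hd hcd hx => nc c hc d hd hcd ((e u hu v hvU c hc d hd).2 hx)
  have hC' : Clean G (K ∪ C) u v := clean_union (fun h => hd u h hu) (fun h => hd v h hvU)
    (fun x hx y hy => ⟨fun h => hd x hx (h ▸ hKU hy), fun h => by
      rcases hc x hx y (hKU hy) h with rfl | rfl
      · exact huK hy
      · exact hvK hy⟩) hcK hC
  have hs : U \ K ⊆ U := Finset.sdiff_subset
  have puy := mp y (hKU hy) hyu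
  have ne : ∀ x ∈ U \ K, p x ≠ p y := fun x hx h =>
    (Finset.mem_sdiff.1 hx).2 (hp (hs hx) (hKU hy) h ▸ hy)
  obtain ⟨q, hq, k1, -⟩ := insert2 (U := U \ K) (g := p y) (Finset.mem_sdiff.2 ⟨hu, huK⟩)
    (Finset.mem_sdiff.2 ⟨hvU, hvK⟩)
    (fun x hx hx' => by
      rcases Finset.mem_union.1 hx with hx | hx
      · exact (Finset.mem_sdiff.1 hx').2 hx
      · exact hd x hx (hs hx'))
    (fun x hx y hy hxy => by
      rcases Finset.mem_union.1 hx with hx | hx
      · exact (hcl K hKF x hx y (hs hy) hxy).resolve_left (Finset.mem_sdiff.1 hy).2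
      · exact hc x hx y (hs hy) hxy)
    (hp.mono hs) (hv.mono hs) puy hlt.le (fun x hx => mp x (hs hx))
    (fun c hc d hd hcd h1 h2 => by
      by_cases hcu : c = u
      · exact Or.inl hcu
      · have h3 := mp c (hs hc) hcu
        have h4 := ne d hd
        rcases g1 y hy huy c (hs hc) d (hs hd) hcd (by unfold Cr Il; omega) with h | h
        · subst h; omega
        · exact Or.inr h)
    (fun c hc d hd hcd h1 h2 h3 => nc' c (hs hc) d (hs hd) hcd (by unfold Cr Il; omega))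
    (fun x hx hvx h1 hxu c hc d hd hcd hcr => by
      have h3 := mp x (hs hx) hxu
      have h4 := hv v hvU x (hs hx) c (hs hc) d (hs hd) u hu y (hKU hy) hvx hcd huy hcr
        (by unfold Cr Il; omega)
      rcases h4 with h | h | h | h
      · exact Or.inl h
      · exact absurd (h ▸ rfl) (ne c hc)
      · exact Or.inr h
      · exact absurd (h ▸ rfl) (ne d hd))
    (fun x hx hux h1 h2 c hc d hd hcd hcr => by
      have h3 := ne x hx
      obtain ⟨c2, hc2, d2, hd2, a2, x2⟩ := cross_ext hp (hF.conn K hKF) hKU hu (hs hx) huK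
        (Finset.mem_sdiff.1 hx).2 hy hz hvz (by unfold Cr Il; omega)
      have hd2U : d2 ∈ U := hd2.elim (fun h => hKU h) (fun h => h ▸ hvU)
      have n1 := (Finset.mem_sdiff.1 hc).2
      have n2 := (Finset.mem_sdiff.1 hd).2
      rcases hv u hu x (hs hx) c (hs hc) d (hs hd) c2 (hKU hc2) d2 hd2U hux hcd a2 hcr x2
        with h | h | h | h
      · exact absurd (h ▸ hc2) n1
      · exact Or.inl (hd2.elim (fun h' => absurd (h ▸ h') n1) (fun h' => h.trans h'))
      · exact absurd (h ▸ hc2) n2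
      · exact Or.inr (hd2.elim (fun h' => absurd (h ▸ h') n2) (fun h' => h.trans h')))
    hC'
  have e : U \ K ∪ (K ∪ C) = U ∪ C := by
    rw [← Finset.union_assoc, Finset.sdiff_union_of_subset hKU]
  exact ⟨q, e ▸ hq, e ▸ k1⟩

end Pool.Agent.Lib.MP_f9c574_lc
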