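import Pool.Agent.Lib.MP_f9c574_lc.Basic

/-!
Valid lists, representative sublists.
-/

set_option linter.unusedVariables false

namespace Pool.Agent.Lib.MP_f9c574_lc

open Classical

variable (G : SimpleGraph ℕ)

/-- A violated condition. -/
def Bad (p : ℕ → ℕ) (s t a b c d c' d' : ℕ) : Prop :=
  G.Adj a b ∧ G.Adj c d ∧ G.Adj c' d' ∧ Cr p a b c d ∧ Cr p a b c' d' ∧
    (¬ (c = c' ∨ c = d' ∨ d = c' ∨ d = d') ∨ (a = s ∧ ¬ (c = t ∨ d = t)) ∨
      (a = t ∧ ¬ (c = s ∨ d = s)))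

/-- The list is a valid order. -/
def VL (s t : ℕ) (l : List ℕ) : Prop :=
  l.Nodup ∧ ∀ a ∈ l, ∀ b ∈ l, ∀ c ∈ l, ∀ d ∈ l, ∀ c' ∈ l, ∀ d' ∈ l,
    ¬ Bad G (fun x => l.idxOf x) s t a b c d c' d'

/-- A violated condition as a tuple. -/
def BadT (p : ℕ → ℕ) (s t : ℕ) (x : Fin 6 → ℕ) : Prop :=
  Bad G p s t (x 0) (x 1) (x 2) (x 3) (x 4) (x 5)

variable {G}

theorem vl_iff {s t l} : VL G s t l ↔ l.Nodup ∧ NoInd G l.toFinset (fun x => l.idxOf x) ∧
    Con1 G l.toFinset (fun x => l.idxOf x) s t ∧ Con1 G l.toFinset (fun x => l.idxOf x) t s := by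
  unfold VL NoInd Con1 Bad
  simp only [List.mem_toFinset]
  refine and_congr_right fun _ => ⟨fun h => ⟨?_, ?_, ?_⟩, fun h => ?_⟩
  · intro a ha b hb c hc d hd c' hc' d' hd' h1 h2 h3 h4 h5
    by_contra hn
    exact h a ha b hb c hc d hd c' hc' d' hd' ⟨h1, h2, h3, h4, h5, Or.inl hn⟩
  · intro a ha b hb c hc d hd h1 h2 h3 h4
    by_contra hn
    exact h a ha b hb c hc d hd c hc d hd ⟨h1, h2, h2, h3, h3, Or.inr (Or.inl ⟨h4, hn⟩)⟩
  · intro a ha b hb c hc d hd h1 h2 h3 h4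
    by_contra hn
    exact h a ha b hb c hc d hd c hc d hd ⟨h1, h2, h2, h3, h3, Or.inr (Or.inr ⟨h4, hn⟩)⟩
  · rintro a ha b hb c hc d hd c' hc' d' hd' ⟨h1, h2, h3, h4, h5, h6 | h6 | h6⟩
    · exact h6 (h.1 a ha b hb c hc d hd c' hc' d' hd' h1 h2 h3 h4 h5)
    · exact h6.2 (h.2.1 a ha b hb c hc d hd h1 h2 h4 h6.1)
    · exact h6.2 (h.2.2 a ha b hb c hc d hd h1 h2 h4 h6.1)

theorem vl_iff_tuple {s t l} : VL G s t l ↔ l.Nodup ∧
    ∀ x : Fin 6 → ℕ, (∀ i, x i ∈ l) → ¬ BadT G (fun x => l.idxOf x) s t x := by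
  refine and_congr_right fun _ => ⟨fun h x hx => h _ (hx 0) _ (hx 1) _ (hx 2) _ (hx 3) _ (hx 4) _
    (hx 5), fun h a ha b hb c hc d hd c' hc' d' hd' => h ![a, b, c, d, c', d'] ?_⟩
  intro i
  fin_cases i <;> assumption

theorem il_congr {a b c d a' b' c' d' : ℕ} (h1 : a < c ↔ a' < c') (h2 : c < a ↔ c' < a')
    (h3 : a < d ↔ a' < d') (h4 : d < a ↔ d' < a') (h5 : b < c ↔ b' < c') (h6 : c < b ↔ c' < b')
    (h7 : b < d ↔ b' < d') (h8 : d < b ↔ d' < b') (h : Il a b c d) : Il a' b' c' d' := by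
  unfold Il at *
  simp only [← h1, ← h2, ← h3, ← h4, ← h5, ← h6, ← h7, ← h8]
  exact h

theorem BadT.transfer {p q : ℕ → ℕ} {s t : ℕ} {x y : Fin 6 → ℕ} (h : BadT G p s t x)
    (ho : ∀ i j, p (x i) < p (x j) ↔ q (y i) < q (y j))
    (ha : ∀ i j, G.Adj (x i) (x j) → G.Adj (y i) (y j)) (he : ∀ i j, y i = y j → x i = x j)
    (hs : ∀ i, x i = s ↔ y i = s) (ht : ∀ i, x i = t ↔ y i = t) : BadT G q s t y := by
  obtain ⟨h1, h2, h3, h4, h5, h6⟩ := h
  refine ⟨ha _ _ h1, ha _ _ h2, ha _ _ h3,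
    il_congr (ho _ _) (ho _ _) (ho _ _) (ho _ _) (ho _ _) (ho _ _) (ho _ _) (ho _ _) h4,
    il_congr (ho _ _) (ho _ _) (ho _ _) (ho _ _) (ho _ _) (ho _ _) (ho _ _) (ho _ _) h5, ?_⟩
  simp only [← hs, ← ht]
  refine h6.imp_left fun h hc => h ?_
  exact hc.imp (he _ _) (Or.imp (he _ _) (Or.imp (he _ _) (he _ _)))

theorem idx_injOn (l : List ℕ) {a b : ℕ} (ha : a ∈ l) (hb : b ∈ l)
    (h : l.idxOf a = l.idxOf b) : a = b := (List.idxOf_inj ha).1 h

theorem idx_lt_of_sublist {l' l : List ℕ} (h : l'.Sublist l) (hn : l.Nodup) {a b : ℕ}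
    (ha : a ∈ l') (hb : b ∈ l') (hab : l'.idxOf a < l'.idxOf b) : l.idxOf a < l.idxOf b := by
  induction h with
  | slnil => simp at ha
  | @cons l1 l2 x h ih =>
    rw [List.nodup_cons] at hn
    have h1 : x ≠ a := fun e => hn.1 (e ▸ h.subset ha)
    have h2 : x ≠ b := fun e => hn.1 (e ▸ h.subset hb)
    rw [List.idxOf_cons_ne _ h1, List.idxOf_cons_ne _ h2]
    exact Nat.succ_lt_succ (ih hn.2 ha hb hab)
  | @cons_cons l1 l2 x h ih =>
    rw [List.nodup_cons] at hn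
    by_cases h2 : x = b
    · subst h2; simp at hab
    · by_cases h1 : x = a
      · subst h1
        rw [List.idxOf_cons_self, List.idxOf_cons_ne _ h2]
        exact Nat.succ_pos _
      · rw [List.idxOf_cons_ne _ h1, List.idxOf_cons_ne _ h2] at hab ⊢
        rw [List.mem_cons] at ha hb
        exact Nat.succ_lt_succ (ih hn.2 (ha.resolve_left (Ne.symm h1))
          (hb.resolve_left (Ne.symm h2)) (Nat.lt_of_succ_lt_succ hab))

theorem idx_lt_iff_of_sublist {l' l : List ℕ} (h : l'.Sublist l) (hn : l.Nodup) {a b : ℕ}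
    (ha : a ∈ l') (hb : b ∈ l') : l'.idxOf a < l'.idxOf b ↔ l.idxOf a < l.idxOf b := by
  refine ⟨idx_lt_of_sublist h hn ha hb, fun hab => ?_⟩
  rcases lt_trichotomy (l'.idxOf a) (l'.idxOf b) with h1 | h1 | h1
  · exact h1
  · rw [idx_injOn l' ha hb h1] at hab; omega
  · have := idx_lt_of_sublist h hn hb ha h1; omega

theorem badT_sub {l' l : List ℕ} (h : l'.Sublist l) (hn : l.Nodup) {s t} {x : Fin 6 → ℕ}
    (hx : ∀ i, x i ∈ l') :
    BadT G (fun x => l'.idxOf x) s t x ↔ BadT G (fun x => l.idxOf x) s t x :=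
  ⟨fun hb => hb.transfer (fun i j => idx_lt_iff_of_sublist h hn (hx i) (hx j)) (fun _ _ h => h)
    (fun _ _ h => h) (fun _ => Iff.rfl) (fun _ => Iff.rfl),
   fun hb => hb.transfer (fun i j => (idx_lt_iff_of_sublist h hn (hx i) (hx j)).symm)
    (fun _ _ h => h) (fun _ _ h => h) (fun _ => Iff.rfl) (fun _ => Iff.rfl)⟩

theorem VL.sublist {s t} {l' l : List ℕ} (hv : VL G s t l) (h : l'.Sublist l) : VL G s t l' := by
  rw [vl_iff_tuple] at hv ⊢
  exact ⟨hv.1.sublist h, fun x hx hb =>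
    hv.2 x (fun i => h.subset (hx i)) ((badT_sub h hv.1 hx).1 hb)⟩

theorem VL.rot {s t} {l1 l2 : List ℕ} (hv : VL G s t (l1 ++ l2)) : VL G s t (l2 ++ l1) := by
  rw [vl_iff] at hv ⊢
  obtain ⟨hn, h1, h2, h3⟩ := hv
  have hd : ∀ x ∈ l1, x ∉ l2 := fun x hx hx' => (List.nodup_append.1 hn).2.2 x hx x hx' rfl
  have e : (l2 ++ l1).toFinset = (l1 ++ l2).toFinset := by
    simp [Finset.union_comm]
  have key : ∀ x ∈ (l1 ++ l2).toFinset,
      ((l1 ++ l2).idxOf x < l1.length ∧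
        (l2 ++ l1).idxOf x + l1.length = (l1 ++ l2).idxOf x + (l1.length + l2.length)) ∨
      (l1.length ≤ (l1 ++ l2).idxOf x ∧ (l1 ++ l2).idxOf x < l1.length + l2.length ∧
        (l2 ++ l1).idxOf x + l1.length = (l1 ++ l2).idxOf x) := by
    intro x hx
    rw [List.mem_toFinset, List.mem_append] at hx
    rw [List.idxOf_append, List.idxOf_append]
    by_cases h : x ∈ l1
    · have := List.idxOf_lt_length_of_mem h
      rw [if_pos h, if_neg (hd x h)]
      omega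
    · have h' := hx.resolve_left h
      have := List.idxOf_lt_length_of_mem h'
      rw [if_neg h, if_pos h']
      omega
  have c : CrEq (l1 ++ l2).toFinset (fun x => (l1 ++ l2).idxOf x) (fun x => (l2 ++ l1).idxOf x) :=
    CrEq.trans (q := fun x => (l2 ++ l1).idxOf x + l1.length)
      (fun a ha b hb c hc d hd => il_rot (key a ha) (key b hb) (key c hc) (key d hd))
      (crEq_of_lt_iff fun a _ b _ => Nat.add_lt_add_iff_right)
  rw [e]
  exact ⟨List.perm_append_comm.nodup_iff.1 hn, h1.congr c, h2.congr c, h3.congr c⟩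

theorem length_le_card {l : List ℕ} (hn : l.Nodup) {T : Finset ℕ} (h : ∀ x ∈ l, x ∈ T) :
    l.length ≤ T.card := by
  rw [← List.toFinset_card_of_nodup hn]
  exact Finset.card_le_card fun x hx => h x (List.mem_toFinset.1 hx)

/-- A violation involves at most six elements of the second part. -/
theorem vl_of_small {s t} {R B : List ℕ} (hn : (R ++ B).Nodup)
    (h : ∀ B', B'.Sublist B → B'.length ≤ 6 → VL G s t (R ++ B')) : VL G s t (R ++ B) := by
  rw [vl_iff_tuple]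
  refine ⟨hn, fun x hx hb => ?_⟩
  have hs : (B.filter fun y => y ∈ Finset.univ.image x).Sublist B := List.filter_sublist
  have hl : (B.filter fun y => y ∈ Finset.univ.image x).length ≤ 6 :=
    (length_le_card ((List.nodup_append.1 hn).2.1.sublist hs) (T := Finset.univ.image x)
      (fun y hy => by simpa using (List.mem_filter.1 hy).2)).trans
      (Finset.card_image_le.trans (by simp))
  have hx' : ∀ i, x i ∈ R ++ B.filter fun y => y ∈ Finset.univ.image x := fun i => by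
    rcases List.mem_append.1 (hx i) with h | h
    · exact List.mem_append_left _ h
    · exact List.mem_append_right _ (List.mem_filter.2 ⟨h, by simp⟩)
  exact (vl_iff_tuple.1 (h _ hs hl)).2 x hx' ((badT_sub (hs.append_left R) hn hx').2 hb)

/-- Representative sublists of bounded length. -/
theorem exists_rep (c : ℕ) : ∃ r, 1 ≤ r ∧ ∀ (G : SimpleGraph ℕ) (s t : ℕ) (H X : Finset ℕ)
    (A : List ℕ), X.card ≤ c → A.Nodup → s ∉ A → t ∉ A →
    (∀ x ∈ A, ∀ y ∈ H, y ∉ A → G.Adj x y → x ∈ X ∨ y ∈ X) →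
    ∃ R : List ℕ, R.Sublist A ∧ R.length ≤ r ∧
      ∀ B : List ℕ, (∀ y ∈ B, y ∈ H ∧ y ∉ A) → VL G s t (R ++ B) → VL G s t (A ++ B) := by
  let Sig := (Fin 6 → Prop) × (Fin 6 → Fin c → Prop) × (Fin 6 → Fin c → Prop) ×
    (Fin 6 → Fin 6 → Prop) × (Fin 6 → Fin 6 → Prop)
  refine ⟨Fintype.card Sig * 6 + 1, by omega, fun G s t H X A hX hA hs ht hcov => ?_⟩
  obtain ⟨e, he⟩ : ∃ e : Fin c → ℕ, ∀ x ∈ X, ∃ k, e k = x := by
    refine ⟨fun k => X.toList.getD k 0, fun x hx => ?_⟩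
    obtain ⟨k, hk, rfl⟩ := List.getElem_of_mem (Finset.mem_toList.2 hx)
    have : k < c := by rw [Finset.length_toList] at hk; omega
    exact ⟨⟨k, this⟩, by simp [List.getD_eq_getElem?_getD, List.getElem?_eq_getElem hk]⟩
  let sig : (Fin 6 → ℕ) → Sig := fun x =>
    (fun i => x i ∈ A, fun i k => x i ∈ A ∧ x i = e k, fun i k => x i ∈ A ∧ G.Adj (x i) (e k),
      fun i j => x i ∈ A ∧ x j ∈ A ∧ A.idxOf (x i) < A.idxOf (x j),
      fun i j => x i ∈ A ∧ x j ∈ A ∧ G.Adj (x i) (x j))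
  let w : Sig → Fin 6 → ℕ := Function.invFun sig
  have hw : ∀ x, sig (w (sig x)) = sig x := fun x => Function.invFun_eq ⟨x, rfl⟩
  let T : Finset ℕ := Finset.univ.biUnion fun σ : Sig => Finset.univ.image (w σ)
  have hT : T.card ≤ Fintype.card Sig * 6 :=
    Finset.card_biUnion_le_card_mul _ _ _ fun σ _ => Finset.card_image_le.trans (by simp)
  have hRs : (A.filter fun y => y ∈ T).Sublist A := List.filter_sublist
  refine ⟨A.filter fun y => y ∈ T, hRs, ((length_le_card (hA.sublist hRs) (T := T)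
    (fun y hy => by simpa using (List.mem_filter.1 hy).2)).trans hT).trans (by omega),
    fun B hB hv => ?_⟩
  rw [vl_iff_tuple] at hv ⊢
  have hn : (A ++ B).Nodup := List.nodup_append.2 ⟨hA, (List.nodup_append.1 hv.1).2.1,
    fun a ha b hb hab => (hB b hb).2 (hab ▸ ha)⟩
  refine ⟨hn, fun x hx hb => ?_⟩
  set z := w (sig x) with hz
  have k := hw x
  rw [← hz] at k
  have k1 : ∀ i, z i ∈ A ↔ x i ∈ A := fun i => iff_of_eq (congrFun (congrArg Prod.fst k) i)
  have k2 : ∀ i j, (z i ∈ A ∧ z i = e j) ↔ (x i ∈ A ∧ x i = e j) := fun i j =>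
    iff_of_eq (congrFun (congrFun (congrArg (fun σ : Sig => σ.2.1) k) i) j)
  have k3 : ∀ i j, (z i ∈ A ∧ G.Adj (z i) (e j)) ↔ (x i ∈ A ∧ G.Adj (x i) (e j)) := fun i j =>
    iff_of_eq (congrFun (congrFun (congrArg (fun σ : Sig => σ.2.2.1) k) i) j)
  have k4 : ∀ i j, (z i ∈ A ∧ z j ∈ A ∧ A.idxOf (z i) < A.idxOf (z j)) ↔
      (x i ∈ A ∧ x j ∈ A ∧ A.idxOf (x i) < A.idxOf (x j)) := fun i j =>
    iff_of_eq (congrFun (congrFun (congrArg (fun σ : Sig => σ.2.2.2.1) k) i) j)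
  have k5 : ∀ i j, (z i ∈ A ∧ z j ∈ A ∧ G.Adj (z i) (z j)) ↔
      (x i ∈ A ∧ x j ∈ A ∧ G.Adj (x i) (x j)) := fun i j =>
    iff_of_eq (congrFun (congrFun (congrArg (fun σ : Sig => σ.2.2.2.2) k) i) j)
  let y : Fin 6 → ℕ := fun i => if x i ∈ A then z i else x i
  have y1 : ∀ i, x i ∈ A → y i = z i := fun i h => if_pos h
  have y2 : ∀ i, x i ∉ A → y i = x i := fun i h => if_neg h
  have xB : ∀ i, x i ∉ A → x i ∈ B := fun i h => (List.mem_append.1 (hx i)).resolve_left h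
  have hy : ∀ i, y i ∈ (A.filter fun y => y ∈ T) ++ B := fun i => by
    by_cases h : x i ∈ A
    · rw [y1 i h]
      refine List.mem_append_left _ (List.mem_filter.2 ⟨(k1 i).2 h, ?_⟩)
      simp only [decide_eq_true_eq, T, Finset.mem_biUnion, Finset.mem_univ, true_and,
        Finset.mem_image]
      exact ⟨sig x, i, rfl⟩
    · rw [y2 i h]; exact List.mem_append_right _ (xB i h)
  have ho : ∀ i j, (A ++ B).idxOf (x i) < (A ++ B).idxOf (x j) ↔
      (A ++ B).idxOf (y i) < (A ++ B).idxOf (y j) := by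
    intro i j
    simp only [List.idxOf_append]
    by_cases hi : x i ∈ A <;> by_cases hj : x j ∈ A
    · rw [y1 i hi, y1 j hj, if_pos hi, if_pos hj, if_pos ((k1 i).2 hi), if_pos ((k1 j).2 hj)]
      have := k4 i j
      simp only [hi, hj, (k1 i).2 hi, (k1 j).2 hj, true_and] at this
      exact this.symm
    · rw [y1 i hi, y2 j hj, if_pos hi, if_neg hj, if_pos ((k1 i).2 hi)]
      have := List.idxOf_lt_length_of_mem hi
      have := List.idxOf_lt_length_of_mem ((k1 i).2 hi)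
      omega
    · rw [y2 i hi, y1 j hj, if_neg hi, if_pos hj, if_pos ((k1 j).2 hj)]
      have := List.idxOf_lt_length_of_mem hj
      have := List.idxOf_lt_length_of_mem ((k1 j).2 hj)
      omega
    · rw [y2 i hi, y2 j hj]
  have mixed : ∀ i j, x i ∈ A → x j ∉ A → G.Adj (x i) (x j) → G.Adj (z i) (x j) := by
    intro i j hi hj h
    rcases hcov _ hi _ (hB _ (xB j hj)).1 hj h with h' | h'
    · obtain ⟨k, hk⟩ := he _ h'
      rw [((k2 i k).2 ⟨hi, hk.symm⟩).2, hk]; exact h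
    · obtain ⟨k, hk⟩ := he _ h'
      rw [← hk] at h ⊢
      exact ((k3 i k).2 ⟨hi, h⟩).2
  have hst : ∀ s, s ∉ A → ∀ i, x i = s ↔ y i = s := by
    intro s hs i
    by_cases hi : x i ∈ A
    · rw [y1 i hi]
      exact iff_of_false (fun h => hs (h ▸ hi)) (fun h => hs (h ▸ (k1 i).2 hi))
    · rw [y2 i hi]
  refine hv.2 y hy ((badT_sub (hRs.append_right B) hn hy).2 (hb.transfer ho ?_ ?_ (hst s hs)
    (hst t ht)))
  · intro i j h
    by_cases hi : x i ∈ A <;> by_cases hj : x j ∈ A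
    · rw [y1 i hi, y1 j hj]; exact ((k5 i j).2 ⟨hi, hj, h⟩).2.2
    · rw [y1 i hi, y2 j hj]; exact mixed i j hi hj h
    · rw [y2 i hi, y1 j hj]; exact (mixed j i hj hi h.symm).symm
    · rw [y2 i hi, y2 j hj]; exact h
  · intro i j h
    have h1 := ho i j
    have h2 := ho j i
    rw [h] at h1 h2
    exact idx_injOn (A ++ B) (hx i) (hx j) (by omega)

/-- All lists of length at most `k` over `H`. -/
def listsLe : ℕ → List ℕ → List (List ℕ)
  | 0, _ => [[]]
  | k + 1, H => [] :: H.flatMap fun a => (listsLe k H).map (List.cons a)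

theorem mem_listsLe {k : ℕ} {H l : List ℕ} : l ∈ listsLe k H ↔ l.length ≤ k ∧ ∀ x ∈ l, x ∈ H := by
  induction k generalizing l with
  | zero =>
    simp only [listsLe, List.mem_singleton, Nat.le_zero, List.length_eq_zero_iff]
    exact ⟨fun h => by simp [h], fun h => h.1⟩
  | succ k ih =>
    simp only [listsLe, List.mem_cons, List.mem_flatMap, List.mem_map, ih]
    cases l with
    | nil => simp
    | cons a l =>
      simp only [reduceCtorEq, List.cons.injEq, false_or, List.length_cons,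
        Nat.add_le_add_iff_right, List.mem_cons, forall_eq_or_imp]
      exact ⟨fun ⟨b, hb, l', h1, h2, h3⟩ => by subst h2 h3; exact ⟨h1.1, hb, h1.2⟩,
        fun h => ⟨a, h.2.1, l, ⟨h.1, h.2.2⟩, rfl, rfl⟩⟩

/-- A valid position function gives a valid list. -/
theorem exists_sorted {U : Finset ℕ} {p : ℕ → ℕ} (hp : Set.InjOn p U) :
    ∃ L : List ℕ, L.Nodup ∧ L.toFinset = U ∧ L.Pairwise fun a b => p a < p b := by
  have hperm := List.mergeSort_perm U.toList (fun a b => decide (p a ≤ p b))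
  have hn := hperm.nodup_iff.2 U.nodup_toList
  refine ⟨_, hn, by ext x; simp [hperm.mem_iff], ?_⟩
  have hs := List.pairwise_mergeSort (le := fun a b => decide (p a ≤ p b))
    (fun a b c h1 h2 => by simp only [decide_eq_true_eq] at *; omega)
    (fun a b => by simp only [Bool.or_eq_true, decide_eq_true_eq]; omega) U.toList
  refine (hs.and hn).imp_of_mem fun {a b} ha hb h => ?_
  have ha' : a ∈ U := Finset.mem_toList.1 (hperm.mem_iff.1 ha)
  have hb' : b ∈ U := Finset.mem_toList.1 (hperm.mem_iff.1 hb)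
  have : p a ≠ p b := fun e => h.2 (hp ha' hb' e)
  have := h.1
  simp only [decide_eq_true_eq] at this
  omega

theorem idx_lt_iff_of_pairwise {L : List ℕ} {p : ℕ → ℕ} (h : L.Pairwise fun a b => p a < p b)
    {a b : ℕ} (ha : a ∈ L) (hb : b ∈ L) : p a < p b ↔ L.idxOf a < L.idxOf b := by
  have key : ∀ a ∈ L, ∀ b ∈ L, L.idxOf a < L.idxOf b → p a < p b := by
    intro a ha b hb hab
    have := List.pairwise_iff_getElem.1 h _ _ (List.idxOf_lt_length_of_mem ha)
      (List.idxOf_lt_length_of_mem hb) hab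
    simpa using this
  refine ⟨fun hab => ?_, key a ha b hb⟩
  rcases lt_trichotomy (L.idxOf a) (L.idxOf b) with h1 | h1 | h1
  · exact h1
  · rw [idx_injOn L ha hb h1] at hab; omega
  · have := key b hb a ha h1; omega

theorem vl_of_pairwise {L : List ℕ} {p : ℕ → ℕ} {s t : ℕ} (h : L.Pairwise fun a b => p a < p b)
    (h1 : NoInd G L.toFinset p) (h2 : Con1 G L.toFinset p s t) (h3 : Con1 G L.toFinset p t s) :
    VL G s t L := by
  have c : CrEq L.toFinset p (fun x => L.idxOf x) := crEq_of_lt_iff fun a ha b hb =>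
    idx_lt_iff_of_pairwise h (List.mem_toFinset.1 ha) (List.mem_toFinset.1 hb)
  exact vl_iff.2 ⟨h.imp fun {a b} hab e => by rw [e] at hab; omega, h1.congr c, h2.congr c,
    h3.congr c⟩

end Pool.Agent.Lib.MP_f9c574_lc
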