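import Pool.Agent.Lib.MP_f9c574_lc.DP
import Pool.Agent.Lib.MP_f9c574_lc.Insert

/-!
The outer loop: removal of pieces attached to at most two vertices.
-/

set_option linter.unusedVariables false

namespace Pool.Agent.Lib.MP_f9c574_lc

open Classical

variable (G : SimpleGraph ℕ)

/-- The component of `z` after deleting `u, v` is adjacent to both. -/
def Full (U : Finset ℕ) (u v z : ℕ) : Prop :=
  (∃ x ∈ comp G (U \ {u, v}) z, G.Adj u x) ∧ ∃ x ∈ comp G (U \ {u, v}) z, G.Adj v x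

/-- The components adjacent to both `u` and `v`. -/
noncomputable def FC (U : Finset ℕ) (u v : ℕ) : Finset (Finset ℕ) :=
  ((U \ {u, v}).filter (Full G U u v)).image (comp G (U \ {u, v}))

/-- The component of `z` may be removed. -/
def Rem (b r f : ℕ) (U : Finset ℕ) (u v z : ℕ) : Prop :=
  z ≠ u ∧ z ≠ v ∧ ((u = v ∧ DP G 50 b r f f (comp G (U \ {u, v}) z) [u]) ∨
    (u ≠ v ∧ 13 ≤ (FC G U u v).card ∧ DP G 50 b r u v (comp G (U \ {u, v}) z) [v, u]))

/-- The removable triples. -/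
noncomputable def rems (b r f : ℕ) (U : Finset ℕ) : List (ℕ × ℕ × ℕ) :=
  ((U.sort (· ≤ ·)).flatMap fun u => (U.sort (· ≤ ·)).flatMap fun v =>
    (U.sort (· ≤ ·)).map fun z => (u, v, z)).filter
      fun w => decide (Rem G b r f U w.1 w.2.1 w.2.2)

/-- One removal. -/
noncomputable def loopStep (b r f : ℕ) (U : Finset ℕ) : Finset ℕ :=
  if rems G b r f U = [] then U else
    U \ comp G (U \ {((rems G b r f U).headD (0, 0, 0)).1, ((rems G b r f U).headD (0, 0, 0)).2.1})
      ((rems G b r f U).headD (0, 0, 0)).2.2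

variable {G}

theorem fam_comp {W U : Finset ℕ} {F : Finset (Finset ℕ)} (hF : ∀ K ∈ F, ∃ z, K = comp G W z)
    (hU : ∀ K ∈ F, K ⊆ U) : Fam G U F := by
  refine ⟨hU, fun K hK => ?_, fun K hK K' hK' hne x hx y hy => ?_⟩
  · obtain ⟨z, rfl⟩ := hF K hK
    exact conn_comp
  · obtain ⟨z, rfl⟩ := hF K hK
    obtain ⟨z', rfl⟩ := hF K' hK'
    constructor
    · rintro rfl
      exact hne ((comp_eq_of_mem hx).symm.trans (comp_eq_of_mem hy))
    · intro h
      exact hne ((comp_eq_of_mem (comp_closed hx (comp_subset hy) h)).symm.trans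
        (comp_eq_of_mem hy))

theorem comp_cl {U : Finset ℕ} {u v z x y : ℕ} (hx : x ∈ comp G (U \ {u, v}) z) (hy : y ∈ U)
    (h : G.Adj x y) : y ∈ comp G (U \ {u, v}) z ∨ y = u ∨ y = v := by
  by_cases h' : y = u ∨ y = v
  · exact Or.inr h'
  · refine Or.inl (comp_closed hx (Finset.mem_sdiff.2 ⟨hy, ?_⟩) h)
    simpa only [Finset.mem_insert, Finset.mem_singleton] using h'

theorem comp_prop {U : Finset ℕ} {u v z x : ℕ} (hx : x ∈ comp G (U \ {u, v}) z) :
    x ∈ U ∧ x ≠ u ∧ x ≠ v := by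
  have := comp_subset hx
  simp only [Finset.mem_sdiff, Finset.mem_insert, Finset.mem_singleton, not_or] at this
  exact this

theorem rem_sound {b r f U u v z} (hu : u ∈ U) (hv : v ∈ U) (h : Rem G b r f U u v z)
    (hd : Drawable G (U \ comp G (U \ {u, v}) z)) : Drawable G U := by
  set K := comp G (U \ {u, v}) z with hK
  have hKU : K ⊆ U := fun x hx => (comp_prop hx).1
  have huK : u ∉ K := fun h => (comp_prop h).2.1 rfl
  have hvK : v ∉ K := fun h => (comp_prop h).2.2 rfl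
  have e : U \ K ∪ K = U := Finset.sdiff_union_of_subset hKU
  have hc : ∀ x ∈ K, ∀ y ∈ U \ K, G.Adj x y → y = u ∨ y = v := fun x hx y hy hxy =>
    (comp_cl hx (Finset.mem_sdiff.1 hy).1 hxy).resolve_left (Finset.mem_sdiff.1 hy).2
  obtain ⟨-, -, ⟨rfl, h⟩ | ⟨huv, h13, h⟩⟩ := h
  · rw [← hK] at h
    obtain ⟨A, hA, hvl⟩ := dp_sound (by simpa using huK) h
    rw [← e]
    refine insert1 (Finset.mem_sdiff.2 ⟨hu, huK⟩) (fun x hx h => (Finset.mem_sdiff.1 h).2 hx)
      (fun x hx y hy hxy => (hc x hx y hy hxy).elim id id) hd ?_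
    have e2 : (A ++ [u]).toFinset = insert u K := by
      ext x; simp [← hA]
    rw [← e2]
    exact ⟨_, fun x hx y hy h => idx_injOn _ (List.mem_toFinset.1 hx) (List.mem_toFinset.1 hy) h,
      (vl_iff.1 hvl).2.1⟩
  · rw [← hK] at h
    obtain ⟨A, hA, hvl⟩ := dp_sound (by simp [huK, hvK]) h
    have hvl' : VL G u v ([u] ++ (A ++ [v])) := VL.rot (by simpa using hvl)
    have e2 : ([u] ++ (A ++ [v])).toFinset = insert u (insert v K) := by
      ext x; simp [← hA]
    have hvA : v ∉ A := fun h => hvK (hA ▸ List.mem_toFinset.2 h)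
    have iv : ([u] ++ (A ++ [v])).idxOf v = A.length + 1 := by
      simp [List.idxOf_cons_ne _ huv, List.idxOf_append, hvA]
    have iu : ([u] ++ (A ++ [v])).idxOf u = 0 := by simp
    have hcl : Clean G K u v := by
      obtain ⟨-, k1, k2, k3⟩ := vl_iff.1 hvl'
      rw [e2] at k1 k2 k3
      refine ⟨_, ?_, k1, k2, k3, by simp only [iu, iv]; omega, fun x hx => ?_⟩
      · rw [← e2]
        exact fun x hx y hy h => idx_injOn _ (List.mem_toFinset.1 hx) (List.mem_toFinset.1 hy) h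
      · have hxA : x ∈ A := List.mem_toFinset.1 (hA ▸ hx)
        have hxu : u ≠ x := fun h => huK (h ▸ hx)
        have := List.idxOf_lt_length_of_mem hxA
        have ix : ([u] ++ (A ++ [v])).idxOf x = A.idxOf x + 1 := by
          simp [List.idxOf_cons_ne _ hxu, List.idxOf_append, hxA]
        simp only [iu, iv, ix]
        omega
    have hm : ∀ K' ∈ (FC G U u v).erase K, K' ≠ K ∧ ∃ y, Full G U u v y ∧
        K' = comp G (U \ {u, v}) y := by
      intro K' hK'
      obtain ⟨h1, h2⟩ := Finset.mem_erase.1 hK'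
      obtain ⟨y, hy, rfl⟩ := Finset.mem_image.1 h2
      exact ⟨h1, y, (Finset.mem_filter.1 hy).2, rfl⟩
    rw [← e]
    refine insert_clean (F := (FC G U u v).erase K) (Finset.mem_sdiff.2 ⟨hu, huK⟩)
      (Finset.mem_sdiff.2 ⟨hv, hvK⟩) huv (fun x hx h => (Finset.mem_sdiff.1 h).2 hx) hc hcl
      (fam_comp (W := U \ {u, v}) (fun K' hK' => ?_) (fun K' hK' x hx => ?_)) (fun K' hK' => ?_)
      (fun K' hK' => ?_) (fun K' hK' x hx y hy hxy => ?_) ?_ hd
    · obtain ⟨-, y, -, h⟩ := hm K' hK'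
      exact ⟨y, h⟩
    · obtain ⟨h1, y, -, rfl⟩ := hm K' hK'
      exact Finset.mem_sdiff.2 ⟨(comp_prop hx).1, fun h =>
        h1 ((comp_eq_of_mem hx).symm.trans (comp_eq_of_mem h))⟩
    · obtain ⟨-, y, h, rfl⟩ := hm K' hK'
      exact ⟨fun h => (comp_prop h).2.1 rfl, h.1⟩
    · obtain ⟨-, y, h, rfl⟩ := hm K' hK'
      exact ⟨fun h => (comp_prop h).2.2 rfl, h.2⟩
    · obtain ⟨-, y', h, rfl⟩ := hm K' hK'
      exact comp_cl hx (Finset.mem_sdiff.1 hy).1 hxy
    · have := Finset.pred_card_le_card_erase (s := FC G U u v) (a := K)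
      omega

variable (G) in
/-- A piece that could be removed. -/
def Spot (U : Finset ℕ) (u v z : ℕ) : Prop :=
  u ∈ U ∧ v ∈ U ∧ z ∈ U ∧ z ≠ u ∧ z ≠ v ∧
    (u = v ∨ (u ≠ v ∧ 13 ≤ (FC G U u v).card ∧ Clean G (comp G (U \ {u, v}) z) u v))

theorem few_comps {U : Finset ℕ} (hU : Drawable G U) {u v z : ℕ} (hu : u ∈ U) (hv : v ∈ U)
    (hmin : ∀ u' v' z', Spot G U u' v' z' →
      (comp G (U \ {u, v}) z).card ≤ (comp G (U \ {u', v'}) z').card)
    (X : Finset ℕ) (hX : X.card ≤ 50) :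
    ((comp G (U \ {u, v}) z \ X).image (comp G (comp G (U \ {u, v}) z \ X))).card ≤
      12 * 2 ^ 52 := by
  obtain ⟨p, hp, hval⟩ := hU
  set K := comp G (U \ {u, v}) z with hK
  by_cases hXK : K \ X = K
  · rw [hXK]
    refine (Finset.card_le_one.2 fun C hC C' hC' => ?_).trans (by norm_num)
    obtain ⟨y, hy, rfl⟩ := Finset.mem_image.1 hC
    obtain ⟨y', hy', rfl⟩ := Finset.mem_image.1 hC'
    rw [comp_eq_of_conn conn_comp le_rfl (fun _ _ _ h _ => h) hy,
      comp_eq_of_conn conn_comp le_rfl (fun _ _ _ h _ => h) hy']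
  have hlt : (K \ X).card < K.card :=
    Finset.card_lt_card (Finset.ssubset_iff_subset_ne.2 ⟨Finset.sdiff_subset, hXK⟩)
  have hKU : K ⊆ U := fun x hx => (comp_prop hx).1
  let N : Finset ℕ → Finset ℕ := fun C =>
    (insert u (insert v X)).filter fun x => x ∈ U ∧ x ∉ C ∧ ∃ y ∈ C, G.Adj x y
  have hc : (insert u (insert v X)).powerset.card ≤ 2 ^ 52 := by
    rw [Finset.card_powerset]
    refine Nat.pow_le_pow_right (by norm_num) ?_
    have := Finset.card_insert_le u (insert v X)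
    have := Finset.card_insert_le v X
    omega
  refine (Finset.card_le_mul_card_image_of_maps_to (f := N) (t := (insert u (insert v X)).powerset)
    (fun C _ => Finset.mem_powerset.2 (Finset.filter_subset _ _)) 12 fun T _ => ?_).trans
    (Nat.mul_le_mul_left _ hc)
  set F := ((K \ X).image (comp G (K \ X))).filter fun C => N C = T with hF
  have hm : ∀ C ∈ F, N C = T ∧ ∃ y ∈ C, C = comp G (K \ X) y := by
    intro C hC
    obtain ⟨h1, h2⟩ := Finset.mem_filter.1 hC
    obtain ⟨y, hy, rfl⟩ := Finset.mem_image.1 h1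
    exact ⟨h2, y, self_mem_comp hy, rfl⟩
  have hsub : ∀ C ∈ F, C ⊆ K \ X := fun C hC => by
    obtain ⟨-, y, -, rfl⟩ := hm C hC
    exact comp_subset
  have hCU : ∀ C ∈ F, C ⊆ U := fun C hC => ((hsub C hC).trans Finset.sdiff_subset).trans hKU
  have hfam : Fam G U F := fam_comp (W := K \ X)
    (fun C hC => let ⟨_, y, _, h⟩ := hm C hC; ⟨y, h⟩) hCU
  have hatt : ∀ a ∈ T, Att G F a := fun a ha C hC => by
    rw [← (hm C hC).1] at ha
    exact (Finset.mem_filter.1 ha).2.2
  have hTU : ∀ C ∈ F, ∀ a ∈ T, a ∈ U := fun C hC a ha => by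
    rw [← (hm C hC).1] at ha
    exact (Finset.mem_filter.1 ha).2.1
  have hcl : ∀ C ∈ F, ∀ x ∈ C, ∀ y ∈ U, G.Adj x y → y ∈ C ∨ y ∈ T := by
    intro C hC x hx y hy hxy
    by_cases h : y ∈ C
    · exact Or.inl h
    · right
      obtain ⟨h1, w, -, h2⟩ := hm C hC
      rw [← h1]
      refine Finset.mem_filter.2 ⟨?_, hy, h, x, hx, hxy.symm⟩
      simp only [Finset.mem_insert]
      rcases comp_cl (Finset.mem_sdiff.1 (hsub C hC hx)).1 hy hxy with h3 | h3 | h3
      · refine Or.inr (Or.inr (by_contra fun h4 => h ?_))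
        rw [h2] at hx ⊢
        exact comp_closed hx (Finset.mem_sdiff.2 ⟨h3, h4⟩) hxy
      · exact Or.inl h3
      · exact Or.inr (Or.inl h3)
  have hcomp : ∀ a b, T ⊆ {a, b} → ∀ C ∈ F, a ∉ C → b ∉ C → ∀ y ∈ C,
      comp G (U \ {a, b}) y = C := by
    intro a b hT C hC ha hb y hy
    refine comp_eq_of_conn (hfam.conn C hC) (fun x hx => Finset.mem_sdiff.2 ⟨hCU C hC hx, ?_⟩)
      (fun x hx w hw hxw => ?_) hy
    · simp only [Finset.mem_insert, Finset.mem_singleton]
      rintro (rfl | rfl)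
      · exact ha hx
      · exact hb hx
    · exact (hcl C hC x hx w (Finset.mem_sdiff.1 hw).1 hxw).resolve_right
        fun h => (Finset.mem_sdiff.1 hw).2 (hT h)
  have hsmall : ∀ a b, ∀ C ∈ F, ∀ y, comp G (U \ {a, b}) y = C → ¬ Spot G U a b y := by
    intro a b C hC y e hs
    have h1 := hmin a b y hs
    have h2 := Finset.card_le_card (hsub C hC)
    rw [e] at h1
    omega
  by_contra hcon
  obtain ⟨C0, hC0⟩ := Finset.card_pos.1 (show 0 < F.card by omega)
  rcases (show T.card ≤ 1 ∨ T.card = 2 ∨ 2 < T.card by omega) with h | h | h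
  · obtain ⟨w, hw, hwC, hT⟩ : ∃ w ∈ U, w ∉ C0 ∧ T ⊆ {w, w} := by
      rcases T.eq_empty_or_nonempty with rfl | ⟨w, hw⟩
      · exact ⟨u, hu, fun h => (comp_prop (Finset.mem_sdiff.1 (hsub C0 hC0 h)).1).2.1 rfl, by simp⟩
      · exact ⟨w, hTU C0 hC0 w hw, (hatt w hw C0 hC0).1, fun x hx => by
          simp [Finset.card_le_one.1 h x hx w hw]⟩
    obtain ⟨-, y, hy, -⟩ := hm C0 hC0
    have hne : y ≠ w := fun e => hwC (e ▸ hy)
    exact hsmall w w C0 hC0 y (hcomp w w hT C0 hC0 hwC hwC y hy)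
      ⟨hw, hw, hCU C0 hC0 hy, hne, hne, Or.inl rfl⟩
  · obtain ⟨a, b, hab, rfl⟩ := Finset.card_eq_two.1 h
    have ha := hatt a (by simp)
    have hb := hatt b (by simp)
    have haU := hTU C0 hC0 a (by simp)
    have hbU := hTU C0 hC0 b (by simp)
    have k := good_card hp hval hfam haU hbU hab ha hb
    set F' := F.filter fun K => Good1 G U p a b K ∧ Good1 G U p b a K with hF'
    have hs : F' ⊆ F := Finset.filter_subset _ _
    have hg : ∀ K ∈ F', Good1 G U p a b K ∧ Good1 G U p b a K :=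
      fun K hK => (Finset.mem_filter.1 hK).2
    have nc := no_cross hp hval (hfam.mono hs) haU hbU (ha.mono hs) (hb.mono hs) hg (by omega)
    obtain ⟨C, hC⟩ := Finset.card_pos.1 (show 0 < F'.card by omega)
    have hCF := hs hC
    obtain ⟨-, y, hy, -⟩ := hm C hCF
    have e := hcomp a b le_rfl C hCF (ha C hCF).1 (hb C hCF).1 y hy
    refine hsmall a b C hCF y e ⟨haU, hbU, hCU C hCF hy, fun e => (ha C hCF).1 (e ▸ hy),
      fun e => (hb C hCF).1 (e ▸ hy), Or.inr ⟨hab, le_trans (by omega) (Finset.card_le_card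
        (show F ⊆ FC G U a b from fun C' hC' => ?_)), ?_⟩⟩
    · obtain ⟨-, y', hy', -⟩ := hm C' hC'
      have e' := hcomp a b le_rfl C' hC' (ha C' hC').1 (hb C' hC').1 y' hy'
      refine Finset.mem_image.2 ⟨y', Finset.mem_filter.2 ⟨comp_subset (e' ▸ hy'), ?_⟩, e'⟩
      unfold Full
      rw [e']
      exact ⟨(ha C' hC').2, (hb C' hC').2⟩
    · rw [e]
      exact clean_of_good hp hval (hCU C hCF) (hfam.conn C hCF) haU hbU hab (ha C hCF).1
        (hb C hCF).1 hy (hg C hC).1 (hg C hC).2 nc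
  · obtain ⟨a, b, c, ha, hb, hc', n1, n2, n3⟩ := Finset.two_lt_card_iff.1 h
    have := three_att hp hval hfam (hTU C0 hC0 a ha) (hTU C0 hC0 b hb) (hTU C0 hC0 c hc') n1 n2 n3
      (hatt a ha) (hatt b hb) (hatt c hc')
    omega

theorem rem_complete : ∃ b r, ∀ (G : SimpleGraph ℕ) (f : ℕ) (U : Finset ℕ), f ∉ U →
    Drawable G U → 2 ≤ U.card → ∃ u ∈ U, ∃ v ∈ U, ∃ z ∈ U, Rem G b r f U u v z := by
  obtain ⟨r, hr⟩ := dp_complete
  refine ⟨50 + 12 * 2 ^ 52, r, fun G f U hf hU h2 => ?_⟩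
  have hex : ∃ n, ∃ u v z, Spot G U u v z ∧ (comp G (U \ {u, v}) z).card = n := by
    obtain ⟨a, ha, b, hb, hab⟩ := Finset.one_lt_card.1 h2
    exact ⟨_, a, a, b, ⟨ha, ha, hb, hab.symm, hab.symm, Or.inl rfl⟩, rfl⟩
  obtain ⟨u, v, z, ⟨hu, hv, hz, hzu, hzv, hs⟩, hn⟩ := Nat.find_spec hex
  have hb := few_comps hU hu hv (z := z) fun u' v' z' h => hn ▸ Nat.find_min' hex ⟨u', v', z', h, rfl⟩
  refine ⟨u, hu, v, hv, z, hz, hzu, hzv, ?_⟩
  set K := comp G (U \ {u, v}) z with hK
  have hKU : K ⊆ U := fun x hx => (comp_prop hx).1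
  have huK : u ∉ K := fun h => (comp_prop h).2.1 rfl
  have hvK : v ∉ K := fun h => (comp_prop h).2.2 rfl
  have hzK : z ∈ K := self_mem_comp (by simp [hz, hzu, hzv])
  rcases hs with rfl | ⟨huv, h13, p, hp, k1, k2, k3, k4, k5⟩
  · refine Or.inl ⟨rfl, ?_⟩
    obtain ⟨p0, hp0, hv0⟩ := hU.mono (Finset.insert_subset hu hKU)
    obtain ⟨p, hp, e, mp⟩ := exists_rot hp0 (Finset.mem_insert_self u K)
    obtain ⟨L, h1, h2, h3⟩ := exists_sorted (U := K) (hp.mono (by simp))
    have hL : ∀ x, x ∈ L ↔ x ∈ K := fun x => by rw [← h2, List.mem_toFinset]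
    have e2 : ([u] ++ L).toFinset = insert u K := by simp [h2]
    have hc : Con1 G (insert u K) p f f := fun a ha _ _ _ _ _ _ _ _ _ h =>
      absurd (Finset.insert_subset hu hKU (h ▸ ha)) hf
    have hvl : VL G f f ([u] ++ L) := vl_of_pairwise (p := p)
      (List.pairwise_cons.2 ⟨fun x hx => mp x (Finset.mem_insert_of_mem ((hL x).1 hx))
        fun h => huK (h ▸ (hL x).1 hx), h3⟩) (e2 ▸ hv0.congr e) (e2 ▸ hc) (e2 ▸ hc)
    rw [← h2] at hb ⊢
    exact hr G _ f f L [u] (List.ne_nil_of_mem ((hL z).2 hzK)) (by simp)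
      (fun h => hf (hKU ((hL f).1 h))) (fun h => hf (hKU ((hL f).1 h))) hvl.rot hb
  · refine Or.inr ⟨huv, h13, ?_⟩
    obtain ⟨L, h1, h2, h3⟩ := exists_sorted (U := K) (hp.mono (fun x hx => by
      simp only [Finset.coe_insert, Set.mem_insert_iff]; exact Or.inr (Or.inr hx)))
    have hL : ∀ x, x ∈ L ↔ x ∈ K := fun x => by rw [← h2, List.mem_toFinset]
    have e2 : ([u] ++ (L ++ [v])).toFinset = insert u (insert v K) := by
      ext x; simp [hL]
    have hvl : VL G u v ([u] ++ (L ++ [v])) := vl_of_pairwise (p := p)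
      (List.pairwise_cons.2 ⟨fun x (hx : x ∈ L ++ [v]) => by
        rcases List.mem_append.1 hx with hx | hx
        · exact (k5 x ((hL x).1 hx)).1
        · rw [List.mem_singleton.1 hx]; exact k4,
        (List.pairwise_append (l₁ := L) (l₂ := [v])).2 ⟨h3, by simp, fun x hx y hy => by
          rw [List.mem_singleton.1 hy]; exact (k5 x ((hL x).1 hx)).2⟩⟩)
      (e2 ▸ k1) (e2 ▸ k2) (e2 ▸ k3)
    rw [← h2] at hb ⊢
    exact hr G _ u v L [v, u] (List.ne_nil_of_mem ((hL z).2 hzK)) (by simp)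
      (fun h => huK ((hL u).1 h)) (fun h => hvK ((hL v).1 h)) (by simpa using hvl.rot) hb

theorem mem_rems {b r f U w} : w ∈ rems G b r f U ↔
    w.1 ∈ U ∧ w.2.1 ∈ U ∧ w.2.2 ∈ U ∧ Rem G b r f U w.1 w.2.1 w.2.2 := by
  obtain ⟨u, v, z⟩ := w
  simp [rems, and_assoc]

theorem loopStep_cases {b r f U} : (rems G b r f U = [] ∧ loopStep G b r f U = U) ∨
    ∃ u ∈ U, ∃ v ∈ U, ∃ z ∈ U, Rem G b r f U u v z ∧
      loopStep G b r f U = U \ comp G (U \ {u, v}) z := by
  unfold loopStep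
  split_ifs with h
  · exact Or.inl ⟨h, rfl⟩
  · have : (rems G b r f U).headD (0, 0, 0) ∈ rems G b r f U := by
      cases hr : rems G b r f U with
      | nil => exact absurd hr h
      | cons a l => simp
    obtain ⟨h1, h2, h3, h4⟩ := mem_rems.1 this
    exact Or.inr ⟨_, h1, _, h2, _, h3, h4, rfl⟩

theorem loopStep_subset {b r f U} : loopStep G b r f U ⊆ U := by
  rcases loopStep_cases (G := G) (b := b) (r := r) (f := f) (U := U) with h | ⟨u, _, v, _, z, _, _, h⟩
  · rw [h.2]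
  · rw [h]; exact Finset.sdiff_subset

theorem drawable_of_card_le {U : Finset ℕ} (h : U.card ≤ 1) : Drawable G U :=
  ⟨id, Function.injective_id.injOn, fun a ha b hb _ _ _ _ _ _ _ _ hab =>
    absurd (Finset.card_le_one.1 h a ha b hb) hab.ne⟩

theorem loop_correct : ∃ b r, ∀ (G : SimpleGraph ℕ) (f : ℕ) (U : Finset ℕ), f ∉ U →
    (((loopStep G b r f)^[U.card] U).card ≤ 1 ↔ Drawable G U) := by
  obtain ⟨b, r, h⟩ := rem_complete
  refine ⟨b, r, fun G f U hf => ⟨fun h1 => ?_, fun h1 => ?_⟩⟩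
  · have : ∀ n U, Drawable G ((loopStep G b r f)^[n] U) → Drawable G U := by
      intro n
      induction n with
      | zero => exact fun U h => h
      | succ n ih =>
        intro U h
        have h2 := ih _ h
        rcases loopStep_cases (G := G) (b := b) (r := r) (f := f) (U := U) with
          h3 | ⟨u, hu, v, hv, z, hz, h3, h4⟩
        · exact h3.2 ▸ h2
        · exact rem_sound hu hv h3 (h4 ▸ h2)
    exact this _ _ (drawable_of_card_le h1)
  · have : ∀ n U, f ∉ U → Drawable G U → U.card ≤ n + 1 →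
        ((loopStep G b r f)^[n] U).card ≤ 1 := by
      intro n
      induction n with
      | zero => exact fun U _ _ h => h
      | succ n ih =>
        intro U hf hU hc
        refine ih _ (fun h => hf (loopStep_subset h)) (hU.mono loopStep_subset) ?_
        by_cases h2 : 2 ≤ U.card
        · rcases loopStep_cases (G := G) (b := b) (r := r) (f := f) (U := U) with
            h3 | ⟨u, hu, v, hv, z, hz, h3, h4⟩
          · obtain ⟨u, hu, v, hv, z, hz, h5⟩ := h G f U hf hU h2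
            have : (u, v, z) ∈ rems G b r f U := mem_rems.2 ⟨hu, hv, hz, h5⟩
            rw [h3.1] at this
            simp at this
          · have : loopStep G b r f U ⊂ U := by
              refine Finset.ssubset_iff_subset_ne.2 ⟨loopStep_subset, fun e => ?_⟩
              rw [← e, h4] at hz
              exact (Finset.mem_sdiff.1 hz).2
                (self_mem_comp (by simp [(Finset.mem_sdiff.1 hz).1, h3.1, h3.2.1]))
            have := Finset.card_lt_card this
            omega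
        · have := Finset.card_le_card (loopStep_subset (G := G) (b := b) (r := r) (f := f) (U := U))
          omega
    exact this _ _ hf h1 (by omega)

end Pool.Agent.Lib.MP_f9c574_lc
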