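import Pool.Agent.Lib.MP_f9c574_lc.Loop
import Pool.Agent.Shared.PolyTime.Extra

/-!
The algorithm runs in polynomial time.
-/

set_option linter.unusedVariables false

namespace Pool.Agent.Lib.MP_f9c574_lc

open Classical N68a2faeb Pool.Agent.Shared.PolyTime N487b59b3

/-- The graph of adjacency lists on `ℕ`. -/
def natGraph (A : List (List ℕ)) : SimpleGraph ℕ :=
  SimpleGraph.fromRel fun i j => i < A.length ∧ j < A.length ∧ j ∈ A.getD i []

variable {α : Type} [N487b59b3 α] {A : α → List (List ℕ)}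

@[fun_prop]
theorem adj_pt {a b : α → ℕ} {inst : ∀ x, Decidable ((natGraph (A x)).Adj (a x) (b x))}
    (hA : IsPolyTime A) (ha : IsPolyTime a) (hb : IsPolyTime b) :
    IsPolyTime (fun x => @decide ((natGraph (A x)).Adj (a x) (b x)) (inst x)) :=
  IsPolyTime.decide_congr (p := fun x => a x ≠ b x ∧
    ((a x < (A x).length ∧ b x < (A x).length ∧ b x ∈ (A x).getD (a x) []) ∨
      (b x < (A x).length ∧ a x < (A x).length ∧ a x ∈ (A x).getD (b x) [])))
    (inst := fun _ => inferInstance) (by fun_prop) (fun _ => Iff.rfl)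

@[fun_prop]
theorem il_pt {a b c d : α → ℕ} {inst : ∀ x, Decidable (Il (a x) (b x) (c x) (d x))}
    (ha : IsPolyTime a) (hb : IsPolyTime b) (hc : IsPolyTime c) (hd : IsPolyTime d) :
    IsPolyTime (fun x => @decide (Il (a x) (b x) (c x) (d x)) (inst x)) :=
  IsPolyTime.decide_congr (p := fun x =>
    (a x < c x ∧ c x < b x ∧ (d x < a x ∨ b x < d x)) ∨
    (b x < c x ∧ c x < a x ∧ (d x < b x ∨ a x < d x)) ∨
    (a x < d x ∧ d x < b x ∧ (c x < a x ∨ b x < c x)) ∨
    (b x < d x ∧ d x < a x ∧ (c x < b x ∨ a x < c x)))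
    (inst := fun _ => inferInstance) (by fun_prop) (fun _ => Iff.rfl)

@[fun_prop]
theorem bad_pt {l : α → List ℕ} {s t a b c d c' d' : α → ℕ}
    {inst : ∀ x, Decidable (Bad (natGraph (A x)) (fun y => (l x).idxOf y) (s x) (t x) (a x) (b x)
      (c x) (d x) (c' x) (d' x))} (hA : IsPolyTime A) (hl : IsPolyTime l) (hs : IsPolyTime s)
    (ht : IsPolyTime t) (ha : IsPolyTime a) (hb : IsPolyTime b) (hc : IsPolyTime c)
    (hd : IsPolyTime d) (hc' : IsPolyTime c') (hd' : IsPolyTime d') :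
    IsPolyTime (fun x => @decide (Bad (natGraph (A x)) (fun y => (l x).idxOf y) (s x) (t x) (a x)
      (b x) (c x) (d x) (c' x) (d' x)) (inst x)) :=
  IsPolyTime.decide_congr (p := fun x =>
    (natGraph (A x)).Adj (a x) (b x) ∧ (natGraph (A x)).Adj (c x) (d x) ∧
    (natGraph (A x)).Adj (c' x) (d' x) ∧
    Il ((l x).idxOf (a x)) ((l x).idxOf (b x)) ((l x).idxOf (c x)) ((l x).idxOf (d x)) ∧
    Il ((l x).idxOf (a x)) ((l x).idxOf (b x)) ((l x).idxOf (c' x)) ((l x).idxOf (d' x)) ∧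
    (¬ (c x = c' x ∨ c x = d' x ∨ d x = c' x ∨ d x = d' x) ∨
      (a x = s x ∧ ¬ (c x = t x ∨ d x = t x)) ∨ (a x = t x ∧ ¬ (c x = s x ∨ d x = s x))))
    (inst := fun _ => inferInstance) (by fun_prop) (fun _ => Iff.rfl)

@[fun_prop]
theorem vl_pt {l : α → List ℕ} {s t : α → ℕ}
    {inst : ∀ x, Decidable (VL (natGraph (A x)) (s x) (t x) (l x))} (hA : IsPolyTime A)
    (hs : IsPolyTime s) (ht : IsPolyTime t) (hl : IsPolyTime l) :
    IsPolyTime (fun x => @decide (VL (natGraph (A x)) (s x) (t x) (l x)) (inst x)) :=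
  IsPolyTime.decide_congr (p := fun x => (l x).Nodup ∧ ∀ a ∈ l x, ∀ b ∈ l x, ∀ c ∈ l x,
    ∀ d ∈ l x, ∀ c' ∈ l x, ∀ d' ∈ l x,
      ¬ Bad (natGraph (A x)) (fun y => (l x).idxOf y) (s x) (t x) a b c d c' d')
    (inst := fun _ => inferInstance) (by fun_prop) (fun _ => Iff.rfl)

@[fun_prop]
theorem comp_pt {W : α → Finset ℕ} {z : α → ℕ} (hA : IsPolyTime A) (hW : IsPolyTime W)
    (hz : IsPolyTime z) : IsPolyTime (fun x => comp (natGraph (A x)) (W x) (z x)) := by
  unfold comp
  refine IsPolyTime.finsetFilter ?_ hW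
  refine (IsPolyTime.decide_reflTransGen (V := fun y : α × ℕ => (W y.1).sort (· ≤ ·))
    (R := fun y a b => a ∈ W y.1 ∧ (natGraph (A y.1)).Adj a b) (u := fun y => z y.1)
    (v := fun y => y.2) (inst := fun _ => inferInstance) (by fun_prop) (by fun_prop) (by fun_prop)
    (by fun_prop)).decide_congr fun y => ?_
  have : (fun a b => b ∈ (W y.1).sort (· ≤ ·) ∧ a ∈ W y.1 ∧ (natGraph (A y.1)).Adj a b) =
      AdjIn (natGraph (A y.1)) (W y.1) := by
    funext a b
    simp [AdjIn]
  rw [this]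

@[fun_prop]
theorem listsLe_pt (k : ℕ) {H : α → List ℕ} (hH : IsPolyTime H) :
    IsPolyTime (fun x => listsLe k (H x)) := by
  induction k generalizing α with
  | zero => unfold listsLe; fun_prop
  | succ k ih =>
    unfold listsLe
    have h1 : IsPolyTime (fun y : α × ℕ => listsLe k (H y.1)) := ih (by fun_prop)
    fun_prop

@[fun_prop]
theorem piece_pt {K : α → Finset ℕ} {X : α → List ℕ} {z : α → ℕ} (hA : IsPolyTime A)
    (hK : IsPolyTime K) (hX : IsPolyTime X) (hz : IsPolyTime z) :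
    IsPolyTime (fun x => piece (natGraph (A x)) (K x) (X x) (z x)) := by
  unfold piece; fun_prop

@[fun_prop]
theorem cand_pt (c b r : ℕ) {K : α → Finset ℕ} {HL : α → List ℕ} (hA : IsPolyTime A)
    (hK : IsPolyTime K) (hH : IsPolyTime HL) :
    IsPolyTime (fun x => cand (natGraph (A x)) c b r (K x) (HL x)) := by
  unfold cand; fun_prop

@[fun_prop]
theorem ok_pt {s t : α → ℕ} {K : α → Finset ℕ} {HL : α → List ℕ}
    {T : α → List (Finset ℕ × List ℕ)} {e : α → Finset ℕ × List ℕ}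
    {inst : ∀ x, Decidable (Ok (natGraph (A x)) (s x) (t x) (K x) (HL x) (T x) (e x))}
    (hA : IsPolyTime A) (hs : IsPolyTime s) (ht : IsPolyTime t) (hK : IsPolyTime K)
    (hH : IsPolyTime HL) (hT : IsPolyTime T) (he : IsPolyTime e) :
    IsPolyTime (fun x => @decide (Ok (natGraph (A x)) (s x) (t x) (K x) (HL x) (T x) (e x))
      (inst x)) :=
  IsPolyTime.decide_congr (p := fun x => (∀ y ∈ (e x).2, y ∈ (e x).1) ∧ (e x).1 ⊆ K x ∧
    ((∃ z ∈ (e x).1, (e x).1 = {z} ∧ (e x).2 = [z]) ∨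
    ∃ e1 ∈ T x, ∃ e2 ∈ T x, (e x).1 = e1.1 ∪ e2.1 ∧ Disjoint e1.1 e2.1 ∧
      ∀ B ∈ listsLe 6 (HL x), (∀ y ∈ B, ¬ y ∈ (e x).1) →
        VL (natGraph (A x)) (s x) (t x) ((e x).2 ++ B) →
        VL (natGraph (A x)) (s x) (t x) (e1.2 ++ e2.2 ++ B)))
    (inst := fun _ => inferInstance) (by fun_prop) (fun _ => Iff.rfl)

@[fun_prop]
theorem table_pt (c b r : ℕ) {s t n : α → ℕ} {K : α → Finset ℕ} {HL : α → List ℕ}
    (hA : IsPolyTime A) (hs : IsPolyTime s) (ht : IsPolyTime t) (hK : IsPolyTime K)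
    (hH : IsPolyTime HL) (hn : IsPolyTime n) (hn' : PolyBdd n) :
    IsPolyTime (fun x => table (natGraph (A x)) c b r (s x) (t x) (K x) (HL x) (n x)) := by
  unfold table
  exact IsPolyTime.iterate_inv
    (f := fun x => dpStep (natGraph (A x)) c b r (s x) (t x) (K x) (HL x)) (g := fun _ => [])
    (by unfold dpStep; fun_prop) (by fun_prop) hn hn'
    (fun x T => T.Sublist (cand (natGraph (A x)) c b r (K x) (HL x))) (fun x => List.nil_sublist _)
    (fun x T _ => List.filter_sublist) (fun x => bsize (cand (natGraph (A x)) c b r (K x) (HL x)))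
    (by fun_prop) (fun x T h => bsize_sublist h)

@[fun_prop]
theorem dp_pt (c b r : ℕ) {s t : α → ℕ} {K : α → Finset ℕ} {tl : α → List ℕ}
    {inst : ∀ x, Decidable (DP (natGraph (A x)) c b r (s x) (t x) (K x) (tl x))}
    (hA : IsPolyTime A) (hs : IsPolyTime s) (ht : IsPolyTime t) (hK : IsPolyTime K)
    (hH : IsPolyTime tl) :
    IsPolyTime (fun x => @decide (DP (natGraph (A x)) c b r (s x) (t x) (K x) (tl x)) (inst x)) :=
  IsPolyTime.decide_congr (p := fun x => ∃ e ∈ table (natGraph (A x)) c b r (s x) (t x) (K x)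
    ((K x).sort (· ≤ ·) ++ tl x) (K x).card, e.1 = K x ∧
      VL (natGraph (A x)) (s x) (t x) (e.2 ++ tl x))
    (inst := fun _ => inferInstance) (by fun_prop) (fun _ => Iff.rfl)

@[fun_prop]
theorem pair_pt {u v : α → ℕ} (hu : IsPolyTime u) (hv : IsPolyTime v) :
    IsPolyTime (fun x => ({u x, v x} : Finset ℕ)) := by fun_prop

@[fun_prop]
theorem fc_pt {U : α → Finset ℕ} {u v : α → ℕ} (hA : IsPolyTime A) (hU : IsPolyTime U)
    (hu : IsPolyTime u) (hv : IsPolyTime v) :
    IsPolyTime (fun x => (FC (natGraph (A x)) (U x) (u x) (v x)).card) := by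
  refine IsPolyTime.of_eq (f := fun x => ((((U x \ {u x, v x}).filter fun z =>
    (∃ y ∈ comp (natGraph (A x)) (U x \ {u x, v x}) z, (natGraph (A x)).Adj (u x) y) ∧
      ∃ y ∈ comp (natGraph (A x)) (U x \ {u x, v x}) z, (natGraph (A x)).Adj (v x) y).sort
        (· ≤ ·)).map (comp (natGraph (A x)) (U x \ {u x, v x}))).dedup.length) (by fun_prop)
    fun x => ?_
  rw [← List.card_toFinset]
  congr 1
  ext C
  simp [FC, Full]

@[fun_prop]
theorem rem_pt (b r : ℕ) {U : α → Finset ℕ} {f u v z : α → ℕ}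
    {inst : ∀ x, Decidable (Rem (natGraph (A x)) b r (f x) (U x) (u x) (v x) (z x))}
    (hA : IsPolyTime A) (hf : IsPolyTime f) (hU : IsPolyTime U) (hu : IsPolyTime u)
    (hv : IsPolyTime v) (hz : IsPolyTime z) :
    IsPolyTime (fun x => @decide (Rem (natGraph (A x)) b r (f x) (U x) (u x) (v x) (z x))
      (inst x)) :=
  IsPolyTime.decide_congr (p := fun x => z x ≠ u x ∧ z x ≠ v x ∧
    ((u x = v x ∧ DP (natGraph (A x)) 50 b r (f x) (f x)
      (comp (natGraph (A x)) (U x \ {u x, v x}) (z x)) [u x]) ∨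
    (u x ≠ v x ∧ 13 ≤ (FC (natGraph (A x)) (U x) (u x) (v x)).card ∧
      DP (natGraph (A x)) 50 b r (u x) (v x)
        (comp (natGraph (A x)) (U x \ {u x, v x}) (z x)) [v x, u x])))
    (inst := fun _ => inferInstance) (by fun_prop) (fun _ => Iff.rfl)

@[fun_prop]
theorem rems_pt (b r : ℕ) {U : α → Finset ℕ} {f : α → ℕ} (hA : IsPolyTime A) (hf : IsPolyTime f)
    (hU : IsPolyTime U) : IsPolyTime (fun x => rems (natGraph (A x)) b r (f x) (U x)) := by
  unfold rems; fun_prop

@[fun_prop]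
theorem loopStep_pt (b r : ℕ) {U : α → Finset ℕ} {f : α → ℕ} (hA : IsPolyTime A)
    (hf : IsPolyTime f) (hU : IsPolyTime U) :
    IsPolyTime (fun x => loopStep (natGraph (A x)) b r (f x) (U x)) := by
  unfold loopStep; fun_prop

theorem bsize_subset {S T : Finset ℕ} (h : S ⊆ T) : bsize S ≤ bsize T :=
  bsize_sublist (l := S.sort (· ≤ ·)) (l' := T.sort (· ≤ ·))
    (List.sublist_of_subperm_of_pairwise (r := (· ≤ ·))
      ((Finset.sort_nodup S _).subperm fun x hx => by simpa using h (by simpa using hx))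
      (Finset.pairwise_sort _ _) (Finset.pairwise_sort _ _))

/-- Drawability is decidable in polynomial time. -/
theorem drawable_pt : ∃ d : List (List ℕ) → Bool, IsPolyTime d ∧
    ∀ A, d A = true ↔ Drawable (natGraph A) (Finset.range A.length) := by
  obtain ⟨b, r, h⟩ := loop_correct
  refine ⟨fun A => decide (((loopStep (natGraph A) b r A.length)^[A.length]
    (Finset.range A.length)).card ≤ 1), ?_, fun A => ?_⟩
  · have := IsPolyTime.iterate_inv (f := fun A : List (List ℕ) => loopStep (natGraph A) b r A.length)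
      (g := fun A => Finset.range A.length) (n := fun A => A.length) (by fun_prop) (by fun_prop)
      (by fun_prop) (by fun_prop) (fun A U => U ⊆ Finset.range A.length) (fun _ => le_rfl)
      (fun A U hU => loopStep_subset.trans hU) (fun A => bsize (Finset.range A.length))
      (by fun_prop) (fun A U hU => bsize_subset hU)
    fun_prop
  · have := h (natGraph A) A.length (Finset.range A.length) (by simp)
    rw [Finset.card_range] at this
    rw [decide_eq_true_eq, this]

end Pool.Agent.Lib.MP_f9c574_lc
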