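import Pool.Agent.Lib.MP_f9c574_lc.Defs
import Pool.Agent.Lib.MP_f9c574_lc.Grid

/-!
From a drawing with all vertices on the unbounded face to a linear order of the vertices.
-/

set_option linter.unusedVariables false

namespace Pool.Agent.Lib.MP_f9c574_lc

open Set Metric

theorem exists_pos_forall {ι : Type} [Finite ι] (P : ι → ℝ → Prop)
    (mono : ∀ i a b, a ≤ b → P i b → P i a) (h : ∀ i, ∃ δ, 0 < δ ∧ P i δ) :
    ∃ δ, 0 < δ ∧ ∀ i, P i δ := by
  choose δ h1 h2 using h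
  cases isEmpty_or_nonempty ι with
  | inl h => exact ⟨1, one_pos, fun i => h.elim i⟩
  | inr h =>
    obtain ⟨i, hi⟩ := Finite.exists_min δ
    exact ⟨δ i, h1 i, fun j => mono j _ _ (hi j) (h2 j)⟩

theorem order_scaled {V : Type} [Fintype V] {K : Set (ℝ × ℝ)} {c δ : ℝ} (hδ : 0 < δ)
    (hK : ∀ p ∈ K, 0 < p.2 + c) (pos x z : V → ℝ × ℝ) (D s t : V → Set (ℝ × ℝ))
    (hpos : ∀ v, pos v ∈ K)
    (hs : ∀ v, IsPreconnected (s v) ∧ pos v ∈ s v ∧ x v ∈ s v ∧
      ∀ p ∈ s v, closedBall p (2 * δ) ⊆ D v)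
    (ht : ∀ v, IsPreconnected (t v) ∧ z v ∈ t v ∧ x v ∈ t v ∧ (z v).2 + c < 0 ∧
      ∀ p ∈ t v, closedBall p (2 * δ) ⊆ Kᶜ)
    (hD : ∀ v w, (D v ∩ D w).Nonempty → v = w) :
    ∃ κ : V → ℝ, Function.Injective κ ∧ ∀ a b c d, ∀ P Q : Set (ℝ × ℝ), P ⊆ K → Q ⊆ K →
      IsPathConnected P → IsPathConnected Q → pos a ∈ P → pos b ∈ P → pos c ∈ Q → pos d ∈ Q →
      κ a < κ c → κ c < κ b → κ b < κ d → ((P ∪ D a ∪ D b) ∩ (Q ∪ D c ∪ D d)).Nonempty := by
  let sc : ℝ × ℝ → ℝ × ℝ := fun p => (p.1 / δ, (p.2 + c) / δ)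
  let un : ℝ × ℝ → ℝ × ℝ := fun p => (p.1 * δ, p.2 * δ - c)
  have hsc : Continuous sc := by fun_prop
  have h1 : ∀ p, un (sc p) = p := fun p => by
    simp only [sc, un, div_mul_cancel₀ _ hδ.ne', add_sub_cancel_right]
  have h2 : ∀ p (W : Set (ℝ × ℝ)), closedBall p (2 * δ) ⊆ W → closedBall (sc p) 2 ⊆ un ⁻¹' W := by
    intro p W hW q hq
    apply hW
    rw [mem_closedBall, Prod.dist_eq, max_le_iff, Real.dist_eq, Real.dist_eq] at hq ⊢
    have e1 : (un q).1 - p.1 = (q.1 - (sc p).1) * δ := by simp only [sc, un]; field_simp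
    have e2 : (un q).2 - p.2 = (q.2 - (sc p).2) * δ := by simp only [sc, un]; field_simp; ring
    rw [e1, e2, abs_mul, abs_mul, abs_of_pos hδ]
    exact ⟨mul_le_mul_of_nonneg_right hq.1 hδ.le, mul_le_mul_of_nonneg_right hq.2 hδ.le⟩
  obtain ⟨κ, k1, k2⟩ := order_unit (K := un ⁻¹' K)
    (fun p hp => by
      have := hK _ hp
      simp only [un, sub_add_cancel] at this
      exact (mul_pos_iff_of_pos_right hδ).1 this)
    (sc ∘ pos) (sc ∘ x) (sc ∘ z) (fun v => un ⁻¹' D v) (fun v => sc '' s v) (fun v => sc '' t v)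
    (fun v => by simpa [h1] using hpos v)
    (fun v => ⟨(hs v).1.image _ hsc.continuousOn, mem_image_of_mem _ (hs v).2.1,
      mem_image_of_mem _ (hs v).2.2.1, by
        rintro _ ⟨p, hp, rfl⟩; exact h2 p _ ((hs v).2.2.2 p hp)⟩)
    (fun v => ⟨(ht v).1.image _ hsc.continuousOn, mem_image_of_mem _ (ht v).2.1,
      mem_image_of_mem _ (ht v).2.2.1, div_neg_of_neg_of_pos (ht v).2.2.2.1 hδ, by
        rintro _ ⟨p, hp, rfl⟩; exact h2 p _ ((ht v).2.2.2.2 p hp)⟩)
    (fun v w ⟨p, hp⟩ => hD v w ⟨un p, hp⟩)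
  refine ⟨κ, k1, fun a b c d P Q hP hQ cP cQ pa pb pc pd l1 l2 l3 => ?_⟩
  have im : ∀ P : Set (ℝ × ℝ), sc '' P ⊆ un ⁻¹' P := by
    rintro P _ ⟨p, hp, rfl⟩
    simpa [h1] using hp
  obtain ⟨w, w1, w2⟩ := k2 a b c d (sc '' P) (sc '' Q) ((im P).trans (preimage_mono hP))
    ((im Q).trans (preimage_mono hQ)) (cP.image hsc) (cQ.image hsc) (mem_image_of_mem _ pa)
    (mem_image_of_mem _ pb) (mem_image_of_mem _ pc) (mem_image_of_mem _ pd) l1 l2 l3
  exact ⟨un w, w1.imp_left (Or.imp_left fun h => im P h), w2.imp_left (Or.imp_left fun h => im Q h)⟩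

theorem exists_low {K : Set (ℝ × ℝ)} {M : ℝ} (hM : ∀ p ∈ K, ‖p‖ ≤ M) {q : ℝ × ℝ}
    (h : ¬ Bornology.IsBounded (connectedComponentIn Kᶜ q)) :
    ∃ z ∈ connectedComponentIn Kᶜ q, z.2 + (M + 1) < 0 := by
  have key : ∀ H : Set (ℝ × ℝ), Convex ℝ H → (∀ p ∈ H, M < ‖p‖) →
      ∀ z ∈ connectedComponentIn Kᶜ q, z ∈ H → H ⊆ connectedComponentIn Kᶜ q := by
    intro H h1 h2 z hz hzH
    rw [connectedComponentIn_eq hz]
    exact h1.isPreconnected.subset_connectedComponentIn hzH fun p hp hK =>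
      (h2 p hp).not_ge (hM p hK)
  have n1 : ∀ p : ℝ × ℝ, |p.1| ≤ ‖p‖ := fun p => norm_fst_le p
  have n2 : ∀ p : ℝ × ℝ, |p.2| ≤ ‖p‖ := fun p => norm_snd_le p
  have right : ∀ z ∈ connectedComponentIn Kᶜ q, M < z.1 →
      ∃ z ∈ connectedComponentIn Kᶜ q, z.2 + (M + 1) < 0 := fun z hz h =>
    ⟨(M + 1, -M - 2), key (Ioi M ×ˢ univ) ((convex_Ioi M).prod convex_univ)
      (fun p hp => (lt_of_lt_of_le hp.1 (le_abs_self _)).trans_le (n1 p)) z hz ⟨h, trivial⟩
      ⟨by simp, trivial⟩, by simp only; linarith⟩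
  rw [isBounded_iff_forall_norm_le] at h
  push Not at h
  obtain ⟨z, hz, h⟩ := h M
  rw [Prod.norm_def, lt_max_iff, Real.norm_eq_abs, Real.norm_eq_abs, lt_abs, lt_abs] at h
  rcases h with (h | h) | h | h
  · exact right z hz h
  · exact ⟨(-M - 1, -M - 2), key (Iio (-M) ×ˢ univ) ((convex_Iio _).prod convex_univ)
      (fun p hp => (lt_of_lt_of_le (lt_neg_of_lt_neg hp.1) (neg_le_abs _)).trans_le (n1 p)) z hz
      ⟨lt_neg_of_lt_neg h, trivial⟩ ⟨by simp, trivial⟩, by simp only; linarith⟩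
  · exact right (M + 1, M + 1) (key (univ ×ˢ Ioi M) (convex_univ.prod (convex_Ioi M))
      (fun p hp => (lt_of_lt_of_le hp.2 (le_abs_self _)).trans_le (n2 p)) z hz ⟨trivial, h⟩
      ⟨trivial, by simp⟩) (by simp)
  · exact ⟨(0, -M - 2), key (univ ×ˢ Iio (-M)) (convex_univ.prod (convex_Iio _))
      (fun p hp => (lt_of_lt_of_le (lt_neg_of_lt_neg hp.2) (neg_le_abs _)).trans_le (n2 p)) z hz
      ⟨trivial, lt_neg_of_lt_neg h⟩ ⟨trivial, by simp only [mem_Iio]; linarith⟩,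
      by simp only; linarith⟩

theorem Drawing.not_mem_arc {V : Type} {G : SimpleGraph V} (D : Drawing G) {e : G.Dart} {v : V}
    (h1 : v ≠ e.fst) (h2 : v ≠ e.snd) : D.pos v ∉ range (D.arc e) := by
  rintro ⟨t, ht⟩
  rcases D.avoid e t v ht with rfl | rfl
  · exact h1 (D.pos_inj ((D.arc_zero e).symm.trans ht)).symm
  · exact h2 (D.pos_inj ((D.arc_one e).symm.trans ht)).symm

theorem order_of_outer {V : Type} [Fintype V] {G : SimpleGraph V} (D : Drawing G) (h : D.Outer) :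
    ∃ κ : V → ℝ, Function.Injective κ ∧ ∀ e f : G.Dart, κ e.fst < κ f.fst → κ f.fst < κ e.snd →
      κ e.snd < κ f.snd → (range (D.arc e) ∩ range (D.arc f)).Nonempty := by
  classical
  obtain ⟨q, hq, hcl⟩ := h
  have hK : IsCompact D.trace := (finite_range _).isCompact.union
    (isCompact_iUnion fun e => isCompact_range (D.arc e).continuous)
  obtain ⟨M, hM⟩ := isBounded_iff_forall_norm_le.1 hK.isBounded
  obtain ⟨z, hz, hz'⟩ := exists_low hM hq
  have hop := hK.isClosed.isOpen_compl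
  have hpc : IsPathConnected (connectedComponentIn D.traceᶜ q) :=
    hop.connectedComponentIn.isConnected_iff_isPathConnected.1
      ⟨⟨z, hz⟩, isPreconnected_connectedComponentIn⟩
  obtain ⟨ε1, e1, e2⟩ := exists_pos_forall
    (fun (i : V × V) ε => i.1 ≠ i.2 → 2 * ε ≤ dist (D.pos i.1) (D.pos i.2))
    (fun i a b hab h hne => by linarith [h hne]) (fun i => by
      by_cases h : i.1 = i.2
      · exact ⟨1, one_pos, fun h' => absurd h h'⟩
      · exact ⟨dist (D.pos i.1) (D.pos i.2) / 2, half_pos (dist_pos.2 (D.pos_inj.ne h)),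
          fun _ => by linarith⟩)
  obtain ⟨ε2, e3, e4⟩ := exists_pos_forall
    (fun (i : V × G.Dart) ε => i.1 ≠ i.2.fst → i.1 ≠ i.2.snd →
      ball (D.pos i.1) ε ⊆ (range (D.arc i.2))ᶜ)
    (fun i a b hab h h1 h2 => (ball_subset_ball hab).trans (h h1 h2)) (fun i => by
      by_cases h : i.1 ≠ i.2.fst ∧ i.1 ≠ i.2.snd
      · obtain ⟨ε, k1, k2⟩ := Metric.isOpen_iff.1
          (isCompact_range (D.arc i.2).continuous).isClosed.isOpen_compl _ (D.not_mem_arc h.1 h.2)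
        exact ⟨ε, k1, fun _ _ => k2⟩
      · exact ⟨1, one_pos, fun h1 h2 => absurd ⟨h1, h2⟩ h⟩)
  have hε : 0 < min ε1 ε2 := lt_min e1 e3
  choose x hx1 hx2 using fun v => mem_closure_iff_nhds.1 (hcl v) _ (ball_mem_nhds _ hε)
  choose γ hγ using fun v => hpc.joinedIn z hz (x v) (hx2 v)
  obtain ⟨δ, d1, d2⟩ := exists_pos_forall
    (fun v δ => cthickening δ (segment ℝ (D.pos v) (x v)) ⊆ ball (D.pos v) (min ε1 ε2) ∧
      cthickening δ (range (γ v)) ⊆ D.traceᶜ)
    (fun v a b hab h => ⟨(cthickening_mono hab _).trans h.1, (cthickening_mono hab _).trans h.2⟩)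
    (fun v => by
      have c1 : IsCompact (segment ℝ (D.pos v) (x v)) := by
        rw [segment_eq_image]; exact isCompact_Icc.image (by fun_prop)
      obtain ⟨a, a1, a2⟩ := c1.exists_cthickening_subset_open isOpen_ball
        ((convex_ball _ _).segment_subset (mem_ball_self hε) (hx1 v))
      obtain ⟨b, b1, b2⟩ := (isCompact_range (γ v).continuous).exists_cthickening_subset_open hop
        (by rintro _ ⟨t, rfl⟩; exact connectedComponentIn_subset _ _ (hγ v t))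
      exact ⟨min a b, lt_min a1 b1, (cthickening_mono (min_le_left _ _) _).trans a2,
        (cthickening_mono (min_le_right _ _) _).trans b2⟩)
  have hD : ∀ v w, (ball (D.pos v) (min ε1 ε2) ∩ ball (D.pos w) (min ε1 ε2)).Nonempty → v = w := by
    rintro v w ⟨p, h1, h2⟩
    by_contra hne
    have := e2 (v, w) hne
    have := dist_triangle_left (D.pos v) (D.pos w) p
    have := min_le_left ε1 ε2
    rw [mem_ball] at h1 h2
    simp only at *
    linarith
  obtain ⟨κ, k1, k2⟩ := order_scaled (K := D.trace) (c := M + 1) (half_pos d1)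
    (fun p hp => by
      have := (neg_le_abs _).trans ((norm_snd_le p).trans (hM p hp))
      linarith)
    D.pos x (fun _ => z) (fun v => ball (D.pos v) (min ε1 ε2))
    (fun v => segment ℝ (D.pos v) (x v)) (fun v => range (γ v))
    (fun v => Or.inl (mem_range_self v))
    (fun v => ⟨(convex_segment _ _).isPreconnected, left_mem_segment _ _ _, right_mem_segment _ _ _,
      fun p hp => by
        rw [mul_div_cancel₀ _ two_ne_zero]
        exact (closedBall_subset_cthickening hp δ).trans (d2 v).1⟩)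
    (fun v => ⟨isPreconnected_range (γ v).continuous, ⟨0, (γ v).source⟩, ⟨1, (γ v).target⟩, hz',
      fun p hp => by
        rw [mul_div_cancel₀ _ two_ne_zero]
        exact (closedBall_subset_cthickening hp δ).trans (d2 v).2⟩) hD
  refine ⟨κ, k1, fun e f l1 l2 l3 => ?_⟩
  have sub : ∀ e, range (D.arc e) ⊆ D.trace := fun e =>
    (subset_iUnion (fun e => range (D.arc e)) e).trans subset_union_right
  have : PathConnectedSpace unitInterval := isPathConnected_iff_pathConnectedSpace.1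
    ((convex_Icc (0 : ℝ) 1).isPathConnected (nonempty_Icc.2 zero_le_one))
  obtain ⟨w, w1, w2⟩ := k2 e.fst e.snd f.fst f.snd _ _ (sub e) (sub f)
    (isPathConnected_range (D.arc e).continuous) (isPathConnected_range (D.arc f).continuous)
    ⟨0, D.arc_zero e⟩ ⟨1, D.arc_one e⟩ ⟨0, D.arc_zero f⟩ ⟨1, D.arc_one f⟩ l1 l2 l3
  have n1 : e.fst ≠ f.fst := fun h => by rw [h] at l1; exact lt_irrefl _ l1
  have n2 : e.fst ≠ f.snd := fun h => by rw [h] at l1; linarith
  have n3 : e.snd ≠ f.fst := fun h => by rw [h] at l2; exact lt_irrefl _ l2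
  have n4 : e.snd ≠ f.snd := fun h => by rw [h] at l3; exact lt_irrefl _ l3
  have av : ∀ v (g : G.Dart), v ≠ g.fst → v ≠ g.snd → w ∈ ball (D.pos v) (min ε1 ε2) →
      w ∉ range (D.arc g) := fun v g h1 h2 h =>
    e4 (v, g) h1 h2 (ball_subset_ball (min_le_right _ _) h)
  rcases w1 with (w1 | w1) | w1 <;> rcases w2 with (w2 | w2) | w2
  · exact ⟨w, w1, w2⟩
  · exact absurd w1 (av _ e n1.symm n3.symm w2)
  · exact absurd w1 (av _ e n2.symm n4.symm w2)
  · exact absurd w2 (av _ f n1 n2 w1)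
  · exact absurd (hD _ _ ⟨w, w1, w2⟩) n1
  · exact absurd (hD _ _ ⟨w, w1, w2⟩) n2
  · exact absurd w2 (av _ f n3 n4 w1)
  · exact absurd (hD _ _ ⟨w, w1, w2⟩) n3
  · exact absurd (hD _ _ ⟨w, w1, w2⟩) n4

end Pool.Agent.Lib.MP_f9c574_lc
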