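import Pool.Agent.Lib.MP_f9c574_lc.Parabola
import Pool.Agent.Lib.MP_f9c574_lc.Topo
import Pool.Agent.Lib.MP_f9c574_lc.Poly

/-!
Outer-fan-planarity is equivalent to the combinatorial condition.
-/

set_option linter.unusedVariables false

namespace Pool.Agent.Lib.MP_f9c574_lc

open Set

theorem adj_iff (A : List (List ℕ)) (i j : Fin A.length) :
    (graphOf A).Adj i j ↔ (natGraph A).Adj i j := by
  simp [graphOf, natGraph, Fin.val_inj, List.getD_eq_getElem?_getD]

theorem il_of_prod {a b c d : ℕ}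
    (h : ((c : ℝ) - a) * ((c : ℝ) - b) * (((d : ℝ) - a) * ((d : ℝ) - b)) < 0) : Il a b c d := by
  unfold Il
  rcases mul_neg_iff.1 h with ⟨h1, h2⟩ | ⟨h2, h1⟩ <;> rw [mul_pos_iff] at h1 <;>
    rw [mul_neg_iff] at h2 <;> simp only [sub_pos, sub_neg, Nat.cast_lt] at h1 h2 <;> omega

theorem exists_rank {V : Type} [Fintype V] (κ : V → ℝ) :
    ∃ r : V → ℕ, ∀ v w, r v < r w ↔ κ v < κ w := by
  classical
  refine ⟨fun v => (Finset.univ.filter fun j => κ j < κ v).card, fun v w => ⟨fun h => ?_, fun h => ?_⟩⟩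
  · by_contra hc
    refine h.not_ge (Finset.card_le_card fun j hj => ?_)
    simp only [Finset.mem_filter, Finset.mem_univ, true_and] at hj ⊢
    exact hj.trans_le (not_lt.1 hc)
  · refine Finset.card_lt_card ⟨fun j hj => ?_, fun hs => ?_⟩
    · simp only [Finset.mem_filter, Finset.mem_univ, true_and] at hj ⊢
      exact hj.trans h
    · simpa using hs (show v ∈ _ by simpa using h)

theorem outerFanPlanar_iff (A : List (List ℕ)) :
    Drawable (natGraph A) (Finset.range A.length) ↔ OuterFanPlanar (graphOf A) := by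
  constructor
  · rintro ⟨p, hp, hv⟩
    have m : ∀ v : Fin A.length, (v : ℕ) ∈ Finset.range A.length := fun v => by simp
    refine outerFanPlanar_of_order (x := fun v => (p v : ℝ))
      (fun v w h => Fin.ext (hp (m v) (m w) (Nat.cast_injective (R := ℝ) h))) fun e f g h1 h2 => ?_
    simp only [← Fin.val_inj]
    exact hv _ (m _) _ (m _) _ (m _) _ (m _) _ (m _) _ (m _) ((adj_iff A _ _).1 e.adj)
      ((adj_iff A _ _).1 f.adj) ((adj_iff A _ _).1 g.adj) (il_of_prod h1) (il_of_prod h2)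
  · rintro ⟨D, h1, -, h3⟩
    obtain ⟨κ, k1, k2⟩ := order_of_outer D h3
    obtain ⟨r, hr⟩ := exists_rank κ
    have sy : ∀ e, range (D.arc e.symm) ⊆ range (D.arc e) := by
      rintro e _ ⟨t, rfl⟩
      exact ⟨_, (D.arc_symm e t).symm⟩
    have cr : ∀ e f : (graphOf A).Dart, Il (r e.fst) (r e.snd) (r f.fst) (r f.snd) →
        ∃ t, D.CrossAt e f t := by
      intro e f h
      have hm : (range (D.arc e) ∩ range (D.arc f)).Nonempty := by
        unfold Il at h
        simp only [hr] at h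
        rcases h with ⟨a, b, c | c⟩ | ⟨a, b, c | c⟩ | ⟨a, b, c | c⟩ | ⟨a, b, c | c⟩
        · exact inter_comm _ _ ▸ (k2 f.symm e c a b).mono (inter_subset_inter (sy f) le_rfl)
        · exact k2 e f a b c
        · exact inter_comm _ _ ▸ (k2 f.symm e.symm c a b).mono (inter_subset_inter (sy f) (sy e))
        · exact (k2 e.symm f a b c).mono (inter_subset_inter (sy e) le_rfl)
        · exact inter_comm _ _ ▸ k2 f e c a b
        · exact (k2 e f.symm a b c).mono (inter_subset_inter le_rfl (sy f))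
        · exact inter_comm _ _ ▸ (k2 f e.symm c a b).mono (inter_subset_inter le_rfl (sy e))
        · exact (k2 e.symm f.symm a b c).mono (inter_subset_inter (sy e) (sy f))
      obtain ⟨n1, n2, n3, n4⟩ := il_ne h
      have n1' : e.fst ≠ f.fst := fun e => n1 (congrArg r e)
      have n2' : e.fst ≠ f.snd := fun e => n2 (congrArg r e)
      have n3' : e.snd ≠ f.fst := fun e => n3 (congrArg r e)
      have n4' : e.snd ≠ f.snd := fun e => n4 (congrArg r e)
      obtain ⟨_, hw, t, rfl⟩ := hm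
      refine ⟨t, fun he => ?_, hw, ?_⟩
      · rw [show f.edge = s(f.fst, f.snd) from rfl, SimpleGraph.dart_edge_eq_mk'_iff'] at he
        tauto
      · rintro ⟨v, hv⟩
        by_cases c1 : v = f.fst
        · exact D.not_mem_arc (c1 ▸ n1'.symm) (c1 ▸ n3'.symm) (hv ▸ hw)
        · by_cases c2 : v = f.snd
          · exact D.not_mem_arc (c2 ▸ n2'.symm) (c2 ▸ n4'.symm) (hv ▸ hw)
          · exact D.not_mem_arc c1 c2 ⟨t, hv.symm⟩
    refine ⟨fun i => if h : i < A.length then r ⟨i, h⟩ else 0, fun i hi j hj h => ?_,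
      fun a ha b hb c hc d hd c' hc' d' hd' e1 e2 e3 x1 x2 => ?_⟩
    · have hi' := Finset.mem_range.1 hi
      have hj' := Finset.mem_range.1 hj
      simp only [dif_pos hi', dif_pos hj'] at h
      have := hr ⟨i, hi'⟩ ⟨j, hj'⟩
      have := hr ⟨j, hj'⟩ ⟨i, hi'⟩
      exact congrArg Fin.val (k1 (le_antisymm (not_lt.1 fun _ => by simp_all)
        (not_lt.1 fun _ => by simp_all)) : (⟨i, hi'⟩ : Fin _) = ⟨j, hj'⟩)
    · rw [Finset.mem_range] at ha hb hc hd hc' hd'
      simp only [Cr, dif_pos, ha, hb, hc, hd, hc', hd'] at x1 x2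
      obtain ⟨s, hs⟩ := cr ⟨(⟨a, ha⟩, ⟨b, hb⟩), (adj_iff A _ _).2 e1⟩
        ⟨(⟨c, hc⟩, ⟨d, hd⟩), (adj_iff A _ _).2 e2⟩ x1
      obtain ⟨t, ht⟩ := cr ⟨(⟨a, ha⟩, ⟨b, hb⟩), (adj_iff A _ _).2 e1⟩
        ⟨(⟨c', hc'⟩, ⟨d', hd'⟩), (adj_iff A _ _).2 e3⟩ x2
      by_contra hn
      refine h1 ⟨_, _, _, s, t, hs, ht, ?_⟩
      simpa [not_or] using hn

end Pool.Agent.Lib.MP_f9c574_lc
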