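import Pool.Agent.Lib.MP_f9c574_lc.Defs

/-!
Straight-line drawings with the vertices on a parabola.
-/

set_option linter.unusedVariables false

namespace Pool.Agent.Lib.MP_f9c574_lc

open Set Filter Topology unitInterval Metric

/-- The point with parameter `t` on the chord between parabola points. -/
def chordPt (a b t : ℝ) : ℝ × ℝ := ((1 - t) * a + t * b, (1 - t) * a ^ 2 + t * b ^ 2)

/-- The chord as an arc. -/
def chord (a b : ℝ) : C(I, ℝ × ℝ) := ⟨fun t => chordPt a b t, by unfold chordPt; fun_prop⟩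

/-- The affine function vanishing on the chord. -/
def lin (a b : ℝ) (p : ℝ × ℝ) : ℝ := p.2 - (a + b) * p.1 + a * b

theorem lin_chord (a b c d t : ℝ) :
    lin a b (chordPt c d t) = (1 - t) * ((c - a) * (c - b)) + t * ((d - a) * (d - b)) := by
  simp only [lin, chordPt]; ring

theorem lin_self (a b t : ℝ) : lin a b (chordPt a b t) = 0 := by rw [lin_chord]; ring

/-- The shear straightening the chord. -/
def shear (a b : ℝ) : (ℝ × ℝ) ≃ₜ (ℝ × ℝ) where
  toFun p := (p.1, lin a b p)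
  invFun p := (p.1, p.2 + (a + b) * p.1 - a * b)
  left_inv p := Prod.ext rfl (by simp only [lin]; ring)
  right_inv p := Prod.ext rfl (by simp only [lin]; ring)
  continuous_toFun := by unfold lin; fun_prop
  continuous_invFun := by fun_prop

theorem exists_chart {a b : ℝ} (hab : a ≠ b) :
    ∃ φ, Straightens φ (chord a b) ∧ ∀ p, (φ p).2 = lin a b p := by
  refine ⟨(shear a b).toOpenPartialHomeomorph.restrOpen {p | (p.1 - a) * (p.1 - b) < 0}
    (isOpen_lt (by fun_prop) continuous_const), ⟨fun t h0 h1 => ⟨trivial, ?_⟩,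
      fun p hp => ⟨?_, fun h => ?_⟩⟩, fun p => rfl⟩
  · have k0 : (0 : ℝ) < t := unitInterval.pos_iff_ne_zero.2 h0
    have k1 : (t : ℝ) < 1 := unitInterval.lt_one_iff_ne_one.2 h1
    have : 0 < (t : ℝ) * (1 - t) * (a - b) ^ 2 := by
      have := sub_ne_zero.2 hab
      have := sub_pos.2 k1
      positivity
    show ((1 - t) * a + t * b - a) * ((1 - t) * a + t * b - b) < 0
    nlinarith
  · rintro ⟨t, rfl⟩
    exact lin_self a b t
  · have h1 : (p.1 - a) * (p.1 - b) < 0 := hp.2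
    have h2 : lin a b p = 0 := h
    have hba : b - a ≠ 0 := sub_ne_zero.2 hab.symm
    have h3 : (p.1 - a) / (b - a) * (b - a) = p.1 - a := div_mul_cancel₀ _ hba
    have h4 : 0 < (b - a) ^ 2 := by positivity
    have h5 : (p.1 - a) / (b - a) * ((p.1 - a) / (b - a) - 1) < 0 := by
      have : (p.1 - a) / (b - a) * ((p.1 - a) / (b - a) - 1) * (b - a) ^ 2 =
          (p.1 - a) * (p.1 - b) := by field_simp; ring
      by_contra hc
      nlinarith [mul_nonneg (not_lt.1 hc) h4.le]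
    refine ⟨⟨(p.1 - a) / (b - a), by nlinarith, by nlinarith⟩, Prod.ext ?_ ?_⟩
    · show (1 - (p.1 - a) / (b - a)) * a + (p.1 - a) / (b - a) * b = p.1
      linarith
    · show (1 - (p.1 - a) / (b - a)) * a ^ 2 + (p.1 - a) / (b - a) * b ^ 2 = p.2
      unfold lin at h2
      linear_combination (a + b) * h3 - h2

theorem posToNeg_affine {P Q : ℝ} {t : I} (h : (1 - t) * P + t * Q = 0) (hP : 0 < P) (hQ : Q < 0)
    {g : I → ℝ} (hg : ∀ r : I, g r = (1 - r) * P + r * Q) : PosToNeg g t :=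
  ⟨eventually_nhdsWithin_of_forall fun r (hr : (r : ℝ) < t) => by rw [hg]; nlinarith,
    eventually_nhdsWithin_of_forall fun r (hr : (t : ℝ) < r) => by rw [hg]; nlinarith⟩

variable {V : Type} {G : SimpleGraph V} {x : V → ℝ}

/-- The chords of the two edges interleave. -/
def RI (x : V → ℝ) (e f : G.Dart) : Prop :=
  (x f.fst - x e.fst) * (x f.fst - x e.snd) * ((x f.snd - x e.fst) * (x f.snd - x e.snd)) < 0

theorem meet (hx : Function.Injective x) {e f : G.Dart} (hne : e.edge ≠ f.edge) {t : I}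
    (h : chord (x f.fst) (x f.snd) t ∈ range (chord (x e.fst) (x e.snd)))
    (h' : chord (x f.fst) (x f.snd) t ∉ range fun v => (x v, x v ^ 2)) :
    RI x e f ∧ (0 : ℝ) < t ∧ (t : ℝ) < 1 ∧ (1 - t) * ((x f.fst - x e.fst) * (x f.fst - x e.snd)) +
      t * ((x f.snd - x e.fst) * (x f.snd - x e.snd)) = 0 := by
  have k0 : (0 : ℝ) < t := unitInterval.pos_iff_ne_zero.2 fun e => h' ⟨f.fst, by
    simp [e, chord, chordPt]⟩
  have k1 : (t : ℝ) < 1 := unitInterval.lt_one_iff_ne_one.2 fun e => h' ⟨f.snd, by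
    simp [e, chord, chordPt]⟩
  obtain ⟨s, hs⟩ := h
  have k2 := lin_self (x e.fst) (x e.snd) s
  have hs' : chordPt (x e.fst) (x e.snd) s = chordPt (x f.fst) (x f.snd) t := hs
  rw [hs', lin_chord] at k2
  refine ⟨?_, k0, k1, k2⟩
  unfold RI
  by_cases hP : (x f.fst - x e.fst) * (x f.fst - x e.snd) = 0
  · exfalso
    have hQ : (x f.snd - x e.fst) * (x f.snd - x e.snd) = 0 := by
      rw [hP, mul_zero, zero_add] at k2
      exact (mul_eq_zero.1 k2).resolve_left k0.ne'
    simp only [mul_eq_zero, sub_eq_zero, hx.eq_iff] at hP hQ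
    have := f.fst_ne_snd
    apply hne
    rw [eq_comm, show e.edge = s(e.fst, e.snd) from rfl, SimpleGraph.dart_edge_eq_mk'_iff']
    rcases hP with hP | hP <;> rcases hQ with hQ | hQ
    · exact absurd (hP.trans hQ.symm) this
    · exact Or.inl ⟨hP, hQ⟩
    · exact Or.inr ⟨hP, hQ⟩
    · exact absurd (hP.trans hQ.symm) this
  · generalize (x f.fst - x e.fst) * (x f.fst - x e.snd) = P at *
    generalize (x f.snd - x e.fst) * (x f.snd - x e.snd) = Q at *
    have : 0 < (1 - t) * P ^ 2 := mul_pos (sub_pos.2 k1) (by positivity)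
    by_contra hc
    have := mul_nonneg k0.le (not_lt.1 hc)
    nlinarith [congrArg (· * P) k2]

theorem RI.ne {e f : G.Dart} (h : RI x e f) :
    e.fst ≠ f.fst ∧ e.fst ≠ f.snd ∧ e.snd ≠ f.fst ∧ e.snd ≠ f.snd := by
  unfold RI at h
  refine ⟨?_, ?_, ?_, ?_⟩ <;> intro e <;> simp [e] at h

/-- The straight-line drawing on the parabola. -/
def parDrawing (hx : Function.Injective x)
    (h : ∀ e f g : G.Dart, RI x e f → RI x e g →
      f.fst = g.fst ∨ f.fst = g.snd ∨ f.snd = g.fst ∨ f.snd = g.snd) : Drawing G where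
  pos v := (x v, x v ^ 2)
  arc e := chord (x e.fst) (x e.snd)
  pos_inj v w h := hx (congrArg Prod.fst h)
  arc_inj e s t h := by
    have h1 : (1 - s) * x e.fst + s * x e.snd = (1 - t) * x e.fst + t * x e.snd :=
      congrArg Prod.fst h
    have h2 : ((s : ℝ) - t) * (x e.snd - x e.fst) = 0 := by linarith
    exact Subtype.ext (sub_eq_zero.1 ((mul_eq_zero.1 h2).resolve_right
      (sub_ne_zero.2 (hx.ne e.fst_ne_snd.symm))))
  arc_zero e := by simp [chord, chordPt]
  arc_one e := by simp [chord, chordPt]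
  arc_symm e t := by simp [chord, chordPt, add_comm]
  avoid e t v h := by
    have h1 : (1 - t) * x e.fst + t * x e.snd = x v := congrArg Prod.fst h
    have h2 : (1 - t) * x e.fst ^ 2 + t * x e.snd ^ 2 = x v ^ 2 := congrArg Prod.snd h
    have h3 : (t : ℝ) * (1 - t) * (x e.fst - x e.snd) ^ 2 = 0 := by
      rw [← h1] at h2; linear_combination h2
    have h4 := (mul_eq_zero.1 h3).resolve_right
      (pow_ne_zero 2 (sub_ne_zero.2 (hx.ne e.fst_ne_snd)))
    exact (mul_eq_zero.1 h4).imp Subtype.ext fun h => Subtype.ext (sub_eq_zero.1 h).symm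
  proper e f s t hne hst := by
    refine or_iff_not_imp_left.2 fun hv => ?_
    obtain ⟨k1, k2, k3, k4⟩ := meet hx hne ⟨s, hst⟩ (hst ▸ hv)
    obtain ⟨φ, h1, h2⟩ := exists_chart (hx.ne e.fst_ne_snd)
    refine ⟨φ, h1, ?_⟩
    rcases mul_neg_iff.1 k1 with ⟨hP, hQ⟩ | ⟨hP, hQ⟩
    · exact Or.inl (posToNeg_affine k4 hP hQ fun r => (h2 _).trans (lin_chord _ _ _ _ _))
    · refine Or.inr (posToNeg_affine (by linear_combination -k4) (neg_pos.2 hP) (neg_neg_of_pos hQ)
        fun r => ?_)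
      exact (congrArg Neg.neg ((h2 _).trans (lin_chord _ _ _ _ _))).trans (by ring)
  triple e f g r s t n1 n2 n3 h1 h2 := by
    by_contra hv
    have k1 := (meet hx n1 ⟨r, h1⟩ (h1 ▸ hv)).1
    have k2 := (meet hx n2 ⟨r, h2⟩ (h2 ▸ hv)).1
    have k3 := (meet hx n3 ⟨s, h1.symm.trans h2⟩ (h2 ▸ hv)).1.ne
    have := h e f g k1 k2
    tauto

theorem near_side {a b c d P Q : ℝ} {t : I} (hP : P = (c - a) * (c - b)) (hQ : Q = (d - a) * (d - b))
    (h1 : P * Q < 0) (h0 : (0 : ℝ) < t) (h2 : (1 - t) * P + t * Q = 0) {W : Set (ℝ × ℝ)}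
    (hW : W ∈ 𝓝 (chord c d t)) {g : I → Prop} (hg : ∀ᶠ r in 𝓝[<] t, g r) :
    ∃ r, g r ∧ chord c d r ∈ W ∧ 0 < P * lin a b (chord c d r) := by
  have : (𝓝[<] t).NeBot := nhdsLT_neBot_of_exists_lt ⟨0, h0⟩
  have h3 : ∀ᶠ r in 𝓝[<] t, chord c d r ∈ W :=
    nhdsWithin_le_nhds ((chord c d).continuous.continuousAt.preimage_mem_nhds hW)
  obtain ⟨r, k1, k2, k3⟩ := (hg.and (h3.and self_mem_nhdsWithin)).exists
  refine ⟨r, k1, k2, ?_⟩
  have k4 : (r : ℝ) < t := k3
  have : lin a b (chord c d r) = (1 - r) * P + r * Q := by rw [hP, hQ]; exact lin_chord _ _ _ _ _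
  have e : P * ((1 - r) * P + r * Q) = (t - r) * (P * P - P * Q) := by
    linear_combination P * h2
  rw [this, e]
  exact mul_pos (sub_pos.2 k4) (by nlinarith [mul_self_nonneg P])

theorem outerFanPlanar_of_order (hx : Function.Injective x)
    (h : ∀ e f g : G.Dart, RI x e f → RI x e g →
      f.fst = g.fst ∨ f.fst = g.snd ∨ f.snd = g.fst ∨ f.snd = g.snd) : OuterFanPlanar G := by
  refine ⟨parDrawing hx h, ?_, ?_, ?_⟩
  · rintro ⟨e, f, g, s, t, ⟨a1, a2, a3⟩, ⟨b1, b2, b3⟩, hn⟩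
    have := h e f g (meet hx a1 a2 a3).1 (meet hx b1 b2 b3).1
    tauto
  · rintro ⟨e, f, g, s, t, φ, ⟨a1, a2, a3⟩, ⟨b1, b2, b3⟩, hfg, -, hφ, ⟨c1, -⟩, c2, -⟩
    obtain ⟨k1, k2, -, k3⟩ := meet hx a1 a2 a3
    obtain ⟨l1, l2, -, l3⟩ := meet hx b1 b2 b3
    have inner : ∀ p ∈ range (chord (x e.fst) (x e.snd)), p ∉ range (fun v => (x v, x v ^ 2)) →
        ∃ r : ℝ, 0 < r ∧ r < 1 ∧ p = chordPt (x e.fst) (x e.snd) r := by
      rintro _ ⟨r, rfl⟩ hp
      exact ⟨r, unitInterval.pos_iff_ne_zero.2 fun h => hp ⟨e.fst, by simp [h, chord, chordPt]⟩,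
        unitInterval.lt_one_iff_ne_one.2 fun h => hp ⟨e.snd, by simp [h, chord, chordPt]⟩, rfl⟩
    obtain ⟨r1, m1, m2, m3⟩ := inner _ a2 a3
    obtain ⟨r2, n1, n2, n3⟩ := inner _ b2 b3
    have hseg : segment ℝ (chordPt (x e.fst) (x e.snd) r1) (chordPt (x e.fst) (x e.snd) r2) ⊆
        φ.source := by
      rintro _ ⟨α, β, hα, hβ, hαβ, rfl⟩
      have hm := (convex_Ioo (0 : ℝ) 1) ⟨m1, m2⟩ ⟨n1, n2⟩ hα hβ hαβ
      have := hφ.1 ⟨_, hm.1.le, hm.2.le⟩ (fun h => hm.1.ne' (congrArg Subtype.val h))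
        (fun h => hm.2.ne (congrArg Subtype.val h))
      convert this using 1
      obtain rfl : β = 1 - α := by linarith
      simp only [parDrawing, chord, chordPt, ContinuousMap.coe_mk, Prod.smul_mk, smul_eq_mul,
        Prod.mk_add_mk, Prod.mk.injEq]
      constructor <;> ring
    have hc : IsCompact (segment ℝ (chordPt (x e.fst) (x e.snd) r1)
        (chordPt (x e.fst) (x e.snd) r2)) := by
      rw [segment_eq_image]; exact isCompact_Icc.image (by fun_prop)
    obtain ⟨δ, d1, d2⟩ := hc.exists_thickening_subset_open φ.open_source hseg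
    have hcv := convex_segment (𝕜 := ℝ) (chordPt (x e.fst) (x e.snd) r1)
      (chordPt (x e.fst) (x e.snd) r2)
    have o1 := left_mem_segment ℝ (chordPt (x e.fst) (x e.snd) r1) (chordPt (x e.fst) (x e.snd) r2)
    have o2 := right_mem_segment ℝ (chordPt (x e.fst) (x e.snd) r1) (chordPt (x e.fst) (x e.snd) r2)
    generalize segment ℝ (chordPt (x e.fst) (x e.snd) r1) (chordPt (x e.fst) (x e.snd) r2) = S
      at o1 o2 hcv d2
    rw [← m3] at o1
    rw [← n3] at o2
    obtain ⟨s', p1, p2, p3⟩ := near_side rfl rfl k1 k2 k3 (isOpen_thickening.mem_nhds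
      (self_subset_thickening d1 _ o1)) c1
    obtain ⟨t', q1, q2, q3⟩ := near_side rfl rfl l1 l2 l3 (isOpen_thickening.mem_nhds
      (self_subset_thickening d1 _ o2)) c2
    have hP : (x g.fst - x e.fst) * (x g.fst - x e.snd) =
      (x f.fst - x e.fst) * (x f.fst - x e.snd) := by rw [hfg]
    rw [hP] at q3
    generalize (x f.fst - x e.fst) * (x f.fst - x e.snd) = P at p3 q3
    have hH : Convex ℝ {p : ℝ × ℝ | 0 < P * lin (x e.fst) (x e.snd) p} := by
      intro p hp q hq α β hα hβ hαβ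
      have := (convex_Ioi (0 : ℝ)) hp hq hα hβ hαβ
      obtain rfl : β = 1 - α := by linarith
      simp only [mem_ofPred_eq, lin, mem_Ioi, smul_eq_mul, Prod.snd_add, Prod.smul_snd,
        Prod.fst_add, Prod.smul_fst] at this ⊢
      linarith
    obtain ⟨p, hp, hp0⟩ := ((hcv.thickening δ).inter hH).isPreconnected.intermediate_value
      (f := fun p => (φ p).2) (a := chord (x g.fst) (x g.snd) t') ⟨q2, q3⟩ ⟨p2, p3⟩
      (continuous_snd.comp_continuousOn (φ.continuousOn.mono (inter_subset_left.trans d2)))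
      (show (0 : ℝ) ∈ Icc _ _ from ⟨(neg_pos.1 q1).le, p1.le⟩)
    obtain ⟨r, rfl⟩ := (hφ.2 p (d2 hp.1)).2 hp0
    have h1 : 0 < P * lin (x e.fst) (x e.snd) (chordPt (x e.fst) (x e.snd) r) := hp.2
    rw [lin_self, mul_zero] at h1
    exact lt_irrefl _ h1
  · have hE : IsPreconnected {p : ℝ × ℝ | p.2 < p.1 ^ 2} := by
      have : {p : ℝ × ℝ | p.2 < p.1 ^ 2} =
          (fun p : ℝ × ℝ => (p.1, p.1 ^ 2 - p.2)) '' (univ ×ˢ Ioi 0) := by
        ext p
        constructor
        · intro hp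
          exact ⟨(p.1, p.1 ^ 2 - p.2), ⟨trivial, show 0 < p.1 ^ 2 - p.2 from sub_pos.2 hp⟩, by simp⟩
        · rintro ⟨q, hq, rfl⟩
          exact sub_lt_self _ (show 0 < q.2 from hq.2)
      rw [this]
      exact (convex_univ.prod (convex_Ioi (0 : ℝ))).isPreconnected.image _ (by fun_prop)
    have hsub := hE.subset_connectedComponentIn (x := (0, -1)) (F := (parDrawing hx h).traceᶜ)
      (by simp) (by
        rintro p hp (⟨v, rfl⟩ | hp')
        · exact lt_irrefl (x v ^ 2) hp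
        · obtain ⟨e, t, rfl⟩ := mem_iUnion.1 hp'
          have h1 : (1 - t) * x e.fst ^ 2 + t * x e.snd ^ 2 <
            ((1 - t) * x e.fst + t * x e.snd) ^ 2 := hp
          nlinarith [mul_nonneg (mul_nonneg t.2.1 (sub_nonneg.2 t.2.2))
            (sq_nonneg (x e.fst - x e.snd))])
    refine ⟨(0, -1), fun hb => ?_, fun v => closure_mono hsub ?_⟩
    · obtain ⟨M, hM⟩ := isBounded_iff_forall_norm_le.1 (hb.subset hsub)
      have h1 := hM (0, -(|M| + 1)) (by simp only [mem_ofPred_eq]; nlinarith [abs_nonneg M])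
      have h2 := (neg_le_abs _).trans ((norm_snd_le _).trans h1)
      have := le_abs_self M
      simp only at h2
      linarith
    · refine Metric.mem_closure_iff.2 fun ε hε => ⟨(x v, x v ^ 2 - ε / 2), by simpa using hε, ?_⟩
      simp only [parDrawing, Prod.dist_eq, dist_self, Real.dist_eq, sub_sub_cancel]
      rw [abs_of_pos (half_pos hε)]
      exact max_lt hε (half_lt_self hε)

end Pool.Agent.Lib.MP_f9c574_lc
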