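import Pool.Agent.Lib.MP_f9c574_lc.Basic

/-!
Many connected pieces attached to the same vertices.
-/

set_option linter.unusedVariables false

namespace Pool.Agent.Lib.MP_f9c574_lc

open Classical

variable (G : SimpleGraph ℕ)

/-- A family of connected, pairwise disjoint and non-adjacent subsets of `U`. -/
structure Fam (U : Finset ℕ) (F : Finset (Finset ℕ)) : Prop where
  sub : ∀ K ∈ F, K ⊆ U
  conn : ∀ K ∈ F, Conn G K
  sep : ∀ K ∈ F, ∀ K' ∈ F, K ≠ K' → ∀ x ∈ K, ∀ y ∈ K', x ≠ y ∧ ¬ G.Adj x y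

/-- `u` lies outside each member of the family and has a neighbour in it. -/
def Att (F : Finset (Finset ℕ)) (u : ℕ) : Prop := ∀ K ∈ F, u ∉ K ∧ ∃ x ∈ K, G.Adj u x

/-- The edges from `u` to `K` are crossed only by edges at `v`. -/
def Good1 (U : Finset ℕ) (p : ℕ → ℕ) (u v : ℕ) (K : Finset ℕ) : Prop :=
  ∀ x ∈ K, G.Adj u x → ∀ c ∈ U, ∀ d ∈ U, G.Adj c d → Cr p u x c d → c = v ∨ d = v

/-- `K` can be placed as a block between `u` and `v`. -/
def Clean (K : Finset ℕ) (u v : ℕ) : Prop :=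
  ∃ p : ℕ → ℕ, Set.InjOn p (insert u (insert v K) : Finset ℕ) ∧ NoInd G (insert u (insert v K)) p ∧
    Con1 G (insert u (insert v K)) p u v ∧ Con1 G (insert u (insert v K)) p v u ∧ p u < p v ∧
    ∀ x ∈ K, p u < p x ∧ p x < p v

theorem num_bad {u v x1 x2 x3 : ℕ} (d12 : x1 ≠ x2) (d13 : x1 ≠ x3) (d23 : x2 ≠ x3)
    (e1 : x1 ≠ u) (e2 : x2 ≠ u) (e3 : x3 ≠ u) (f1 : x1 ≠ v) (f2 : x2 ≠ v) (f3 : x3 ≠ v) (g : u ≠ v)
    (s12 : (min u v < x1 ∧ x1 < max u v) ↔ (min u v < x2 ∧ x2 < max u v))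
    (s13 : (min u v < x1 ∧ x1 < max u v) ↔ (min u v < x3 ∧ x3 < max u v)) :
    (Il u x1 x2 v ∧ Il u x1 x3 v) ∨ (Il u x2 x1 v ∧ Il u x2 x3 v) ∨
      (Il u x3 x1 v ∧ Il u x3 x2 v) := by
  rcases Nat.lt_or_gt_of_ne d12 with d12 | d12 <;> rcases Nat.lt_or_gt_of_ne d13 with d13 | d13 <;>
  rcases Nat.lt_or_gt_of_ne d23 with d23 | d23 <;> rcases Nat.lt_or_gt_of_ne g with g | g <;>
  rcases Nat.lt_or_gt_of_ne e1 with e1 | e1 <;> rcases Nat.lt_or_gt_of_ne e2 with e2 | e2 <;>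
  rcases Nat.lt_or_gt_of_ne e3 with e3 | e3 <;>
  rcases Nat.lt_or_gt_of_ne f1 with f1 | f1 <;> rcases Nat.lt_or_gt_of_ne f2 with f2 | f2 <;>
  rcases Nat.lt_or_gt_of_ne f3 with f3 | f3 <;>
  first
    | (exfalso; omega)
    | (left; constructor <;> (unfold Il; omega))
    | (right; left; constructor <;> (unfold Il; omega))
    | (right; right; constructor <;> (unfold Il; omega))

theorem num_three {u w x1 x2 x3 : ℕ} (d12 : x1 ≠ x2) (d13 : x1 ≠ x3) (d23 : x2 ≠ x3)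
    (e1 : x1 ≠ u) (e2 : x2 ≠ u) (e3 : x3 ≠ u) (f1 : x1 ≠ w) (f2 : x2 ≠ w) (f3 : x3 ≠ w)
    (g : u ≠ w) :
    Il u x1 x2 w ∨ Il u x1 x3 w ∨ Il u x2 x1 w ∨ Il u x2 x3 w ∨ Il u x3 x1 w ∨ Il u x3 x2 w := by
  rcases Nat.lt_or_gt_of_ne d12 with d12 | d12 <;> rcases Nat.lt_or_gt_of_ne d13 with d13 | d13 <;>
  rcases Nat.lt_or_gt_of_ne d23 with d23 | d23 <;> rcases Nat.lt_or_gt_of_ne g with g | g <;>
  rcases Nat.lt_or_gt_of_ne e1 with e1 | e1 <;> rcases Nat.lt_or_gt_of_ne e2 with e2 | e2 <;>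
  rcases Nat.lt_or_gt_of_ne e3 with e3 | e3 <;>
  rcases Nat.lt_or_gt_of_ne f1 with f1 | f1 <;> rcases Nat.lt_or_gt_of_ne f2 with f2 | f2 <;>
  rcases Nat.lt_or_gt_of_ne f3 with f3 | f3 <;>
  first
    | (exfalso; omega)
    | (left; unfold Il; omega)
    | (right; left; unfold Il; omega)
    | (right; right; left; unfold Il; omega)
    | (right; right; right; left; unfold Il; omega)
    | (right; right; right; right; left; unfold Il; omega)
    | (right; right; right; right; right; unfold Il; omega)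

theorem il_iff {a b c d : ℕ} (h1 : c ≠ a) (h2 : c ≠ b) (h3 : d ≠ a) (h4 : d ≠ b) :
    Il a b c d ↔ ¬ ((min a b < c ∧ c < max a b) ↔ (min a b < d ∧ d < max a b)) := by
  unfold Il
  rcases Nat.lt_or_gt_of_ne h1 with h1 | h1 <;> rcases Nat.lt_or_gt_of_ne h2 with h2 | h2 <;>
  rcases Nat.lt_or_gt_of_ne h3 with h3 | h3 <;> rcases Nat.lt_or_gt_of_ne h4 with h4 | h4 <;>
  omega

theorem il_symm {a b c d : ℕ} (h : Il a b c d) : Il c d a b := by
  unfold Il at *; omega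

theorem il_ne {a b c d : ℕ} (h : Il a b c d) : a ≠ c ∧ a ≠ d ∧ b ≠ c ∧ b ≠ d := by
  unfold Il at *; omega

theorem num_nc {u v c d x y : ℕ} (h : Il u v c d) (n1 : ¬ Il u x c d) (n2 : ¬ Il v y c d)
    (e1 : x ≠ c) (e2 : x ≠ d) (e3 : y ≠ c) (e4 : y ≠ d) : Il c d x y := by
  obtain ⟨a1, a2, a3, a4⟩ := il_ne h
  have h' := (il_iff a1 a2 a3 a4).1 (il_symm h)
  have n1' := not_not.1 (mt (fun h => il_symm ((il_iff a1 a2 e1 e2).2 h)) n1)
  have n2' := not_not.1 (mt (fun h => il_symm ((il_iff a3 a4 e3 e4).2 h)) n2)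
  rw [il_iff e1 e2 e3 e4, ← n1', ← n2']
  exact h'

theorem num_share {c d e1 e2 v : ℕ} (k1 : c = e1 ∨ c = v ∨ d = e1 ∨ d = v)
    (k2 : c = e2 ∨ c = v ∨ d = e2 ∨ d = v) (n : e1 ≠ e2) (h : ¬ (c = v ∨ d = v)) :
    (c = e1 ∧ d = e2) ∨ (c = e2 ∧ d = e1) := by omega

variable {G}

theorem Fam.mono {U F F'} (h : Fam G U F) (hF : F' ⊆ F) : Fam G U F' :=
  ⟨fun K hK => h.sub K (hF hK), fun K hK => h.conn K (hF hK),
    fun K hK K' hK' => h.sep K (hF hK) K' (hF hK')⟩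

theorem Att.mono {F F' u} (h : Att G F u) (hF : F' ⊆ F) : Att G F' u := fun K hK => h K (hF hK)

theorem Fam.not_mem {U F} (h : Fam G U F) {K K' x} (hK : K ∈ F) (hK' : K' ∈ F) (hne : K ≠ K')
    (hx : x ∈ K) : x ∉ K' := fun hx' => (h.sep K hK K' hK' hne x hx x hx').1 rfl

theorem Con1.apply {U p u v a b c d} (h : Con1 G U p u v) (ha : a ∈ U) (hb : b ∈ U) (hc : c ∈ U)
    (hd : d ∈ U) (hab : G.Adj a b) (hcd : G.Adj c d) (hx : Cr p a b c d) (hu : a = u ∨ b = u) :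
    c = v ∨ d = v := by
  rcases hu with hu | hu
  · exact h a ha b hb c hc d hd hab hcd hx hu
  · exact h b hb a ha c hc d hd hab.symm hcd hx.swap_left hu

theorem two_cross {U : Finset ℕ} {F p} (hp : Set.InjOn p U) (hv : NoInd G U p) (hF : Fam G U F) {v a b : ℕ}
    (hA : Att G F v) (hvU : v ∈ U) (ha : a ∈ U) (hb : b ∈ U) (hab : G.Adj a b) {K1 K2 y1 y2}
    (h1 : K1 ∈ F) (h2 : K2 ∈ F) (hne : K1 ≠ K2) (ha1 : a ∉ K1) (hb1 : b ∉ K1) (ha2 : a ∉ K2)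
    (hb2 : b ∉ K2) (hy1 : y1 ∈ K1) (hy2 : y2 ∈ K2) (c1 : Cr p a b y1 v) (c2 : Cr p a b y2 v) :
    ∀ c ∈ U, ∀ d ∈ U, G.Adj c d → Cr p a b c d → c = v ∨ d = v := by
  intro c hc d hd hcd hx
  obtain ⟨hv1, z1, hz1, hz1'⟩ := hA K1 h1
  obtain ⟨hv2, z2, hz2, hz2'⟩ := hA K2 h2
  obtain ⟨e1, he1, f1, hf1, hef1, x1⟩ :=
    cross_ext hp (hF.conn K1 h1) (hF.sub K1 h1) ha hb ha1 hb1 hy1 hz1 hz1' c1
  obtain ⟨e2, he2, f2, hf2, hef2, x2⟩ :=
    cross_ext hp (hF.conn K2 h2) (hF.sub K2 h2) ha hb ha2 hb2 hy2 hz2 hz2' c2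
  have hf1U : f1 ∈ U := hf1.elim (fun h => hF.sub K1 h1 h) (fun h => h ▸ hvU)
  have hf2U : f2 ∈ U := hf2.elim (fun h => hF.sub K2 h2 h) (fun h => h ▸ hvU)
  have he1U := hF.sub K1 h1 he1
  have he2U := hF.sub K2 h2 he2
  have s := hF.sep K1 h1 K2 h2 hne
  have k := hv a ha b hb e1 he1U f1 hf1U e2 he2U f2 hf2U hab hef1 hef2 x1 x2
  have n1 : e1 ≠ v := fun h => hv1 (h ▸ he1)
  have n2 : e2 ≠ v := fun h => hv2 (h ▸ he2)
  have n3 := s e1 he1 e2 he2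
  have hff : f1 = v ∧ f2 = v := by
    rcases hf1 with hf1 | hf1 <;> rcases hf2 with hf2 | hf2
    · rcases k with k | k | k | k
      · exact absurd k n3.1
      · exact absurd k (s e1 he1 f2 hf2).1
      · exact absurd k (s f1 hf1 e2 he2).1
      · exact absurd k (s f1 hf1 f2 hf2).1
    · rcases k with k | k | k | k
      · exact absurd k n3.1
      · exact absurd (k.trans hf2) n1
      · exact absurd k (s f1 hf1 e2 he2).1
      · exact absurd ((k.trans hf2) ▸ hf1) hv1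
    · rcases k with k | k | k | k
      · exact absurd k n3.1
      · exact absurd k (s e1 he1 f2 hf2).1
      · exact absurd (k.symm.trans hf1) n2
      · exact absurd ((k.symm.trans hf1) ▸ hf2) hv2
    · exact ⟨hf1, hf2⟩
  have k1 := hv a ha b hb c hc d hd e1 he1U f1 hf1U hab hcd hef1 hx x1
  have k2 := hv a ha b hb c hc d hd e2 he2U f2 hf2U hab hcd hef2 hx x2
  rw [hff.1] at k1
  rw [hff.2] at k2
  by_contra hcon
  have := num_share k1 k2 n3.1 hcon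
  rcases this with ⟨rfl, rfl⟩ | ⟨rfl, rfl⟩
  · exact n3.2 hcd
  · exact n3.2 hcd.symm

theorem bad_card {U : Finset ℕ} {F p} (hp : Set.InjOn p U) (hv : NoInd G U p) (hF : Fam G U F) {u v : ℕ}
    (hu : u ∈ U) (hvU : v ∈ U) (huv : u ≠ v) (hAu : Att G F u) (hAv : Att G F v) :
    (F.filter fun K => ¬ Good1 G U p u v K).card ≤ 4 := by
  have key : ∀ s : ℕ → Prop,
      (∀ x y, s x → s y → ((min (p u) (p v) < p x ∧ p x < max (p u) (p v)) ↔
        (min (p u) (p v) < p y ∧ p y < max (p u) (p v)))) →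
      (F.filter fun K => ∃ x ∈ K, s x ∧ G.Adj u x ∧
        ¬ ∀ c ∈ U, ∀ d ∈ U, G.Adj c d → Cr p u x c d → c = v ∨ d = v).card ≤ 2 := by
    intro s hs
    by_contra hcon
    obtain ⟨K1, K2, K3, m1, m2, m3, n12, n13, n23⟩ := Finset.two_lt_card_iff.1 (not_le.1 hcon)
    obtain ⟨h1, x1, hx1, s1, a1, b1⟩ := Finset.mem_filter.1 m1
    obtain ⟨h2, x2, hx2, s2, a2, b2⟩ := Finset.mem_filter.1 m2
    obtain ⟨h3, x3, hx3, s3, a3, b3⟩ := Finset.mem_filter.1 m3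
    have u1 := hF.sub _ h1 hx1
    have u2 := hF.sub _ h2 hx2
    have u3 := hF.sub _ h3 hx3
    have d12 : p x1 ≠ p x2 := fun e => (hF.sep _ h1 _ h2 n12 _ hx1 _ hx2).1 (hp u1 u2 e)
    have d13 : p x1 ≠ p x3 := fun e => (hF.sep _ h1 _ h3 n13 _ hx1 _ hx3).1 (hp u1 u3 e)
    have d23 : p x2 ≠ p x3 := fun e => (hF.sep _ h2 _ h3 n23 _ hx2 _ hx3).1 (hp u2 u3 e)
    have e1 : p x1 ≠ p u := fun e => (hAu _ h1).1 (hp u1 hu e ▸ hx1)
    have e2 : p x2 ≠ p u := fun e => (hAu _ h2).1 (hp u2 hu e ▸ hx2)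
    have e3 : p x3 ≠ p u := fun e => (hAu _ h3).1 (hp u3 hu e ▸ hx3)
    have f1 : p x1 ≠ p v := fun e => (hAv _ h1).1 (hp u1 hvU e ▸ hx1)
    have f2 : p x2 ≠ p v := fun e => (hAv _ h2).1 (hp u2 hvU e ▸ hx2)
    have f3 : p x3 ≠ p v := fun e => (hAv _ h3).1 (hp u3 hvU e ▸ hx3)
    have g : p u ≠ p v := fun e => huv (hp hu hvU e)
    have s12 := hs _ _ s1 s2
    have s13 := hs _ _ s1 s3
    have : (Cr p u x1 x2 v ∧ Cr p u x1 x3 v) ∨ (Cr p u x2 x1 v ∧ Cr p u x2 x3 v) ∨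
        (Cr p u x3 x1 v ∧ Cr p u x3 x2 v) := num_bad d12 d13 d23 e1 e2 e3 f1 f2 f3 g s12 s13
    rcases this with ⟨c, c'⟩ | ⟨c, c'⟩ | ⟨c, c'⟩
    · exact b1 (two_cross hp hv hF hAv hvU hu u1 a1 h2 h3 n23 (hAu _ h2).1
        (hF.not_mem h1 h2 n12 hx1) (hAu _ h3).1 (hF.not_mem h1 h3 n13 hx1) hx2 hx3 c c')
    · exact b2 (two_cross hp hv hF hAv hvU hu u2 a2 h1 h3 n13 (hAu _ h1).1
        (hF.not_mem h2 h1 n12.symm hx2) (hAu _ h3).1 (hF.not_mem h2 h3 n23 hx2) hx1 hx3 c c')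
    · exact b3 (two_cross hp hv hF hAv hvU hu u3 a3 h1 h2 n12 (hAu _ h1).1
        (hF.not_mem h3 h1 n13.symm hx3) (hAu _ h2).1 (hF.not_mem h3 h2 n23.symm hx3) hx1 hx2 c c')
  have k1 := key (fun x => min (p u) (p v) < p x ∧ p x < max (p u) (p v))
    (fun x y hx hy => iff_of_true hx hy)
  have k2 := key (fun x => ¬ (min (p u) (p v) < p x ∧ p x < max (p u) (p v)))
    (fun x y hx hy => iff_of_false hx hy)
  refine le_trans (Finset.card_le_card ?_) ((Finset.card_union_le _ _).trans (add_le_add k1 k2))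
  intro K hK
  obtain ⟨h1, h2⟩ := Finset.mem_filter.1 hK
  unfold Good1 at h2
  push Not at h2
  obtain ⟨x, hx, a, c, hc, d, hd, h3⟩ := h2
  have h4 : ¬ ∀ c ∈ U, ∀ d ∈ U, G.Adj c d → Cr p u x c d → c = v ∨ d = v := fun h => by
    have := h c hc d hd h3.1 h3.2.1
    omega
  simp only [Finset.mem_union, Finset.mem_filter]
  by_cases hs : min (p u) (p v) < p x ∧ p x < max (p u) (p v)
  · exact Or.inl ⟨h1, x, hx, hs, a, h4⟩
  · exact Or.inr ⟨h1, x, hx, hs, a, h4⟩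

theorem good_card {U : Finset ℕ} {F p} (hp : Set.InjOn p U) (hv : NoInd G U p) (hF : Fam G U F) {u v : ℕ}
    (hu : u ∈ U) (hvU : v ∈ U) (huv : u ≠ v) (hAu : Att G F u) (hAv : Att G F v) :
    F.card ≤ (F.filter fun K => Good1 G U p u v K ∧ Good1 G U p v u K).card + 8 := by
  have k1 := bad_card hp hv hF hu hvU huv hAu hAv
  have k2 := bad_card hp hv hF hvU hu huv.symm hAv hAu
  have : F ⊆ (F.filter fun K => Good1 G U p u v K ∧ Good1 G U p v u K) ∪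
      ((F.filter fun K => ¬ Good1 G U p u v K) ∪ (F.filter fun K => ¬ Good1 G U p v u K)) := by
    intro K hK
    simp only [Finset.mem_union, Finset.mem_filter]
    tauto
  have h1 := (Finset.card_le_card this).trans (Finset.card_union_le _ _)
  have h2 := Finset.card_union_le (F.filter fun K => ¬ Good1 G U p u v K)
    (F.filter fun K => ¬ Good1 G U p v u K)
  omega

theorem Fam.card_mem_le {U F} (hF : Fam G U F) (c : ℕ) : (F.filter fun K => c ∈ K).card ≤ 1 := by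
  rw [Finset.card_le_one]
  intro K hK K' hK'
  by_contra hne
  rw [Finset.mem_filter] at hK hK'
  exact hF.not_mem hK.1 hK'.1 hne hK.2 hK'.2

/-- With four good pieces no edge crosses the chord `u v`. -/
theorem no_cross {U : Finset ℕ} {F p} (hp : Set.InjOn p U) (hv : NoInd G U p) (hF : Fam G U F) {u v : ℕ}
    (hu : u ∈ U) (hvU : v ∈ U) (hAu : Att G F u) (hAv : Att G F v)
    (hg : ∀ K ∈ F, Good1 G U p u v K ∧ Good1 G U p v u K) (h4 : 4 ≤ F.card) :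
    ∀ c ∈ U, ∀ d ∈ U, G.Adj c d → ¬ Cr p u v c d := by
  intro c hc d hd hcd hx
  have hsub : F ⊆ (F.filter fun K => c ∉ K ∧ d ∉ K) ∪
      ((F.filter fun K => c ∈ K) ∪ (F.filter fun K => d ∈ K)) := by
    intro K hK
    simp only [Finset.mem_union, Finset.mem_filter]
    tauto
  have h1 := (Finset.card_le_card hsub).trans (Finset.card_union_le _ _)
  have h2 := Finset.card_union_le (F.filter fun K => c ∈ K) (F.filter fun K => d ∈ K)
  have h3 := hF.card_mem_le c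
  have h5 := hF.card_mem_le d
  obtain ⟨K1, m1, K2, m2, hne⟩ := Finset.one_lt_card.1
    (show 1 < (F.filter fun K => c ∉ K ∧ d ∉ K).card by omega)
  have key : ∀ K ∈ F, c ∉ K → d ∉ K → ∃ e ∈ K, ∃ f ∈ K, G.Adj e f ∧ Cr p c d e f := by
    intro K hK hcK hdK
    obtain ⟨_, x, hxK, hux⟩ := hAu K hK
    obtain ⟨_, y, hyK, hvy⟩ := hAv K hK
    have n1 : ¬ Cr p u x c d := fun h => by
      rcases (hg K hK).1 x hxK hux c hc d hd hcd h with h | h
      · exact hx.ne_bc h.symm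
      · exact hx.ne_bd h.symm
    have n2 : ¬ Cr p v y c d := fun h => by
      rcases (hg K hK).2 y hyK hvy c hc d hd hcd h with h | h
      · exact hx.ne_ac h.symm
      · exact hx.ne_ad h.symm
    have e1 : p x ≠ p c := fun e => hcK (hp (hF.sub K hK hxK) hc e ▸ hxK)
    have e2 : p x ≠ p d := fun e => hdK (hp (hF.sub K hK hxK) hd e ▸ hxK)
    have e3 : p y ≠ p c := fun e => hcK (hp (hF.sub K hK hyK) hc e ▸ hyK)
    have e4 : p y ≠ p d := fun e => hdK (hp (hF.sub K hK hyK) hd e ▸ hyK)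
    exact cross_in hp (hF.conn K hK) (hF.sub K hK) hc hd hcK hdK hxK hyK
      (num_nc hx n1 n2 e1 e2 e3 e4)
  rw [Finset.mem_filter] at m1 m2
  obtain ⟨e1, he1, f1, hf1, a1, x1⟩ := key K1 m1.1 m1.2.1 m1.2.2
  obtain ⟨e2, he2, f2, hf2, a2, x2⟩ := key K2 m2.1 m2.2.1 m2.2.2
  have s := hF.sep K1 m1.1 K2 m2.1 hne
  rcases hv c hc d hd e1 (hF.sub _ m1.1 he1) f1 (hF.sub _ m1.1 hf1) e2 (hF.sub _ m2.1 he2)
    f2 (hF.sub _ m2.1 hf2) hcd a1 a2 x1 x2 with h | h | h | h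
  · exact (s e1 he1 e2 he2).1 h
  · exact (s e1 he1 f2 hf2).1 h
  · exact (s f1 hf1 e2 he2).1 h
  · exact (s f1 hf1 f2 hf2).1 h

/-- At most ten pieces are attached to three given vertices. -/
theorem three_att {U : Finset ℕ} {F p} (hp : Set.InjOn p U) (hv : NoInd G U p) (hF : Fam G U F) {u v w : ℕ}
    (hu : u ∈ U) (hvU : v ∈ U) (hw : w ∈ U) (huv : u ≠ v) (huw : u ≠ w) (hvw : v ≠ w)
    (hAu : Att G F u) (hAv : Att G F v) (hAw : Att G F w) : F.card ≤ 10 := by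
  have k := good_card hp hv hF hu hvU huv hAu hAv
  by_contra hcon
  obtain ⟨K1, K2, K3, m1, m2, m3, n12, n13, n23⟩ := Finset.two_lt_card_iff.1
    (show 2 < (F.filter fun K => Good1 G U p u v K ∧ Good1 G U p v u K).card by omega)
  rw [Finset.mem_filter] at m1 m2 m3
  have key : ∀ K ∈ F, ∀ K' ∈ F, K ≠ K' → Good1 G U p u v K → ∀ x ∈ K, G.Adj u x → ∀ y ∈ K',
      ¬ Cr p u x y w := by
    intro K hK K' hK' hne hg x hx hux y hy hc
    obtain ⟨_, z, hz, hwz⟩ := hAw K' hK'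
    obtain ⟨e, he, f, hf, hef, hx'⟩ := cross_ext hp (hF.conn K' hK') (hF.sub K' hK') hu
      (hF.sub K hK hx) (hAu K' hK').1 (hF.not_mem hK hK' hne hx) hy hz hwz hc
    have hfU : f ∈ U := hf.elim (fun h => hF.sub K' hK' h) (fun h => h ▸ hw)
    rcases hg x hx hux e (hF.sub K' hK' he) f hfU hef hx' with h | h
    · exact (hAv K' hK').1 (h ▸ he)
    · rcases hf with hf | hf
      · exact (hAv K' hK').1 (h ▸ hf)
      · exact hvw (h.symm.trans hf)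
  obtain ⟨_, x1, hx1, a1⟩ := hAu K1 m1.1
  obtain ⟨_, x2, hx2, a2⟩ := hAu K2 m2.1
  obtain ⟨_, x3, hx3, a3⟩ := hAu K3 m3.1
  have u1 := hF.sub _ m1.1 hx1
  have u2 := hF.sub _ m2.1 hx2
  have u3 := hF.sub _ m3.1 hx3
  have d12 : p x1 ≠ p x2 := fun e => (hF.sep _ m1.1 _ m2.1 n12 _ hx1 _ hx2).1 (hp u1 u2 e)
  have d13 : p x1 ≠ p x3 := fun e => (hF.sep _ m1.1 _ m3.1 n13 _ hx1 _ hx3).1 (hp u1 u3 e)
  have d23 : p x2 ≠ p x3 := fun e => (hF.sep _ m2.1 _ m3.1 n23 _ hx2 _ hx3).1 (hp u2 u3 e)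
  have e1 : p x1 ≠ p u := fun e => (hAu _ m1.1).1 (hp u1 hu e ▸ hx1)
  have e2 : p x2 ≠ p u := fun e => (hAu _ m2.1).1 (hp u2 hu e ▸ hx2)
  have e3 : p x3 ≠ p u := fun e => (hAu _ m3.1).1 (hp u3 hu e ▸ hx3)
  have f1 : p x1 ≠ p w := fun e => (hAw _ m1.1).1 (hp u1 hw e ▸ hx1)
  have f2 : p x2 ≠ p w := fun e => (hAw _ m2.1).1 (hp u2 hw e ▸ hx2)
  have f3 : p x3 ≠ p w := fun e => (hAw _ m3.1).1 (hp u3 hw e ▸ hx3)
  have g : p u ≠ p w := fun e => huw (hp hu hw e)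
  have : Cr p u x1 x2 w ∨ Cr p u x1 x3 w ∨ Cr p u x2 x1 w ∨ Cr p u x2 x3 w ∨
      Cr p u x3 x1 w ∨ Cr p u x3 x2 w := num_three d12 d13 d23 e1 e2 e3 f1 f2 f3 g
  rcases this with h | h | h | h | h | h
  · exact key _ m1.1 _ m2.1 n12 m1.2.1 _ hx1 a1 _ hx2 h
  · exact key _ m1.1 _ m3.1 n13 m1.2.1 _ hx1 a1 _ hx3 h
  · exact key _ m2.1 _ m1.1 n12.symm m2.2.1 _ hx2 a2 _ hx1 h
  · exact key _ m2.1 _ m3.1 n23 m2.2.1 _ hx2 a2 _ hx3 h
  · exact key _ m3.1 _ m1.1 n13.symm m3.2.1 _ hx3 a3 _ hx1 h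
  · exact key _ m3.1 _ m2.1 n23.symm m3.2.1 _ hx3 a3 _ hx2 h

theorem Good1.congr {U p q u v K} (h : Good1 G U p u v K) (e : CrEq U p q) (hu : u ∈ U)
    (hK : K ⊆ U) : Good1 G U q u v K :=
  fun x hx hux c hc d hd hcd hcr => h x hx hux c hc d hd hcd ((e u hu x (hK hx) c hc d hd).2 hcr)

/-- A good piece is clean when the chord `u v` is not crossed. -/
theorem clean_of_good {U K : Finset ℕ} {p} (hp : Set.InjOn p U) (hv : NoInd G U p) (hKU : K ⊆ U)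
    (hK : Conn G K) {u v y : ℕ} (hu : u ∈ U) (hvU : v ∈ U) (huv : u ≠ v) (huK : u ∉ K)
    (hvK : v ∉ K) (hy : y ∈ K) (g1 : Good1 G U p u v K) (g2 : Good1 G U p v u K)
    (hn : ∀ c ∈ U, ∀ d ∈ U, G.Adj c d → ¬ Cr p u v c d) : Clean G K u v := by
  obtain ⟨q, hq, e, hmin, hyv⟩ := exists_norm hp hu hvU (hKU hy) huv
    (fun h => huK (h ▸ hy)) (fun h => hvK (h ▸ hy))
  have hsub : (insert u (insert v K) : Finset ℕ) ⊆ U := by
    intro x hx
    simp only [Finset.mem_insert] at hx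
    rcases hx with rfl | rfl | hx
    exacts [hu, hvU, hKU hx]
  refine ⟨q, hq.mono hsub, (hv.congr e).mono hsub, Con1.congr ?_ (e.mono hsub),
    Con1.congr ?_ (e.mono hsub), hmin v hvU huv.symm, fun x hx => ?_⟩
  · intro a ha b hb c hc d hd hab hcd hx hau
    subst hau
    simp only [Finset.mem_insert] at hb
    rcases hb with rfl | rfl | hb
    · exact absurd hab G.irrefl
    · exact absurd hx (hn c (hsub hc) d (hsub hd) hcd)
    · exact g1 b hb hab c (hsub hc) d (hsub hd) hcd hx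
  · intro a ha b hb c hc d hd hab hcd hx hau
    subst hau
    simp only [Finset.mem_insert] at hb
    rcases hb with rfl | rfl | hb
    · exact absurd hx.swap_left (hn c (hsub hc) d (hsub hd) hcd)
    · exact absurd hab G.irrefl
    · exact g2 b hb hab c (hsub hc) d (hsub hd) hcd hx
  · have h1 := hmin x (hKU hx) (fun h => huK (h ▸ hx))
    have h2 := hmin y (hKU hy) (fun h => huK (h ▸ hy))
    have h3 : q x ≠ q v := fun h => hvK (hq (hKU hx) hvU h ▸ hx)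
    have h4 : ¬ Cr q u v x y := fun h => by
      obtain ⟨c, hc, d, hd, hcd, h5⟩ := cross_in hq hK hKU hu hvU huK hvK hx hy h
      exact hn c (hKU hc) d (hKU hd) hcd ((e u hu v hvU c (hKU hc) d (hKU hd)).2 h5)
    unfold Cr Il at h4
    omega

end Pool.Agent.Lib.MP_f9c574_lc
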